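import Mathlib
import Pool.Agent.Helper186.Moser

/-! Smooth families of linear and bilinear forms along maps: composition and sums. -/

open scoped Topology ContDiff Manifold
open Set Metric Bundle

noncomputable section

namespace Pool.Agent.Helper500_SM

open Pool.Agent.Helper186

set_option linter.unusedSectionVars false

variable {E : Type*} [NormedAddCommGroup E] [NormedSpace ℝ E] [FiniteDimensional ℝ E]
  {H : Type*} [TopologicalSpace H] {I : ModelWithCorners ℝ E H} [I.Boundaryless]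
  {M : Type*} [TopologicalSpace M] [ChartedSpace H M] [IsManifold I ∞ M]
  {E' : Type*} [NormedAddCommGroup E'] [NormedSpace ℝ E']
  {H' : Type*} [TopologicalSpace H'] {J : ModelWithCorners ℝ E' H'}
  {P : Type*} [TopologicalSpace P] [ChartedSpace H' P]
  {E'' : Type*} [NormedAddCommGroup E''] [NormedSpace ℝ E'']
  {H'' : Type*} [TopologicalSpace H''] {J' : ModelWithCorners ℝ E'' H''}
  {P' : Type*} [TopologicalSpace P'] [ChartedSpace H'' P']

/-- A smooth family of linear forms along a map, tested on smooth sections. -/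
def SmoothLinAt (J : ModelWithCorners ℝ E' H') (f : P → M)
    (α : (p : P) → TangentSpace I (f p) →L[ℝ] ℝ) (p₀ : P) : Prop :=
  ∀ u : (p : P) → TangentSpace I (f p),
    ContMDiffAt J I.tangent ∞ (fun p => (⟨f p, u p⟩ : TangentBundle I M)) p₀ →
    ContMDiffAt J 𝓘(ℝ, ℝ) ∞ (fun p => α p (u p)) p₀

/-- the coordinates of a family of linear forms -/
def coordLin (f : P → M) (α : (p : P) → TangentSpace I (f p) →L[ℝ] ℝ) (p₀ p : P) :
    E →L[ℝ] ℝ :=
  (show E →L[ℝ] ℝ from α p).comp
    (show E →L[ℝ] E from (trivializationAt E (TangentSpace I) (f p₀)).symmL ℝ (f p))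

lemma coordLin_apply (f : P → M) (α : (p : P) → TangentSpace I (f p) →L[ℝ] ℝ) (p₀ p : P)
    (a : E) : coordLin f α p₀ p a =
      α p ((trivializationAt E (TangentSpace I) (f p₀)).symmL ℝ (f p) a) := rfl

lemma contMDiffAt_coordLin {f : P → M} {p₀ : P} (hf : ContMDiffAt J I ∞ f p₀)
    {α : (p : P) → TangentSpace I (f p) →L[ℝ] ℝ} (hα : SmoothLinAt J f α p₀) :
    ContMDiffAt J 𝓘(ℝ, E →L[ℝ] ℝ) ∞ (coordLin f α p₀) p₀ := by
  apply contMDiffAt_clm_of_apply
  intro a
  exact hα _ (contMDiffAt_symmL hf a)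

lemma mem_base {f : P → M} {p₀ : P} (hf : ContinuousAt f p₀) :
    ∀ᶠ p in 𝓝 p₀, f p ∈ (trivializationAt E (TangentSpace I) (f p₀)).baseSet :=
  hf.preimage_mem_nhds ((trivializationAt E (TangentSpace I) (f p₀)).open_baseSet.mem_nhds
    (mem_baseSet_trivializationAt E (TangentSpace I) (f p₀)))

lemma symmL_coord {x₀ x : M} (hx : x ∈ (trivializationAt E (TangentSpace I) x₀).baseSet)
    (u : TangentSpace I x) :
    (trivializationAt E (TangentSpace I) x₀).symmL ℝ x
      ((trivializationAt E (TangentSpace I) x₀) (⟨x, u⟩ : TangentBundle I M)).2 = u := by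
  have h := (trivializationAt E (TangentSpace I) x₀).symmL_continuousLinearMapAt (R := ℝ) hx u
  rw [Trivialization.continuousLinearMapAt_apply,
    Trivialization.coe_linearMapAt_of_mem (R := ℝ) _ hx] at h
  exact h

lemma SmoothLinAt.comp {f : P → M} {α : (p : P) → TangentSpace I (f p) →L[ℝ] ℝ}
    {g : P' → P} {p₀ : P'} (hf : ContMDiffAt J I ∞ f (g p₀)) (hα : SmoothLinAt J f α (g p₀))
    (hg : ContMDiffAt J' J ∞ g p₀) :
    SmoothLinAt J' (fun p => f (g p)) (fun p => α (g p)) p₀ := by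
  intro u hu
  have hu' := contMDiffAt_coord hu
  have h1 := (contMDiffAt_coordLin hf hα).comp p₀ hg
  have h2 := h1.clm_apply hu'
  refine h2.congr_of_eventuallyEq ?_
  filter_upwards [mem_base (I := I) (hf.comp p₀ hg).continuousAt] with p hp
  simp only [Function.comp] at hp ⊢
  rw [coordLin_apply, symmL_coord hp]

lemma SmoothBilinAt.comp {f : P → M}
    {B : (p : P) → TangentSpace I (f p) →L[ℝ] TangentSpace I (f p) →L[ℝ] ℝ}
    {g : P' → P} {p₀ : P'} (hf : ContMDiffAt J I ∞ f (g p₀)) (hB : SmoothBilinAt J f B (g p₀))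
    (hg : ContMDiffAt J' J ∞ g p₀) :
    SmoothBilinAt J' (fun p => f (g p)) (fun p => B (g p)) p₀ := by
  intro u v hu hv
  have hu' := contMDiffAt_coord hu
  have hv' := contMDiffAt_coord hv
  have h1 := (contMDiffAt_coordBilin hf hB).comp p₀ hg
  have h2 := (h1.clm_apply hu').clm_apply hv'
  refine h2.congr_of_eventuallyEq ?_
  filter_upwards [mem_base (I := I) (hf.comp p₀ hg).continuousAt] with p hp
  simp only [Function.comp] at hp ⊢
  rw [coordBilin_apply, symmL_coord hp, symmL_coord hp]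

lemma SmoothBilinAt.add {f : P → M}
    {B B' : (p : P) → TangentSpace I (f p) →L[ℝ] TangentSpace I (f p) →L[ℝ] ℝ} {p₀ : P}
    (hB : SmoothBilinAt J f B p₀) (hB' : SmoothBilinAt J f B' p₀) :
    SmoothBilinAt J f (fun p => B p + B' p) p₀ :=
  fun u v hu hv => (hB u v hu hv).add (hB' u v hu hv)

lemma SmoothBilinAt.smul {f : P → M}
    {B : (p : P) → TangentSpace I (f p) →L[ℝ] TangentSpace I (f p) →L[ℝ] ℝ} {c : P → ℝ} {p₀ : P}
    (hc : ContMDiffAt J 𝓘(ℝ, ℝ) ∞ c p₀) (hB : SmoothBilinAt J f B p₀) :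
    SmoothBilinAt J f (fun p => c p • B p) p₀ :=
  fun u v hu hv => hc.mul (hB u v hu hv)

lemma SmoothLinAt.add {f : P → M} {α β : (p : P) → TangentSpace I (f p) →L[ℝ] ℝ} {p₀ : P}
    (hα : SmoothLinAt J f α p₀) (hβ : SmoothLinAt J f β p₀) :
    SmoothLinAt J f (fun p => α p + β p) p₀ :=
  fun u hu => (hα u hu).add (hβ u hu)

lemma SmoothLinAt.smul {f : P → M} {α : (p : P) → TangentSpace I (f p) →L[ℝ] ℝ} {c : P → ℝ}
    {p₀ : P} (hc : ContMDiffAt J 𝓘(ℝ, ℝ) ∞ c p₀) (hα : SmoothLinAt J f α p₀) :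
    SmoothLinAt J f (fun p => c p • α p) p₀ :=
  fun u hu => hc.mul (hα u hu)

lemma SmoothForm.linAt {α : (x : M) → TangentSpace I x →L[ℝ] ℝ} (hα : SmoothForm α)
    (f : P → M) (p₀ : P) : SmoothLinAt J f (fun p => α (f p)) p₀ :=
  fun u hu => ContMDiffAt.comp (x := p₀) (g := fun v : TangentBundle I M => α v.1 v.2)
    (f := fun p => (⟨f p, u p⟩ : TangentBundle I M)) (hα _) hu

end Pool.Agent.Helper500_SM
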