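import Mathlib
import Pool.Agent.Helper500_SM.Bilin

/-! Time dependent two-forms with time dependent primitives of their time derivative. -/

open scoped Topology ContDiff Manifold
open Set Metric Bundle

noncomputable section

namespace Pool.Agent.Helper500_SM

open Pool.Agent.Helper186

set_option linter.unusedSectionVars false

universe u

variable {E : Type u} [NormedAddCommGroup E] [NormedSpace ℝ E] [FiniteDimensional ℝ E]
  {H : Type*} [TopologicalSpace H] {I : ModelWithCorners ℝ E H} [I.Boundaryless]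
  {M : Type*} [TopologicalSpace M] [ChartedSpace H M] [IsManifold I ∞ M]

/-- smoothness of a two-form -/
def Sm2 (om : (x : M) → TangentSpace I x →L[ℝ] TangentSpace I x →L[ℝ] ℝ) : Prop :=
  ∀ x₀ : M, SmoothBilinAt I (fun x : M => x) om x₀

/-- smoothness of a time dependent two-form -/
def SmT2 (W : ℝ → (x : M) → TangentSpace I x →L[ℝ] TangentSpace I x →L[ℝ] ℝ) : Prop :=
  ∀ p₀ : ℝ × M, SmoothBilinAt (𝓘(ℝ, ℝ).prod I) (fun p : ℝ × M => p.2) (fun p => W p.1 p.2) p₀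

/-- smoothness of a time dependent one-form -/
def SmT1 (A : ℝ → (x : M) → TangentSpace I x →L[ℝ] ℝ) : Prop :=
  ∀ p₀ : ℝ × M, SmoothLinAt (𝓘(ℝ, ℝ).prod I) (fun p : ℝ × M => p.2) (fun p => A p.1 p.2) p₀

section push

variable {P : Type*} [NormedAddCommGroup P] [NormedSpace ℝ P] {S : P → M} {U : Set P}

lemma contMDiffAt_push (hU : IsOpen U) (hS : ContMDiffOn 𝓘(ℝ, P) I ∞ S U) {p : P} (hp : p ∈ U)
    (c : P) : ContMDiffAt 𝓘(ℝ, P) I.tangent ∞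
      (fun q => (⟨S q, mfderiv 𝓘(ℝ, P) I S q c⟩ : TangentBundle I M)) p :=
  (contMDiffAt_tangentMap hU hS (v := (⟨p, c⟩ : TangentBundle 𝓘(ℝ, P) P)) hp).comp p
    (contMDiff_constSection c p)

lemma SmT2.push {W : ℝ → (x : M) → TangentSpace I x →L[ℝ] TangentSpace I x →L[ℝ] ℝ}
    (hW : SmT2 W) (hU : IsOpen U) (hS : ContMDiffOn 𝓘(ℝ, P) I ∞ S U) {τ : P → ℝ}
    (hτ : ContDiffOn ℝ ∞ τ U) {p : P} (hp : p ∈ U) (b c : P) :
    ContDiffAt ℝ ∞ (fun q => W (τ q) (S q) (mfderiv 𝓘(ℝ, P) I S q b)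
      (mfderiv 𝓘(ℝ, P) I S q c)) p := by
  rw [← contMDiffAt_iff_contDiffAt]
  have h1 : ContMDiffAt 𝓘(ℝ, P) (𝓘(ℝ, ℝ).prod I) ∞ (fun q => (τ q, S q)) p :=
    ((hτ.contDiffAt (hU.mem_nhds hp)).contMDiffAt).prodMk (hS.contMDiffAt (hU.mem_nhds hp))
  exact SmoothBilinAt.comp (g := fun q => (τ q, S q)) (f := fun p : ℝ × M => p.2)
    contMDiffAt_snd (hW (τ p, S p)) h1 _ _ (contMDiffAt_push hU hS hp b)
    (contMDiffAt_push hU hS hp c)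

lemma SmT1.push {A : ℝ → (x : M) → TangentSpace I x →L[ℝ] ℝ}
    (hA : SmT1 A) (hU : IsOpen U) (hS : ContMDiffOn 𝓘(ℝ, P) I ∞ S U) {τ : P → ℝ}
    (hτ : ContDiffOn ℝ ∞ τ U) {p : P} (hp : p ∈ U) (b : P) :
    ContDiffAt ℝ ∞ (fun q => A (τ q) (S q) (mfderiv 𝓘(ℝ, P) I S q b)) p := by
  rw [← contMDiffAt_iff_contDiffAt]
  have h1 : ContMDiffAt 𝓘(ℝ, P) (𝓘(ℝ, ℝ).prod I) ∞ (fun q => (τ q, S q)) p :=
    ((hτ.contDiffAt (hU.mem_nhds hp)).contMDiffAt).prodMk (hS.contMDiffAt (hU.mem_nhds hp))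
  exact SmoothLinAt.comp (g := fun q => (τ q, S q)) (f := fun p : ℝ × M => p.2)
    contMDiffAt_snd (hA (τ p, S p)) h1 _ (contMDiffAt_push hU hS hp b)

end push

/-- The function `W (S_* b, S_* c)` on the parameter space `ℝ × E`. -/
def KK (W : ℝ → (x : M) → TangentSpace I x →L[ℝ] TangentSpace I x →L[ℝ] ℝ) (S : ℝ × E → M)
    (b c : ℝ × E) (q : ℝ × E) : ℝ :=
  W q.1 (S q) (mfderiv 𝓘(ℝ, ℝ × E) I S q b) (mfderiv 𝓘(ℝ, ℝ × E) I S q c)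

/-- The function `A (S_* b)` on the parameter space `ℝ × E`. -/
def LL (A : ℝ → (x : M) → TangentSpace I x →L[ℝ] ℝ) (S : ℝ × E → M)
    (b : ℝ × E) (q : ℝ × E) : ℝ :=
  A q.1 (S q) (mfderiv 𝓘(ℝ, ℝ × E) I S q b)

lemma SmT2.kk {W : ℝ → (x : M) → TangentSpace I x →L[ℝ] TangentSpace I x →L[ℝ] ℝ}
    (hW : SmT2 W) {S : ℝ × E → M} {U : Set (ℝ × E)} (hU : IsOpen U)
    (hS : ContMDiffOn 𝓘(ℝ, ℝ × E) I ∞ S U) {p : ℝ × E} (hp : p ∈ U) (b c : ℝ × E) :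
    ContDiffAt ℝ ∞ (KK W S b c) p :=
  hW.push hU hS (τ := Prod.fst) contDiff_fst.contDiffOn hp b c

lemma SmT1.ll {A : ℝ → (x : M) → TangentSpace I x →L[ℝ] ℝ}
    (hA : SmT1 A) {S : ℝ × E → M} {U : Set (ℝ × E)} (hU : IsOpen U)
    (hS : ContMDiffOn 𝓘(ℝ, ℝ × E) I ∞ S U) {p : ℝ × E} (hp : p ∈ U) (b : ℝ × E) :
    ContDiffAt ℝ ∞ (LL A S b) p :=
  hA.push hU hS (τ := Prod.fst) contDiff_fst.contDiffOn hp b

/-- The time derivative of the closed two-form `W` is `dA`, in the form of Cartan's formula for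
families of maps. -/
def Cartan (W : ℝ → (x : M) → TangentSpace I x →L[ℝ] TangentSpace I x →L[ℝ] ℝ)
    (A : ℝ → (x : M) → TangentSpace I x →L[ℝ] ℝ) : Prop :=
  ∀ (U : Set (ℝ × E)) (S : ℝ × E → M), IsOpen U → ContMDiffOn 𝓘(ℝ, ℝ × E) I ∞ S U →
    ∀ p ∈ U, ∀ a b : E,
      fderiv ℝ (KK W S (0, a) (0, b)) p (1, 0) =
        fderiv ℝ (fun q => KK W S (1, 0) (0, b) q + LL A S (0, b) q) p (0, a) -
        fderiv ℝ (fun q => KK W S (1, 0) (0, a) q + LL A S (0, a) q) p (0, b)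

/-- closed two-forms, tested on families of maps -/
def ClosedP (om : (x : M) → TangentSpace I x →L[ℝ] TangentSpace I x →L[ℝ] ℝ) : Prop :=
  ∀ (P : Type u) [NormedAddCommGroup P] [NormedSpace ℝ P] (U : Set P) (S : P → M), IsOpen U →
    ContMDiffOn 𝓘(ℝ, P) I ∞ S U → ∀ p ∈ U, ∀ a b c : P,
      fderiv ℝ (fun q => om (S q) (mfderiv 𝓘(ℝ, P) I S q b) (mfderiv 𝓘(ℝ, P) I S q c)) p a +
      fderiv ℝ (fun q => om (S q) (mfderiv 𝓘(ℝ, P) I S q c) (mfderiv 𝓘(ℝ, P) I S q a)) p b +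
      fderiv ℝ (fun q => om (S q) (mfderiv 𝓘(ℝ, P) I S q a) (mfderiv 𝓘(ℝ, P) I S q b)) p c = 0

end Pool.Agent.Helper500_SM
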