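import Mathlib
import Pool.Agent.Helper500_SM.Cartan

/-! Building blocks: closed forms, pull backs by families of maps, exact forms. -/

open scoped Topology ContDiff Manifold
open Set Metric Bundle

noncomputable section

namespace Pool.Agent.Helper500_SM

open Pool.Agent.Helper186

set_option linter.unusedSectionVars false

universe u

variable {E : Type u} [NormedAddCommGroup E] [NormedSpace ℝ E] [FiniteDimensional ℝ E]
  {H : Type*} [TopologicalSpace H] {I : ModelWithCorners ℝ E H} [I.Boundaryless]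
  {M : Type*} [TopologicalSpace M] [ChartedSpace H M] [IsManifold I ∞ M]

/-! ### sums and multiples -/

lemma SmT2.add {W W' : ℝ → (x : M) → TangentSpace I x →L[ℝ] TangentSpace I x →L[ℝ] ℝ}
    (h : SmT2 W) (h' : SmT2 W') : SmT2 (fun s x => W s x + W' s x) :=
  fun p₀ => SmoothBilinAt.add (h p₀) (h' p₀)

lemma SmT1.add {A A' : ℝ → (x : M) → TangentSpace I x →L[ℝ] ℝ}
    (h : SmT1 A) (h' : SmT1 A') : SmT1 (fun s x => A s x + A' s x) :=
  fun p₀ => SmoothLinAt.add (h p₀) (h' p₀)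

lemma SmT2.const_smul {W : ℝ → (x : M) → TangentSpace I x →L[ℝ] TangentSpace I x →L[ℝ] ℝ}
    (h : SmT2 W) (c : ℝ) : SmT2 (fun s x => c • W s x) :=
  fun p₀ => SmoothBilinAt.smul contMDiffAt_const (h p₀)

lemma SmT1.const_smul {A : ℝ → (x : M) → TangentSpace I x →L[ℝ] ℝ}
    (h : SmT1 A) (c : ℝ) : SmT1 (fun s x => c • A s x) :=
  fun p₀ => SmoothLinAt.smul contMDiffAt_const (h p₀)

lemma Cartan.add {W W' : ℝ → (x : M) → TangentSpace I x →L[ℝ] TangentSpace I x →L[ℝ] ℝ}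
    {A A' : ℝ → (x : M) → TangentSpace I x →L[ℝ] ℝ} (h : Cartan W A) (h' : Cartan W' A')
    (hW : SmT2 W) (hW' : SmT2 W') (hA : SmT1 A) (hA' : SmT1 A') :
    Cartan (fun s x => W s x + W' s x) (fun s x => A s x + A' s x) := by
  intro U S hU hS p hp a b
  have d1 : ∀ b c : ℝ × E, DifferentiableAt ℝ (KK W S b c) p := fun b c =>
    (hW.kk hU hS hp b c).differentiableAt (by simp)
  have d2 : ∀ b c : ℝ × E, DifferentiableAt ℝ (KK W' S b c) p := fun b c =>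
    (hW'.kk hU hS hp b c).differentiableAt (by simp)
  have e1 : ∀ b : ℝ × E, DifferentiableAt ℝ (LL A S b) p := fun b =>
    (hA.ll hU hS hp b).differentiableAt (by simp)
  have e2 : ∀ b : ℝ × E, DifferentiableAt ℝ (LL A' S b) p := fun b =>
    (hA'.ll hU hS hp b).differentiableAt (by simp)
  have f1 := h U S hU hS p hp a b
  have f2 := h' U S hU hS p hp a b
  have k1 : ∀ b c : ℝ × E, fderiv ℝ (KK (fun s x => W s x + W' s x) S b c) p =
      fderiv ℝ (KK W S b c) p + fderiv ℝ (KK W' S b c) p := fun b c =>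
    HasFDerivAt.fderiv ((d1 b c).hasFDerivAt.add (d2 b c).hasFDerivAt)
  have k2 : ∀ b : ℝ × E, fderiv ℝ (fun q => KK (fun s x => W s x + W' s x) S (1, 0) b q +
      LL (fun s x => A s x + A' s x) S b q) p =
      (fderiv ℝ (KK W S (1, 0) b) p + fderiv ℝ (KK W' S (1, 0) b) p) +
      (fderiv ℝ (LL A S b) p + fderiv ℝ (LL A' S b) p) := fun b =>
    HasFDerivAt.fderiv (((d1 (1, 0) b).hasFDerivAt.add (d2 (1, 0) b).hasFDerivAt).add
      ((e1 b).hasFDerivAt.add (e2 b).hasFDerivAt))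
  rw [fderiv_fun_add (d1 _ _) (e1 _), fderiv_fun_add (d1 _ _) (e1 _)] at f1
  rw [fderiv_fun_add (d2 _ _) (e2 _), fderiv_fun_add (d2 _ _) (e2 _)] at f2
  rw [k1, k2, k2]
  simp only [add_apply] at f1 f2 ⊢
  linarith

lemma Cartan.const_smul {W : ℝ → (x : M) → TangentSpace I x →L[ℝ] TangentSpace I x →L[ℝ] ℝ}
    {A : ℝ → (x : M) → TangentSpace I x →L[ℝ] ℝ} (h : Cartan W A)
    (hW : SmT2 W) (hA : SmT1 A) (c : ℝ) :
    Cartan (fun s x => c • W s x) (fun s x => c • A s x) := by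
  intro U S hU hS p hp a b
  have d1 : ∀ b c : ℝ × E, DifferentiableAt ℝ (KK W S b c) p := fun b c =>
    (hW.kk hU hS hp b c).differentiableAt (by simp)
  have e1 : ∀ b : ℝ × E, DifferentiableAt ℝ (LL A S b) p := fun b =>
    (hA.ll hU hS hp b).differentiableAt (by simp)
  have f1 := h U S hU hS p hp a b
  have k1 : ∀ b b' : ℝ × E, fderiv ℝ (KK (fun s x => c • W s x) S b b') p =
      c • fderiv ℝ (KK W S b b') p := fun b b' =>
    HasFDerivAt.fderiv ((d1 b b').hasFDerivAt.const_mul c)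
  have k2 : ∀ b : ℝ × E, fderiv ℝ (fun q => KK (fun s x => c • W s x) S (1, 0) b q +
      LL (fun s x => c • A s x) S b q) p =
      c • fderiv ℝ (KK W S (1, 0) b) p + c • fderiv ℝ (LL A S b) p := fun b =>
    HasFDerivAt.fderiv (((d1 (1, 0) b).hasFDerivAt.const_mul c).add
      ((e1 b).hasFDerivAt.const_mul c))
  rw [fderiv_fun_add (d1 _ _) (e1 _), fderiv_fun_add (d1 _ _) (e1 _)] at f1
  rw [k1, k2, k2]
  simp only [add_apply, smul_apply, smul_eq_mul] at f1 ⊢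
  linear_combination c * f1

/-! ### closed forms -/

lemma Sm2.const {om : (x : M) → TangentSpace I x →L[ℝ] TangentSpace I x →L[ℝ] ℝ}
    (h : Sm2 om) : SmT2 (fun _ => om) := by
  intro p₀
  exact SmoothBilinAt.comp (f := fun x : M => x) (g := fun p : ℝ × M => p.2)
    contMDiffAt_id (h p₀.2) contMDiffAt_snd

lemma SmT1.zero : SmT1 (fun (_ : ℝ) (x : M) => (0 : TangentSpace I x →L[ℝ] ℝ)) :=
  fun _ _ _ => contMDiffAt_const

lemma cartan_const {om : (x : M) → TangentSpace I x →L[ℝ] TangentSpace I x →L[ℝ] ℝ}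
    (hc : ClosedP om) (halt : ∀ x v w, om x v w = - om x w v) :
    Cartan (fun _ => om) (fun _ _ => 0) := by
  intro U S hU hS p hp a b
  have h := hc (ℝ × E) U S hU hS p hp (1, 0) (0, a) (0, b)
  have k1 : ∀ b : ℝ × E, (fun q => KK (fun _ => om) S (1, 0) b q +
      LL (fun _ x => (0 : TangentSpace I x →L[ℝ] ℝ)) S b q) = fun q => om (S q)
        (mfderiv 𝓘(ℝ, ℝ × E) I S q ((1 : ℝ), (0 : E))) (mfderiv 𝓘(ℝ, ℝ × E) I S q b) := by
    intro b
    funext q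
    exact add_zero _
  have k2 : (fun q => om (S q) (mfderiv 𝓘(ℝ, ℝ × E) I S q ((0 : ℝ), b))
      (mfderiv 𝓘(ℝ, ℝ × E) I S q ((1 : ℝ), (0 : E)))) = fun q => - (om (S q)
      (mfderiv 𝓘(ℝ, ℝ × E) I S q ((1 : ℝ), (0 : E)))
      (mfderiv 𝓘(ℝ, ℝ × E) I S q ((0 : ℝ), b))) := by
    funext q
    exact halt _ _ _
  rw [k1, k1]
  rw [k2, fderiv_fun_neg] at h
  have k3 : KK (fun _ => om) S (0, a) (0, b) = fun q => om (S q)
      (mfderiv 𝓘(ℝ, ℝ × E) I S q ((0 : ℝ), a)) (mfderiv 𝓘(ℝ, ℝ × E) I S q ((0 : ℝ), b)) := rfl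
  rw [k3]
  simp only [neg_apply] at h
  linarith

/-! ### families of maps -/

/-- the derivative of a family of maps in the space direction, as a linear map -/
def DX (phi : ℝ × M → M) (s : ℝ) (x : M) : TangentSpace I x →L[ℝ] TangentSpace I (phi (s, x)) :=
  mfderiv I I (fun x' => phi (s, x')) x

/-- Pull back of a bilinear form by a linear map. -/
def pullE {F G : Type*} [NormedAddCommGroup F] [NormedSpace ℝ F] [NormedAddCommGroup G]
    [NormedSpace ℝ G] (B : F →L[ℝ] F →L[ℝ] ℝ) (D : G →L[ℝ] F) : G →L[ℝ] G →L[ℝ] ℝ :=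
  B.bilinearComp D D

/-- The pull back of a two-form by a family of maps. -/
def pullT (om : (x : M) → TangentSpace I x →L[ℝ] TangentSpace I x →L[ℝ] ℝ) (phi : ℝ × M → M)
    (s : ℝ) (x : M) : TangentSpace I x →L[ℝ] TangentSpace I x →L[ℝ] ℝ :=
  pullE (F := E) (G := E) (om (phi (s, x))) (DX (I := I) phi s x)

/-- The contraction of the two-form with the velocity of the family. -/
def contrT (om : (x : M) → TangentSpace I x →L[ℝ] TangentSpace I x →L[ℝ] ℝ) (phi : ℝ × M → M)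
    (s : ℝ) (x : M) : TangentSpace I x →L[ℝ] ℝ :=
  (om (phi (s, x)) (dS I phi s x)).comp (DX phi s x)

lemma pullT_apply (om : (x : M) → TangentSpace I x →L[ℝ] TangentSpace I x →L[ℝ] ℝ)
    (phi : ℝ × M → M) (s : ℝ) (x : M) (u v : TangentSpace I x) :
    pullT om phi s x u v = om (phi (s, x)) (DX phi s x u) (DX phi s x v) := rfl

lemma contrT_apply (om : (x : M) → TangentSpace I x →L[ℝ] TangentSpace I x →L[ℝ] ℝ)
    (phi : ℝ × M → M) (s : ℝ) (x : M) (v : TangentSpace I x) :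
    contrT om phi s x v = om (phi (s, x)) (dS I phi s x) (DX phi s x v) := rfl

lemma push_family {phi : ℝ × M → M} (hphi : ContMDiff (𝓘(ℝ, ℝ).prod I) I ∞ phi)
    {S : ℝ × E → M} {p : ℝ × E} (hS : MDifferentiableAt 𝓘(ℝ, ℝ × E) I S p) (c : ℝ × E) :
    mfderiv 𝓘(ℝ, ℝ × E) I (fun q => phi (q.1, S q)) p c =
      c.1 • dS I phi p.1 (S p) + DX phi p.1 (S p) (mfderiv 𝓘(ℝ, ℝ × E) I S p c) := by
  have h1 : HasMFDerivAt 𝓘(ℝ, ℝ × E) 𝓘(ℝ, ℝ) (fun q : ℝ × E => q.1) p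
      (ContinuousLinearMap.fst ℝ ℝ E) := hasFDerivAt_fst.hasMFDerivAt
  have h2 := h1.prodMk hS.hasMFDerivAt
  have h3 : MDifferentiableAt (𝓘(ℝ, ℝ).prod I) I phi (p.1, S p) :=
    hphi.mdifferentiableAt (by simp)
  have h4 := (HasMFDerivAt.comp p h3.hasMFDerivAt h2).mfderiv
  have h5 : (phi ∘ fun q : ℝ × E => (q.1, S q)) = fun q => phi (q.1, S q) := rfl
  rw [h5] at h4
  rw [h4]
  refine (mfderiv_prod_eq_add_apply h3).trans ?_
  have h6 : mfderiv 𝓘(ℝ, ℝ) I (fun z : ℝ => phi (z, S p)) p.1 (c.1 : ℝ) =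
      c.1 • mfderiv 𝓘(ℝ, ℝ) I (fun z : ℝ => phi (z, S p)) p.1 (1 : ℝ) := by
    have h7 := (mfderiv 𝓘(ℝ, ℝ) I (fun z : ℝ => phi (z, S p)) p.1).map_smul c.1 (1 : ℝ)
    refine Eq.trans ?_ h7
    exact congrArg (mfderiv 𝓘(ℝ, ℝ) I (fun z : ℝ => phi (z, S p)) p.1) (mul_one c.1).symm
  exact congrArg₂ (· + ·) h6 rfl

lemma contMDiff_pair {phi : ℝ × M → M} (hphi : ContMDiff (𝓘(ℝ, ℝ).prod I) I ∞ phi)
    {S : ℝ × E → M} {U : Set (ℝ × E)} (hS : ContMDiffOn 𝓘(ℝ, ℝ × E) I ∞ S U) :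
    ContMDiffOn 𝓘(ℝ, ℝ × E) I ∞ (fun q => phi (q.1, S q)) U :=
  hphi.comp_contMDiffOn (contDiff_fst.contMDiff.contMDiffOn.prodMk hS)

lemma cartan_pull {om : (x : M) → TangentSpace I x →L[ℝ] TangentSpace I x →L[ℝ] ℝ}
    (hc : Cartan (fun _ => om) (fun _ _ => 0)) {phi : ℝ × M → M}
    (hphi : ContMDiff (𝓘(ℝ, ℝ).prod I) I ∞ phi) :
    Cartan (pullT om phi) (contrT om phi) := by
  intro U S hU hS p hp a b
  have h := hc U (fun q => phi (q.1, S q)) hU (contMDiff_pair hphi hS) p hp a b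
  have hSq : ∀ q ∈ U, MDifferentiableAt 𝓘(ℝ, ℝ × E) I S q := fun q hq =>
    (hS.contMDiffAt (hU.mem_nhds hq)).mdifferentiableAt (by simp)
  have hs0 : ∀ q ∈ U, ∀ a : E, mfderiv 𝓘(ℝ, ℝ × E) I (fun q => phi (q.1, S q)) q ((0 : ℝ), a) =
      DX phi q.1 (S q) (mfderiv 𝓘(ℝ, ℝ × E) I S q ((0 : ℝ), a)) := by
    intro q hq a
    rw [push_family hphi (hSq q hq)]
    simp
  have hs1 : ∀ q ∈ U, mfderiv 𝓘(ℝ, ℝ × E) I (fun q => phi (q.1, S q)) q ((1 : ℝ), (0 : E)) =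
      dS I phi q.1 (S q) + DX phi q.1 (S q) (mfderiv 𝓘(ℝ, ℝ × E) I S q ((1 : ℝ), (0 : E))) := by
    intro q hq
    rw [push_family hphi (hSq q hq)]
    simp
  have k1 : KK (fun _ => om) (fun q => phi (q.1, S q)) (0, a) (0, b) =ᶠ[𝓝 p]
      KK (pullT om phi) S (0, a) (0, b) := by
    filter_upwards [hU.mem_nhds hp] with q hq
    show om _ _ _ = _
    rw [hs0 q hq a, hs0 q hq b]
    rfl
  have k2 : ∀ b : E, (fun q => KK (fun _ => om) (fun q => phi (q.1, S q)) (1, 0) (0, b) q +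
      LL (fun _ x => (0 : TangentSpace I x →L[ℝ] ℝ)) (fun q => phi (q.1, S q)) (0, b) q) =ᶠ[𝓝 p]
      fun q => KK (pullT om phi) S (1, 0) (0, b) q + LL (contrT om phi) S (0, b) q := by
    intro b
    filter_upwards [hU.mem_nhds hp] with q hq
    show om _ _ _ + 0 = _
    rw [hs0 q hq b, hs1 q hq, map_add, add_apply, add_zero, add_comm]
    rfl
  rw [← k1.fderiv_eq, h, (k2 a).fderiv_eq, (k2 b).fderiv_eq]

end Pool.Agent.Helper500_SM
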