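import Mathlib
import Pool.Agent.Helper500_SM.Blocks

/-! Smoothness of the building blocks, and exact forms. -/

open scoped Topology ContDiff Manifold
open Set Metric Bundle

noncomputable section

namespace Pool.Agent.Helper500_SM

open Pool.Agent.Helper186

set_option linter.unusedSectionVars false

universe u

variable {E : Type u} [NormedAddCommGroup E] [NormedSpace ℝ E] [FiniteDimensional ℝ E]
  {H : Type*} [TopologicalSpace H] {I : ModelWithCorners ℝ E H} [I.Boundaryless]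
  {M : Type*} [TopologicalSpace M] [ChartedSpace H M] [IsManifold I ∞ M]

lemma contMDiffAt_DX {phi : ℝ × M → M} (hphi : ContMDiff (𝓘(ℝ, ℝ).prod I) I ∞ phi)
    {p₀ : ℝ × M} {v : (p : ℝ × M) → TangentSpace I p.2}
    (hv : ContMDiffAt (𝓘(ℝ, ℝ).prod I) I.tangent ∞
      (fun p : ℝ × M => (⟨p.2, v p⟩ : TangentBundle I M)) p₀) :
    ContMDiffAt (𝓘(ℝ, ℝ).prod I) I.tangent ∞
      (fun p : ℝ × M => (⟨phi p, DX phi p.1 p.2 (v p)⟩ : TangentBundle I M)) p₀ := by
  have h1 : ContMDiff (𝓘(ℝ, ℝ).prod I).tangent I.tangent ∞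
      (tangentMap (𝓘(ℝ, ℝ).prod I) I phi) := hphi.contMDiff_tangentMap (by simp)
  have h2 := (h1 _).comp p₀ (contMDiffAt_vertical hv)
  refine h2.congr_of_eventuallyEq (Filter.Eventually.of_forall fun p => ?_)
  have h5 := mfderiv_space (I := I) (J := I) (i := phi) (p := p)
    (hphi.mdifferentiableAt (by simp)) (v p)
  simp only [Function.comp, tangentMap]
  rw [h5]
  rfl

lemma SmT2.pullT {om : (x : M) → TangentSpace I x →L[ℝ] TangentSpace I x →L[ℝ] ℝ}
    (hom : Sm2 om) {phi : ℝ × M → M} (hphi : ContMDiff (𝓘(ℝ, ℝ).prod I) I ∞ phi) :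
    SmT2 (pullT om phi) := by
  intro p₀ u v hu hv
  exact SmoothBilinAt.comp (f := fun x : M => x) (g := phi) contMDiffAt_id (hom (phi p₀))
    (hphi p₀) _ _ (contMDiffAt_DX hphi hu) (contMDiffAt_DX hphi hv)

lemma SmT1.contrT {om : (x : M) → TangentSpace I x →L[ℝ] TangentSpace I x →L[ℝ] ℝ}
    (hom : Sm2 om) {phi : ℝ × M → M} (hphi : ContMDiff (𝓘(ℝ, ℝ).prod I) I ∞ phi) :
    SmT1 (contrT om phi) := by
  intro p₀ v hv
  exact SmoothBilinAt.comp (f := fun x : M => x) (g := phi) contMDiffAt_id (hom (phi p₀))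
    (hphi p₀) _ _ (contMDiffAt_dS isOpen_univ hphi.contMDiffOn (mem_univ p₀))
    (contMDiffAt_DX hphi hv)

lemma sm2_extDerL {γ : (x : M) → TangentSpace I x →L[ℝ] ℝ} (hγ : SmoothForm γ) :
    Sm2 (extDerL I γ) := fun x₀ =>
  smoothBilinAt_extDer (f := fun x : M => x) hγ (contMDiffAt_id (x := x₀))

lemma smT2_extDerL {γ : (x : M) → TangentSpace I x →L[ℝ] ℝ} (hγ : SmoothForm γ) {a : ℝ → ℝ}
    (ha : ContDiff ℝ ∞ a) : SmT2 (fun s x => a s • extDerL I γ x) := by
  intro p₀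
  refine SmoothBilinAt.smul ?_ ((sm2_extDerL hγ).const p₀)
  exact (ha.contMDiff _).comp p₀ contMDiffAt_fst

lemma smT1_smul {γ : (x : M) → TangentSpace I x →L[ℝ] ℝ} (hγ : SmoothForm γ) {a : ℝ → ℝ}
    (ha : ContDiff ℝ ∞ a) : SmT1 (fun s x => a s • γ x) := by
  intro p₀
  refine SmoothLinAt.smul ?_ (SmoothForm.linAt hγ _ p₀)
  exact (ha.contMDiff _).comp p₀ contMDiffAt_fst

lemma cartan_exact {γ : (x : M) → TangentSpace I x →L[ℝ] ℝ} (hγ : SmoothForm γ) {a : ℝ → ℝ}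
    (ha : ContDiff ℝ ∞ a) :
    Cartan (fun s x => a s • extDerL I γ x) (fun s x => deriv a s • γ x) := by
  intro U S hU hS p hp b c
  set G : ℝ × E → ℝ × E → ℝ := fun c q => γ (S q) (mfderiv 𝓘(ℝ, ℝ × E) I S q c) with hG
  have hGs : ∀ c, ∀ q ∈ U, ContDiffAt ℝ ∞ (G c) q := by
    intro c q hq
    rw [← contMDiffAt_iff_contDiffAt]
    exact ContMDiffAt.comp (x := q) (g := fun v : TangentBundle I M => γ v.1 v.2)
      (f := fun q => (⟨S q, mfderiv 𝓘(ℝ, ℝ × E) I S q c⟩ : TangentBundle I M)) (hγ _)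
      (contMDiffAt_push hU hS hq c)
  have hKK : ∀ c d, KK (fun s x => a s • extDerL I γ x) S c d =ᶠ[𝓝 p]
      fun q => a q.1 * (fderiv ℝ (G d) q c - fderiv ℝ (G c) q d) := by
    intro c d
    filter_upwards [hU.mem_nhds hp] with q hq
    show a q.1 * extDer I γ (S q) _ _ = _
    rw [extDer_pullback hγ hU hS hq c d]
  have hap : HasFDerivAt (fun q : ℝ × E => a q.1)
      ((deriv a p.1) • (ContinuousLinearMap.fst ℝ ℝ E)) p := by
    have h1 : HasDerivAt a (deriv a p.1) p.1 := (ha.differentiable (by simp) _).hasDerivAt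
    exact h1.comp_hasFDerivAt p hasFDerivAt_fst
  have hdap : HasFDerivAt (fun q : ℝ × E => deriv a q.1)
      ((deriv (deriv a) p.1) • (ContinuousLinearMap.fst ℝ ℝ E)) p := by
    have h0 : ContDiff ℝ ∞ (deriv a) := (contDiff_infty_iff_deriv.1 ha).2
    have h1 : HasDerivAt (deriv a) (deriv (deriv a) p.1) p.1 :=
      (h0.differentiable (by simp) _).hasDerivAt
    exact h1.comp_hasFDerivAt p hasFDerivAt_fst
  have hG1 : ∀ c, HasFDerivAt (G c) (fderiv ℝ (G c) p) p := fun c =>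
    ((hGs c p hp).differentiableAt (by simp)).hasFDerivAt
  have hG2 : ∀ c d, HasFDerivAt (fun q => fderiv ℝ (G d) q c)
      ((ContinuousLinearMap.apply ℝ ℝ c).comp (fderiv ℝ (fderiv ℝ (G d)) p)) p := by
    intro c d
    have h2 : HasFDerivAt (fderiv ℝ (G d)) (fderiv ℝ (fderiv ℝ (G d)) p) p :=
      (((hGs d p hp).fderiv_right (m := ∞) (by simp)).differentiableAt (by simp)).hasFDerivAt
    exact (ContinuousLinearMap.apply ℝ ℝ c).hasFDerivAt.comp p h2
  have hsym : ∀ d v w, fderiv ℝ (fderiv ℝ (G d)) p v w = fderiv ℝ (fderiv ℝ (G d)) p w v := by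
    intro d v w
    have := (hGs d p hp).isSymmSndFDerivAt (by
      simp only [minSmoothness_of_isRCLikeNormedField]; exact ENat.LEInfty.out)
    exact this v w
  have hkk : ∀ c d v, fderiv ℝ (fun q : ℝ × E =>
      a q.1 * (fderiv ℝ (G d) q c - fderiv ℝ (G c) q d)) p v =
      a p.1 * (fderiv ℝ (fderiv ℝ (G d)) p v c - fderiv ℝ (fderiv ℝ (G c)) p v d) +
      (fderiv ℝ (G d) p c - fderiv ℝ (G c) p d) * (deriv a p.1 * v.1) := by
    intro c d v
    have h1 := hap.mul ((hG2 c d).sub (hG2 d c))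
    refine (congrArg (fun L : ℝ × E →L[ℝ] ℝ => L v) h1.fderiv).trans ?_
    simp [mul_comm]
  have hll : ∀ c d v, fderiv ℝ (fun q : ℝ × E =>
      a q.1 * (fderiv ℝ (G d) q c - fderiv ℝ (G c) q d) + deriv a q.1 * G d q) p v =
      a p.1 * (fderiv ℝ (fderiv ℝ (G d)) p v c - fderiv ℝ (fderiv ℝ (G c)) p v d) +
      (fderiv ℝ (G d) p c - fderiv ℝ (G c) p d) * (deriv a p.1 * v.1) +
      (deriv a p.1 * fderiv ℝ (G d) p v + G d p * (deriv (deriv a) p.1 * v.1)) := by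
    intro c d v
    have h1 := (hap.mul ((hG2 c d).sub (hG2 d c))).add (hdap.mul (hG1 d))
    refine (congrArg (fun L : ℝ × E →L[ℝ] ℝ => L v) h1.fderiv).trans ?_
    simp [mul_comm]
  have e1 : ∀ c, (fun q => KK (fun s x => a s • extDerL I γ x) S (1, 0) c q +
      LL (fun s x => deriv a s • γ x) S c q) =ᶠ[𝓝 p] fun q : ℝ × E =>
      a q.1 * (fderiv ℝ (G c) q (1, 0) - fderiv ℝ (G (1, 0)) q c) + deriv a q.1 * G c q := by
    intro c
    filter_upwards [hKK (1, 0) c] with q hq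
    rw [hq]
    rfl
  rw [(hKK _ _).fderiv_eq, (e1 _).fderiv_eq, (e1 _).fderiv_eq, hkk, hll, hll]
  simp only
  rw [hsym (0, c) (1, 0) (0, b), hsym (0, b) (0, c) (1, 0), hsym (1, 0) (0, c) (0, b)]
  ring

end Pool.Agent.Helper500_SM
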