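import Mathlib
import Pool.Agent.Helper500_SM.Blocks2

/-! Moser's method with a parameter. -/

open scoped Topology ContDiff Manifold
open Set Metric Bundle

noncomputable section

namespace Pool.Agent.Helper500_SM

open Pool.Agent.Helper186

set_option linter.unusedSectionVars false

universe u

variable {E : Type u} [NormedAddCommGroup E] [NormedSpace ℝ E] [FiniteDimensional ℝ E]
  {H : Type*} [TopologicalSpace H] {I : ModelWithCorners ℝ E H} [I.Boundaryless]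
  {M : Type*} [TopologicalSpace M] [ChartedSpace H M] [IsManifold I ∞ M]

lemma push_chart {i : ℝ × M → M} (hi : ContMDiff (𝓘(ℝ, ℝ).prod I) I ∞ i) (x₀ : M) {q : ℝ × E}
    (hq : q.2 ∈ (extChartAt I x₀).target) (c : ℝ × E) :
    mfderiv 𝓘(ℝ, ℝ × E) I (fun q : ℝ × E => i (q.1, (extChartAt I x₀).symm q.2)) q c =
      c.1 • dS I i q.1 ((extChartAt I x₀).symm q.2) + DX i q.1 ((extChartAt I x₀).symm q.2)
        (mfderiv 𝓘(ℝ, E) I (extChartAt I x₀).symm q.2 c.2) := by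
  have h1 : MDifferentiableAt 𝓘(ℝ, E) I (extChartAt I x₀).symm q.2 :=
    ((contMDiffOn_extChartAt_symm (n := ∞) x₀).contMDiffAt
      ((isOpen_extChartAt_target x₀).mem_nhds hq)).mdifferentiableAt (by simp)
  have h2 : HasMFDerivAt 𝓘(ℝ, ℝ × E) 𝓘(ℝ, E) (fun q : ℝ × E => q.2) q
      (ContinuousLinearMap.snd ℝ ℝ E) := hasFDerivAt_snd.hasMFDerivAt
  have h3 := HasMFDerivAt.comp q h1.hasMFDerivAt h2
  have h4 := push_family hi (S := fun q : ℝ × E => (extChartAt I x₀).symm q.2) (p := q)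
    h3.mdifferentiableAt c
  rw [h4]
  have h5 := DFunLike.congr_fun h3.mfderiv c
  exact congrArg (fun w => c.1 • dS I i q.1 ((extChartAt I x₀).symm q.2) +
    DX i q.1 ((extChartAt I x₀).symm q.2) w) h5

lemma contMDiffOn_chartFamily {i : ℝ × M → M} (hi : ContMDiff (𝓘(ℝ, ℝ).prod I) I ∞ i) (x₀ : M) :
    ContMDiffOn 𝓘(ℝ, ℝ × E) I ∞ (fun q : ℝ × E => i (q.1, (extChartAt I x₀).symm q.2))
      (univ ×ˢ (extChartAt I x₀).target) := by
  apply contMDiff_pair hi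
  exact (contMDiffOn_extChartAt_symm x₀).comp contDiff_snd.contMDiff.contMDiffOn
    (fun q hq => hq.2)

/-- The pull back of `W` is constant. -/
theorem pull_const {W : ℝ → (x : M) → TangentSpace I x →L[ℝ] TangentSpace I x →L[ℝ] ℝ}
    {A : ℝ → (x : M) → TangentSpace I x →L[ℝ] ℝ} (hC : Cartan W A) (hW : SmT2 W)
    {i : ℝ × M → M} (hi : ContMDiff (𝓘(ℝ, ℝ).prod I) I ∞ i) (h0 : ∀ x, i (0, x) = x)
    (hv : ∀ s x v, W s (i (s, x)) (dS I i s x) v = - A s (i (s, x)) v)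
    (s : ℝ) (x : M) (u v : TangentSpace I x) :
    W s (i (s, x)) (DX i s x u) (DX i s x v) = W 0 x u v := by
  set ψ := extChartAt I x with hψ
  set S : ℝ × E → M := fun q => i (q.1, ψ.symm q.2) with hS
  set U : Set (ℝ × E) := univ ×ˢ ψ.target with hU
  have hUo : IsOpen U := isOpen_univ.prod (isOpen_extChartAt_target x)
  have hSs : ContMDiffOn 𝓘(ℝ, ℝ × E) I ∞ S U := contMDiffOn_chartFamily hi x
  have hy : ψ x ∈ ψ.target := mem_extChartAt_target x
  have hyx : ψ.symm (ψ x) = x := ψ.left_inv (mem_extChartAt_source x)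
  -- the contraction vanishes
  have hL : ∀ b : E, ∀ q ∈ U, KK W S (1, 0) (0, b) q + LL A S (0, b) q = 0 := by
    intro b q hq
    have e1 : mfderiv 𝓘(ℝ, ℝ × E) I S q ((1 : ℝ), (0 : E)) = dS I i q.1 (ψ.symm q.2) := by
      refine (push_chart hi x hq.2 ((1 : ℝ), (0 : E))).trans ?_
      have : mfderiv 𝓘(ℝ, E) I (extChartAt I x).symm q.2 (0 : E) = 0 := map_zero _
      refine (congrArg (fun w => (1 : ℝ) • dS I i q.1 (ψ.symm q.2) +
        DX i q.1 (ψ.symm q.2) w) this).trans ?_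
      refine (congrArg (fun w => (1 : ℝ) • dS I i q.1 (ψ.symm q.2) + w)
        (map_zero (DX i q.1 (ψ.symm q.2)))).trans ?_
      exact (add_zero _).trans (one_smul _ _)
    show W q.1 (S q) (mfderiv 𝓘(ℝ, ℝ × E) I S q ((1 : ℝ), (0 : E))) _ + A q.1 (S q) _ = 0
    rw [e1]
    have := hv q.1 (ψ.symm q.2) (mfderiv 𝓘(ℝ, ℝ × E) I S q ((0 : ℝ), b))
    change W q.1 (S q) (dS I i q.1 (ψ.symm q.2)) _ = - A q.1 (S q) _ at this
    rw [this]
    exact neg_add_cancel _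
  -- the derivative vanishes
  have hder : ∀ σ : ℝ, HasDerivAt (fun σ => KK W S (0, u) (0, v) (σ, ψ x)) 0 σ := by
    intro σ
    have hp : (σ, ψ x) ∈ U := ⟨mem_univ _, hy⟩
    have h1 := hC U S hUo hSs (σ, ψ x) hp u v
    have z : ∀ b : E, fderiv ℝ (fun q => KK W S (1, 0) (0, b) q + LL A S (0, b) q) (σ, ψ x) = 0 := by
      intro b
      have : (fun q => KK W S (1, 0) (0, b) q + LL A S (0, b) q) =ᶠ[𝓝 (σ, ψ x)] fun _ => 0 := by
        filter_upwards [hUo.mem_nhds hp] with q hq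
        exact hL b q hq
      rw [this.fderiv_eq]
      simp
    have z1 := z (v : E)
    have z2 := z (u : E)
    rw [z1, z2] at h1
    have h2 : HasFDerivAt (KK W S (0, u) (0, v)) (fderiv ℝ (KK W S (0, u) (0, v)) (σ, ψ x))
        (σ, ψ x) := ((hW.kk hUo hSs hp (0, u) (0, v)).differentiableAt (by simp)).hasFDerivAt
    have h3 := h2.comp_hasDerivAt σ ((hasFDerivAt_prodMk_left σ (ψ x)).hasDerivAt)
    refine h3.congr_deriv ?_
    have h4 : fderiv ℝ (KK W S (0, u) (0, v)) (σ, ψ x) (1, 0) = 0 := by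
      rw [h1]; simp
    simpa using h4
  have hconst := is_const_of_deriv_eq_zero (f := fun σ => KK W S (0, u) (0, v) (σ, ψ x))
    (fun σ => (hder σ).differentiableAt) (fun σ => (hder σ).deriv) s 0
  -- evaluate
  have hev : ∀ σ : ℝ, KK W S (0, u) (0, v) (σ, ψ x) =
      W σ (i (σ, x)) (DX i σ x u) (DX i σ x v) := by
    intro σ
    have e : ∀ w : E, (⟨S (σ, ψ x), mfderiv 𝓘(ℝ, ℝ × E) I S (σ, ψ x) ((0 : ℝ), w)⟩ :
        TangentBundle I M) = ⟨i (σ, x), DX i σ x w⟩ := by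
      intro w
      have e1 := push_chart hi x (q := (σ, ψ x)) hy ((0 : ℝ), w)
      have e2 : mfderiv 𝓘(ℝ, E) I (extChartAt I x).symm (ψ x) w = w :=
        mfderiv_extChartAt_symm_self x w
      have e3 : mfderiv 𝓘(ℝ, ℝ × E) I S (σ, ψ x) ((0 : ℝ), w) =
          DX i σ (ψ.symm (ψ x)) (mfderiv 𝓘(ℝ, E) I (extChartAt I x).symm (ψ x) w) := by
        refine e1.trans ?_
        simp only [zero_smul, zero_add]
        rfl
      have e4 : ∀ (x' : M) (hx' : x' = x) (w' : TangentSpace I x') (hw : (w' : E) = w),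
          (⟨i (σ, x'), DX i σ x' w'⟩ : TangentBundle I M) = ⟨i (σ, x), DX i σ x w⟩ := by
        rintro x' rfl w' rfl
        rfl
      rw [e3]
      exact e4 _ hyx _ e2
    have h5 : ∀ (a b a' b' : TangentBundle I M) (hab : a.1 = b.1) (hab' : a'.1 = b'.1), a = a' →
        b = b' → W σ a.1 a.2 (hab ▸ b.2) = W σ a'.1 a'.2 (hab' ▸ b'.2) := by
      rintro a b _ _ hab hab' rfl rfl
      rfl
    exact h5 ⟨S (σ, ψ x), mfderiv 𝓘(ℝ, ℝ × E) I S (σ, ψ x) ((0 : ℝ), (u : E))⟩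
      ⟨S (σ, ψ x), mfderiv 𝓘(ℝ, ℝ × E) I S (σ, ψ x) ((0 : ℝ), (v : E))⟩
      ⟨i (σ, x), DX i σ x u⟩ ⟨i (σ, x), DX i σ x v⟩ rfl rfl (e u) (e v)
  rw [hev, hev] at hconst
  rw [hconst]
  have e0 : ∀ w : TangentSpace I x, (⟨i (0, x), DX i 0 x w⟩ : TangentBundle I M) = ⟨x, w⟩ := by
    intro w
    have h5 : (fun x' => i (0, x')) = id := by ext x'; exact h0 x'
    have h6 : tangentMap I I (fun x' => i (0, x')) (⟨x, w⟩ : TangentBundle I M) = ⟨x, w⟩ := by
      rw [h5, tangentMap_id]; rfl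
    exact h6
  have h5 : ∀ (a b a' b' : TangentBundle I M) (hab : a.1 = b.1) (hab' : a'.1 = b'.1), a = a' →
      b = b' → W 0 a.1 a.2 (hab ▸ b.2) = W 0 a'.1 a'.2 (hab' ▸ b'.2) := by
    rintro a b _ _ hab hab' rfl rfl
    rfl
  exact h5 ⟨i (0, x), DX i 0 x u⟩ ⟨i (0, x), DX i 0 x v⟩ ⟨x, u⟩ ⟨x, v⟩ rfl rfl (e0 u) (e0 v)

end Pool.Agent.Helper500_SM
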