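import Mathlib
import Pool.Agent.Helper500_SM.PM

/-! Flows of time dependent vector fields with a parameter on a compact manifold. -/

open scoped Topology ContDiff Manifold
open Set Metric Bundle

noncomputable section

namespace Pool.Agent.Helper500_SM

open Pool.Agent.Helper186

set_option linter.unusedSectionVars false

universe u

variable {E : Type u} [NormedAddCommGroup E] [NormedSpace ℝ E] [FiniteDimensional ℝ E]
  {H : Type*} [TopologicalSpace H] {I : ModelWithCorners ℝ E H} [I.Boundaryless]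
  {M : Type*} [TopologicalSpace M] [ChartedSpace H M] [IsManifold I ∞ M]

/-- Flows with a parameter. -/
theorem exists_pflow [T2Space M] [CompactSpace M]
    {Y : (p : ℝ × (ℝ × M)) → TangentSpace I p.2.2}
    (hY : ContMDiff (𝓘(ℝ, ℝ).prod (𝓘(ℝ, ℝ).prod I)) I.tangent ∞
      (fun p : ℝ × (ℝ × M) => (⟨p.2.2, Y p⟩ : TangentBundle I M)))
    {T : ℝ} (hT : ∀ p : ℝ × (ℝ × M), T < |p.1| ∨ T < |p.2.1| → Y p = 0) :
    ∃ th be : ℝ × (ℝ × M) → M,
      ContMDiff (𝓘(ℝ, ℝ).prod (𝓘(ℝ, ℝ).prod I)) I ∞ th ∧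
      ContMDiff (𝓘(ℝ, ℝ).prod (𝓘(ℝ, ℝ).prod I)) I ∞ be ∧
      (∀ r x, th (0, (r, x)) = x) ∧ (∀ s r x, be (s, (r, th (s, (r, x)))) = x) ∧
      (∀ s r x, th (s, (r, be (s, (r, x)))) = x) ∧
      (∀ s r x, HasMFDerivAt 𝓘(ℝ, ℝ) I (fun s => th (s, (r, x))) s
        ((1 : ℝ →L[ℝ] ℝ).smulRight (Y (s, (r, th (s, (r, x))))))) := by
  -- the vector field on `ℝ × M`
  have hZ : ContMDiff (𝓘(ℝ, ℝ).prod (𝓘(ℝ, ℝ).prod I)) (𝓘(ℝ, ℝ).prod I).tangent ∞
      (fun p : ℝ × (ℝ × M) => (⟨p.2, ((0 : ℝ), (Y p : E))⟩ :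
        TangentBundle (𝓘(ℝ, ℝ).prod I) (ℝ × M))) := by
    have h1 : ContMDiff (𝓘(ℝ, ℝ).prod (𝓘(ℝ, ℝ).prod I)) 𝓘(ℝ, ℝ).tangent ∞
        (fun p : ℝ × (ℝ × M) => (⟨p.2.1, (0 : ℝ)⟩ : TangentBundle 𝓘(ℝ, ℝ) ℝ)) := by
      have h2 : ContMDiff 𝓘(ℝ, ℝ) 𝓘(ℝ, ℝ).tangent ∞
          (fun s : ℝ => (⟨s, (0 : ℝ)⟩ : TangentBundle 𝓘(ℝ, ℝ) ℝ)) :=
        contMDiff_vectorSpace_iff_contDiff.2 contDiff_const
      exact h2.comp (contMDiff_fst.comp contMDiff_snd)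
    exact (contMDiff_equivTangentBundleProd_symm (I := 𝓘(ℝ, ℝ)) (M := ℝ) (I' := I)
      (M' := M)).comp (h1.prodMk hY)
  have hK : IsCompact ((closedBall (0 : ℝ) T) ×ˢ ((closedBall (0 : ℝ) T) ×ˢ (univ : Set M))) :=
    (isCompact_closedBall _ _).prod ((isCompact_closedBall _ _).prod isCompact_univ)
  obtain ⟨R, B, hR, hB, hR0, hBR, hRB, hRd, -⟩ := exists_evolution (M := ℝ × M)
    (I := 𝓘(ℝ, ℝ).prod I) (Y := fun s q => ((0 : ℝ), (Y (s, q) : E))) hZ hK (by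
      intro p hp
      have : T < |p.1| ∨ T < |p.2.1| := by
        by_contra h
        push Not at h
        apply hp
        refine ⟨?_, ?_, mem_univ _⟩
        · simpa using h.1
        · simpa using h.2
      have h2 := hT p this
      exact Prod.ext rfl h2)
  -- the parameter does not change
  have hfst : ∀ s r x, (R (s, (r, x))).1 = r := by
    intro s r x
    have hd : ∀ σ : ℝ, HasDerivAt (fun σ => (R (σ, (r, x))).1) 0 σ := by
      intro σ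
      have h1 := hRd σ (r, x)
      have h2 : HasMFDerivAt (𝓘(ℝ, ℝ).prod I) 𝓘(ℝ, ℝ) (Prod.fst : ℝ × M → ℝ) (R (σ, (r, x)))
        (ContinuousLinearMap.fst ℝ ℝ E) := hasMFDerivAt_fst _
      have h3 := HasMFDerivAt.comp σ h2 h1
      have h4 : HasFDerivAt (fun σ => (R (σ, (r, x))).1)
          ((ContinuousLinearMap.fst ℝ ℝ E).comp ((1 : ℝ →L[ℝ] ℝ).smulRight
            ((((0 : ℝ), (Y (σ, R (σ, (r, x))) : E)) : ℝ × E)))) σ := h3.hasFDerivAt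
      have h5 := h4.hasDerivAt
      refine h5.congr_deriv ?_
      simp
    have h := is_const_of_deriv_eq_zero (f := fun σ => (R (σ, (r, x))).1)
      (fun σ => (hd σ).differentiableAt) (fun σ => (hd σ).deriv) s 0
    exact h.trans (by rw [hR0])
  have hfstB : ∀ s r x, (B (s, (r, x))).1 = r := by
    intro s r x
    have h1 := hRB s (r, x)
    have h2 := hfst s (B (s, (r, x))).1 (B (s, (r, x))).2
    have h3 : R (s, ((B (s, (r, x))).1, (B (s, (r, x))).2)) = (r, x) := h1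
    rw [h3] at h2
    exact h2.symm
  have hRe : ∀ s r x, R (s, (r, x)) = (r, (R (s, (r, x))).2) := fun s r x =>
    Prod.ext (hfst s r x) rfl
  have hBe : ∀ s r x, B (s, (r, x)) = (r, (B (s, (r, x))).2) := fun s r x =>
    Prod.ext (hfstB s r x) rfl
  refine ⟨fun p => (R p).2, fun p => (B p).2, contMDiff_snd.comp hR, contMDiff_snd.comp hB,
    fun r x => by simp only [hR0], fun s r x => ?_, fun s r x => ?_, fun s r x => ?_⟩
  · show (B (s, (r, (R (s, (r, x))).2))).2 = x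
    rw [← hRe, hBR]
  · show (R (s, (r, (B (s, (r, x))).2))).2 = x
    rw [← hBe, hRB]
  · have h1 := hRd s (r, x)
    have h2 : HasMFDerivAt (𝓘(ℝ, ℝ).prod I) I (Prod.snd : ℝ × M → M) (R (s, (r, x)))
      (ContinuousLinearMap.snd ℝ ℝ E) := hasMFDerivAt_snd _
    have h3 := HasMFDerivAt.comp s h2 h1
    have h4 : (ContinuousLinearMap.snd ℝ ℝ E).comp ((1 : ℝ →L[ℝ] ℝ).smulRight
            ((((0 : ℝ), (Y (s, R (s, (r, x))) : E)) : ℝ × E))) =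
        (1 : ℝ →L[ℝ] ℝ).smulRight (Y (s, R (s, (r, x))) : E) := by
      refine ContinuousLinearMap.ext fun c => ?_
      rfl
    have h5 : HasMFDerivAt 𝓘(ℝ, ℝ) I (fun s => (R (s, (r, x))).2) s
        ((1 : ℝ →L[ℝ] ℝ).smulRight (Y (s, R (s, (r, x))) : E)) := h3.congr_mfderiv h4
    have h6 : ∀ (q : ℝ × M) (hq : R (s, (r, x)) = q),
        (Y (s, R (s, (r, x))) : E) = (Y (s, q) : E) := by
      rintro _ rfl
      rfl
    have h7 := h6 _ (hRe s r x)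
    refine h5.congr_mfderiv ?_
    exact congrArg (fun w : E => (1 : ℝ →L[ℝ] ℝ).smulRight w) h7

/-- **Moser's method with a parameter.** -/
theorem moser_param [T2Space M] [CompactSpace M]
    {W : ℝ → ℝ → (x : M) → TangentSpace I x →L[ℝ] TangentSpace I x →L[ℝ] ℝ}
    {A : ℝ → ℝ → (x : M) → TangentSpace I x →L[ℝ] ℝ}
    (hWs : ∀ p₀ : ℝ × (ℝ × M), SmoothBilinAt (𝓘(ℝ, ℝ).prod (𝓘(ℝ, ℝ).prod I))
      (fun p : ℝ × (ℝ × M) => p.2.2) (fun p => W p.1 p.2.1 p.2.2) p₀)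
    (hAs : ∀ p₀ : ℝ × (ℝ × M), SmoothLinAt (𝓘(ℝ, ℝ).prod (𝓘(ℝ, ℝ).prod I))
      (fun p : ℝ × (ℝ × M) => p.2.2) (fun p => A p.1 p.2.1 p.2.2) p₀)
    (hC : ∀ r, Cartan (fun s => W s r) (fun s => A s r))
    (hnd : ∀ s r x u, (∀ v, W s r x u v = 0) → u = 0)
    {T : ℝ} (hT : ∀ s r x, T < |s| ∨ T < |r| → A s r x = 0) :
    ∃ th be : ℝ × (ℝ × M) → M,
      ContMDiff (𝓘(ℝ, ℝ).prod (𝓘(ℝ, ℝ).prod I)) I ∞ th ∧
      ContMDiff (𝓘(ℝ, ℝ).prod (𝓘(ℝ, ℝ).prod I)) I ∞ be ∧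
      (∀ r x, th (0, (r, x)) = x) ∧ (∀ s r x, be (s, (r, th (s, (r, x)))) = x) ∧
      (∀ s r x, th (s, (r, be (s, (r, x)))) = x) ∧
      (∀ s r x, ∃ y : TangentSpace I (th (s, (r, x))),
        HasMFDerivAt 𝓘(ℝ, ℝ) I (fun s => th (s, (r, x))) s ((1 : ℝ →L[ℝ] ℝ).smulRight y) ∧
        ∀ v, W s r (th (s, (r, x))) y v = - A s r (th (s, (r, x))) v) ∧
      (∀ s r x u v, W s r (th (s, (r, x))) (DX (fun q : ℝ × M => th (q.1, (r, q.2))) s x u)
        (DX (fun q : ℝ × M => th (q.1, (r, q.2))) s x v) = W 0 r x u v) := by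
  have hex : ∀ p : ℝ × (ℝ × M), ∃ y : TangentSpace I p.2.2,
      ∀ v, W p.1 p.2.1 p.2.2 y v = - A p.1 p.2.1 p.2.2 v := by
    intro p
    obtain ⟨y, hy⟩ := exists_sharp (W p.1 p.2.1 p.2.2) (hnd _ _ _) (- A p.1 p.2.1 p.2.2)
    exact ⟨y, fun v => hy v⟩
  choose Y hY using hex
  have hYs : ContMDiff (𝓘(ℝ, ℝ).prod (𝓘(ℝ, ℝ).prod I)) I.tangent ∞
      (fun p : ℝ × (ℝ × M) => (⟨p.2.2, Y p⟩ : TangentBundle I M)) := by
    intro p₀
    refine contMDiffAt_of_pairing (f := fun p : ℝ × (ℝ × M) => p.2.2)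
      (contMDiff_snd.comp contMDiff_snd p₀) (hWs p₀) (hnd _ _ _) ?_
    intro v hv
    refine (hAs p₀ v hv).neg.congr_of_eventuallyEq ?_
    exact Filter.Eventually.of_forall fun p => hY p (v p)
  have hT' : ∀ p : ℝ × (ℝ × M), T < |p.1| ∨ T < |p.2.1| → Y p = 0 := by
    intro p hp
    apply hnd p.1 p.2.1 p.2.2
    intro v
    rw [hY, hT _ _ _ hp]
    simp
  obtain ⟨th, be, h1, h2, h3, h4, h5, h6⟩ := exists_pflow hYs hT'
  refine ⟨th, be, h1, h2, h3, h4, h5, fun s r x => ⟨_, h6 s r x, fun v =>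
    hY (s, (r, th (s, (r, x)))) v⟩, ?_⟩
  intro s r x u v
  have hi : ContMDiff (𝓘(ℝ, ℝ).prod I) I ∞ (fun q : ℝ × M => th (q.1, (r, q.2))) :=
    h1.comp (contMDiff_fst.prodMk (contMDiff_const.prodMk contMDiff_snd))
  have hWr : SmT2 (fun s => W s r) := by
    intro p₀
    exact SmoothBilinAt.comp (f := fun p : ℝ × (ℝ × M) => p.2.2)
      (g := fun q : ℝ × M => (q.1, (r, q.2))) (contMDiff_snd.comp contMDiff_snd _)
      (hWs (p₀.1, (r, p₀.2)))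
      ((contMDiff_fst.prodMk (contMDiff_const.prodMk contMDiff_snd)) p₀)
  refine pull_const (hC r) hWr hi (fun x => h3 r x) ?_ s x u v
  intro s x v
  have h7 : dS I (fun q : ℝ × M => th (q.1, (r, q.2))) s x = Y (s, (r, th (s, (r, x)))) :=
    dS_eq_of_hasMFDerivAt (R := fun q : ℝ × M => th (q.1, (r, q.2))) (h6 s r x)
  rw [h7]
  exact hY (s, (r, th (s, (r, x)))) v

end Pool.Agent.Helper500_SM
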