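import Mathlib
import Pool.Agent.Helper500_SM.PFlow

/-! The soft criterion for symplectic isotopies. -/

open scoped Topology ContDiff Manifold
open Set Metric Bundle

noncomputable section

namespace Pool.Agent.Helper500_SM

open Pool.Agent.Helper186

set_option linter.unusedSectionVars false

universe u

variable {E : Type u} [NormedAddCommGroup E] [NormedSpace ℝ E] [FiniteDimensional ℝ E]
  {H : Type*} [TopologicalSpace H] {I : ModelWithCorners ℝ E H} [I.Boundaryless]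
  {M : Type*} [TopologicalSpace M] [ChartedSpace H M] [IsManifold I ∞ M]

/-- A curve with zero derivative is constant. -/
lemma const_of_mfderiv_zero [T2Space M] {c : ℝ → M}
    (h : ∀ s, HasMFDerivAt 𝓘(ℝ, ℝ) I c s ((1 : ℝ →L[ℝ] ℝ).smulRight (0 : E))) (s : ℝ) :
    c s = c 0 := by
  have : IsManifold I 1 M := IsManifold.of_le (n := ∞) (by simp)
  have hV : ContMDiff I I.tangent 1 (fun x : M => (⟨x, 0⟩ : TangentBundle I M)) :=
    contMDiff_zeroSection ℝ (TangentSpace I)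
  have h1 : IsMIntegralCurve c (fun x : M => (0 : TangentSpace I x)) := fun t => h t
  have h2 : IsMIntegralCurve (fun _ : ℝ => c 0) (fun x : M => (0 : TangentSpace I x)) := by
    intro t
    have h3 := hasMFDerivAt_const (I := 𝓘(ℝ, ℝ)) (I' := I) (c 0) t
    refine h3.congr_mfderiv ?_
    refine ContinuousLinearMap.ext fun r => ?_
    exact (smul_zero _).symm
  have h4 := isMIntegralCurve_Ioo_eq_of_contMDiff_boundaryless (t₀ := 0) hV h1 h2 rfl
  exact congrFun h4 s

/-- **Moser's method** without parameter. -/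
theorem moser_single [T2Space M] [CompactSpace M]
    {W : ℝ → (x : M) → TangentSpace I x →L[ℝ] TangentSpace I x →L[ℝ] ℝ}
    {A : ℝ → (x : M) → TangentSpace I x →L[ℝ] ℝ} (hWs : SmT2 W) (hAs : SmT1 A)
    (hC : Cartan W A) (hnd : ∀ s x u, (∀ v, W s x u v = 0) → u = 0)
    {T : ℝ} (hT : ∀ s x, T < |s| → A s x = 0) :
    ∃ th be : ℝ × M → M, ContMDiff (𝓘(ℝ, ℝ).prod I) I ∞ th ∧
      ContMDiff (𝓘(ℝ, ℝ).prod I) I ∞ be ∧ (∀ x, th (0, x) = x) ∧
      (∀ s x, be (s, th (s, x)) = x) ∧ (∀ s x, th (s, be (s, x)) = x) ∧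
      (∀ s x u v, W s (th (s, x)) (DX th s x u) (DX th s x v) = W 0 x u v) := by
  have hex : ∀ p : ℝ × M, ∃ y : TangentSpace I p.2, ∀ v, W p.1 p.2 y v = - A p.1 p.2 v := by
    intro p
    obtain ⟨y, hy⟩ := exists_sharp (W p.1 p.2) (hnd _ _) (- A p.1 p.2)
    exact ⟨y, fun v => hy v⟩
  choose Y hY using hex
  have hYs : ContMDiff (𝓘(ℝ, ℝ).prod I) I.tangent ∞
      (fun p : ℝ × M => (⟨p.2, Y (p.1, p.2)⟩ : TangentBundle I M)) := by
    intro p₀
    refine contMDiffAt_of_pairing (f := fun p : ℝ × M => p.2) contMDiffAt_snd (hWs p₀)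
      (hnd _ _) ?_
    intro v hv
    refine (hAs p₀ v hv).neg.congr_of_eventuallyEq ?_
    exact Filter.Eventually.of_forall fun p => hY p (v p)
  have hK : IsCompact ((closedBall (0 : ℝ) T) ×ˢ (univ : Set M)) :=
    (isCompact_closedBall _ _).prod isCompact_univ
  obtain ⟨R, B, hR, hB, hR0, hBR, hRB, hRd, -⟩ := exists_evolution
    (Y := fun s x => Y (s, x)) hYs hK (by
      intro p hp
      have h1 : T < |p.1| := by
        by_contra h
        push Not at h
        apply hp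
        exact ⟨by simpa using h, mem_univ _⟩
      apply hnd p.1 p.2
      intro v
      rw [hY (p.1, p.2), hT _ _ h1]
      simp)
  refine ⟨R, B, hR, hB, hR0, hBR, hRB, fun s x u v => ?_⟩
  refine pull_const hC hWs hR hR0 ?_ s x u v
  intro s x v
  rw [dS_eq_of_hasMFDerivAt (hRd s x)]
  exact hY (s, R (s, x)) v

lemma contMDiff_slice {f : ℝ × M → M} (hf : ContMDiff (𝓘(ℝ, ℝ).prod I) I ∞ f) (s : ℝ) :
    ContMDiff I I ∞ (fun x => f (s, x)) :=
  hf.comp (contMDiff_const.prodMk contMDiff_id)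

/-- the derivative of a composition of families -/
lemma DX_comp {f g : ℝ × M → M} (hf : ContMDiff (𝓘(ℝ, ℝ).prod I) I ∞ f)
    (hg : ContMDiff (𝓘(ℝ, ℝ).prod I) I ∞ g) (s : ℝ) (x : M) (u : TangentSpace I x) :
    DX (fun q : ℝ × M => f (q.1, g q)) s x u = DX f s (g (s, x)) (DX g s x u) := by
  have h1 := mfderiv_comp (I := I) (I' := I) (I'' := I) x
    ((contMDiff_slice hf s).mdifferentiableAt (by simp) (x := g (s, x)))
    ((contMDiff_slice hg s).mdifferentiableAt (by simp) (x := x))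
  exact DFunLike.congr_fun h1 u

lemma DX_id {f : ℝ × M → M} {s : ℝ} (h : ∀ x, f (s, x) = x) (x : M) (u : TangentSpace I x) :
    (⟨f (s, x), DX f s x u⟩ : TangentBundle I M) = ⟨x, u⟩ := by
  have h5 : (fun x' => f (s, x')) = id := by ext x'; exact h x'
  have h6 : tangentMap I I (fun x' => f (s, x')) (⟨x, u⟩ : TangentBundle I M) = ⟨x, u⟩ := by
    rw [h5, tangentMap_id]; rfl
  exact h6

lemma form_congr2 (B : (x : M) → TangentSpace I x →L[ℝ] TangentSpace I x →L[ℝ] ℝ) {x y : M}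
    {u v : TangentSpace I x} {u' v' : TangentSpace I y}
    (hu : (⟨x, u⟩ : TangentBundle I M) = ⟨y, u'⟩)
    (hv : (⟨x, v⟩ : TangentBundle I M) = ⟨y, v'⟩) : B x u v = B y u' v' := by
  have h5 : ∀ (a b a' b' : TangentBundle I M) (hab : a.1 = b.1) (hab' : a'.1 = b'.1), a = a' →
      b = b' → B a.1 a.2 (hab ▸ b.2) = B a'.1 a'.2 (hab' ▸ b'.2) := by
    rintro a b _ _ hab hab' rfl rfl
    rfl
  exact h5 ⟨x, u⟩ ⟨x, v⟩ ⟨y, u'⟩ ⟨y, v'⟩ rfl rfl hu hv

end Pool.Agent.Helper500_SM
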