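import Mathlib

/-! Determinants in Euclidean three-space. -/

open Set Metric

noncomputable section

namespace Pool.Agent.Helper500_SM

/-- Euclidean three-space -/
abbrev E3 : Type := EuclideanSpace ℝ (Fin 3)

/-- The determinant of three vectors. -/
def det3 (a b c : E3) : ℝ :=
  a 0 * (b 1 * c 2 - b 2 * c 1) - a 1 * (b 0 * c 2 - b 2 * c 0) + a 2 * (b 0 * c 1 - b 1 * c 0)

/-- The scalar product. -/
def dot3 (a b : E3) : ℝ := a 0 * b 0 + a 1 * b 1 + a 2 * b 2

/-- The cross product. -/
def cross3 (a b : E3) : E3 :=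
  !₂[a 1 * b 2 - a 2 * b 1, a 2 * b 0 - a 0 * b 2, a 0 * b 1 - a 1 * b 0]

/-- The determinant as a bilinear form in the last two vectors. -/
def detB (a : E3) : E3 →L[ℝ] E3 →L[ℝ] ℝ :=
  a 0 • ((EuclideanSpace.proj (1 : Fin 3)).smulRight (EuclideanSpace.proj (2 : Fin 3)) -
    (EuclideanSpace.proj (2 : Fin 3)).smulRight (EuclideanSpace.proj (1 : Fin 3))) -
  a 1 • ((EuclideanSpace.proj (0 : Fin 3)).smulRight (EuclideanSpace.proj (2 : Fin 3)) -
    (EuclideanSpace.proj (2 : Fin 3)).smulRight (EuclideanSpace.proj (0 : Fin 3))) +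
  a 2 • ((EuclideanSpace.proj (0 : Fin 3)).smulRight (EuclideanSpace.proj (1 : Fin 3)) -
    (EuclideanSpace.proj (1 : Fin 3)).smulRight (EuclideanSpace.proj (0 : Fin 3)))

lemma detB_apply (a b c : E3) : detB a b c = det3 a b c := by
  simp only [detB, det3, add_apply, sub_apply, smul_apply, ContinuousLinearMap.smulRight_apply,
    smul_eq_mul]
  rfl

lemma inner_eq_dot (a b : E3) : inner ℝ a b = dot3 a b := by
  simp only [PiLp.inner_apply, Fin.sum_univ_three, dot3]
  simp
  ring

lemma dot_self_of_mem {x : E3} (hx : x ∈ sphere (0 : E3) 1) : dot3 x x = 1 := by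
  have h : ‖x‖ = 1 := by simpa using hx
  rw [← inner_eq_dot, real_inner_self_eq_norm_sq, h]
  norm_num

lemma det3_swap (a b c : E3) : det3 a b c = - det3 a c b := by
  simp only [det3]; ring

lemma det3_self (a b : E3) : det3 a b b = 0 := by
  simp only [det3]; ring

lemma det3_add_mid (a b b' c : E3) : det3 a (b + b') c = det3 a b c + det3 a b' c := by
  simp only [det3, PiLp.add_apply]; ring

lemma det3_smul_mid (t : ℝ) (a b c : E3) : det3 a (t • b) c = t * det3 a b c := by
  simp only [det3, PiLp.smul_apply, smul_eq_mul]; ring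

lemma det3_cross (a b : E3) : det3 a b (cross3 a b) = dot3 a a * dot3 b b - dot3 a b ^ 2 := by
  simp [det3, dot3, cross3]; ring

lemma dot3_cross (a b : E3) : dot3 a (cross3 a b) = 0 := by
  simp [dot3, cross3]; ring

/-- the first identity for tangent vectors of the sphere -/
lemma det_tangent {s x a b : E3} (hs : dot3 s s = 1) (ha : dot3 s a = 0) (hb : dot3 s b = 0) :
    det3 x a b = dot3 s x * det3 s a b := by
  simp only [det3, dot3] at *
  linear_combination (-(x 0 * (a 1 * b 2 - a 2 * b 1) - x 1 * (a 0 * b 2 - a 2 * b 0) +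
      x 2 * (a 0 * b 1 - a 1 * b 0))) * hs +
    (x 0 * (s 1 * b 2 - s 2 * b 1) + x 1 * (s 2 * b 0 - s 0 * b 2) +
      x 2 * (s 0 * b 1 - s 1 * b 0)) * ha -
    (x 0 * (s 1 * a 2 - s 2 * a 1) + x 1 * (s 2 * a 0 - s 0 * a 2) +
      x 2 * (s 0 * a 1 - s 1 * a 0)) * hb

/-- the second identity for tangent vectors of the sphere -/
lemma det_tangent2 {s x a b : E3} (hs : dot3 s s = 1) (hx : dot3 x x = 1) (ha : dot3 s a = 0)
    (hb : dot3 s b = 0) :
    dot3 x a * det3 x s b - dot3 x b * det3 x s a = - (1 - dot3 s x ^ 2) * det3 s a b := by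
  have h1 : dot3 x a * det3 x s b - dot3 x b * det3 x s a =
      - (dot3 x x * det3 s a b - dot3 s x * det3 x a b) := by
    simp only [det3, dot3]; ring
  rw [h1, det_tangent (x := x) hs ha hb, hx]
  ring

end Pool.Agent.Helper500_SM
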