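import Mathlib
import Pool.Agent.Helper500_SM.Det3
import Pool.Agent.Helper500_SM.Blocks2

/-! The area form of the two-sphere and a one-form on it. -/

open scoped Topology ContDiff Manifold
open Set Metric Bundle

noncomputable section

namespace Pool.Agent.Helper500_SM

open Pool.Agent.Helper186

set_option linter.unusedSectionVars false

instance factE3 : Fact (Module.finrank ℝ E3 = 2 + 1) := ⟨by simp⟩

/-- The two-sphere. -/
abbrev S2 : Type := sphere (0 : E3) 1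

/-- The plane. -/
abbrev E2 : Type := EuclideanSpace ℝ (Fin 2)

/-- The derivative of the inclusion of the sphere. -/
def iota (x : S2) : TangentSpace (𝓡 2) x →L[ℝ] E3 :=
  mfderiv (𝓡 2) 𝓘(ℝ, E3) (fun y : S2 => (y : E3)) x

/-- The area form of the sphere, normalised to total area one. -/
def sphArea (x : S2) : TangentSpace (𝓡 2) x →L[ℝ] TangentSpace (𝓡 2) x →L[ℝ] ℝ :=
  (1 / (4 * Real.pi)) • pullE (F := E3) (G := E2) (detB (x : E3)) (iota x)

lemma sphArea_apply (x : S2) (u v : TangentSpace (𝓡 2) x) :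
    sphArea x u v = det3 x (iota x u) (iota x v) / (4 * Real.pi) := by
  show (1 / (4 * Real.pi)) * detB (x : E3) (iota x u) (iota x v) = _
  rw [detB_apply]
  ring

lemma dot_iota (x : S2) (u : TangentSpace (𝓡 2) x) : dot3 x (iota x u) = 0 := by
  have h := range_mvfderiv_subtypeVal (n := 2) x
  have h1 : iota x u ∈ (ℝ ∙ (x : E3))ᗮ := by
    rw [← h]
    exact ⟨u, rfl⟩
  rw [Submodule.mem_orthogonal_singleton_iff_inner_right] at h1
  rw [← inner_eq_dot]
  exact h1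

lemma iota_surj (x : S2) {w : E3} (hw : dot3 x w = 0) : ∃ u, iota x u = w := by
  have h := range_mvfderiv_subtypeVal (n := 2) x
  have h1 : w ∈ (ℝ ∙ (x : E3))ᗮ := by
    rw [Submodule.mem_orthogonal_singleton_iff_inner_right, inner_eq_dot]
    exact hw
  rw [← h] at h1
  obtain ⟨u, hu⟩ := h1
  exact ⟨u, hu⟩

lemma iota_inj (x : S2) {u : TangentSpace (𝓡 2) x} (h : iota x u = 0) : u = 0 := by
  have h1 := injective_mvfderiv_subtypeVal_sphere (n := 2) x
  apply h1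
  refine Eq.trans h ?_
  exact (map_zero _).symm

lemma dot_self_nonneg (w : E3) : 0 ≤ dot3 w w := by
  simp only [dot3]
  nlinarith [mul_self_nonneg (w 0), mul_self_nonneg (w 1), mul_self_nonneg (w 2)]

lemma dot_self_eq_zero {w : E3} (h : dot3 w w = 0) : w = 0 := by
  rw [← inner_eq_dot] at h
  exact inner_self_eq_zero.1 h

lemma sphArea_alt (x : S2) (u v : TangentSpace (𝓡 2) x) : sphArea x u v = - sphArea x v u := by
  rw [sphArea_apply, sphArea_apply, det3_swap]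
  ring

/-- a vector on which the area form is positive -/
lemma exists_pos (x : S2) {u : TangentSpace (𝓡 2) x} (hu : u ≠ 0) :
    ∃ v, 0 < sphArea x u v := by
  obtain ⟨v, hv⟩ := iota_surj x (w := cross3 x (iota x u)) (dot3_cross _ _)
  refine ⟨v, ?_⟩
  rw [sphArea_apply, hv]
  have h1 : det3 x (iota x u) (cross3 x (iota x u)) = dot3 (iota x u) (iota x u) := by
    rw [det3_cross, dot_iota, dot_self_of_mem x.2]
    ring
  rw [h1]
  have h2 : 0 < dot3 (iota x u) (iota x u) := by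
    refine lt_of_le_of_ne (dot_self_nonneg _) fun h => hu ?_
    exact iota_inj x (dot_self_eq_zero h.symm)
  positivity

section smooth

variable {E' : Type*} [NormedAddCommGroup E'] [NormedSpace ℝ E']
  {H' : Type*} [TopologicalSpace H'] {J : ModelWithCorners ℝ E' H'}
  {P : Type*} [TopologicalSpace P] [ChartedSpace H' P]

lemma contMDiffAt_vec {V : Type*} [NormedAddCommGroup V] [NormedSpace ℝ V]
    {f : P → V} {w : (p : P) → TangentSpace 𝓘(ℝ, V) (f p)} {p₀ : P}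
    (hw : ContMDiffAt J 𝓘(ℝ, V).tangent ∞ (fun p => (⟨f p, w p⟩ : TangentBundle 𝓘(ℝ, V) V)) p₀) :
    ContMDiffAt J 𝓘(ℝ, V) ∞ (fun p => (w p : V)) p₀ := by
  have h1 := (contMDiffAt_totalSpace.1 hw).2
  refine h1.congr_of_eventuallyEq (Filter.Eventually.of_forall fun p => ?_)
  have h2 := TangentBundle.continuousLinearMapAt_model_space (𝕜 := ℝ) (f p₀) (f p)
  have h3 := congrArg (fun L : V →L[ℝ] V => L (w p)) h2
  have h4 : (trivializationAt V (TangentSpace 𝓘(ℝ, V)) (f p₀)).continuousLinearMapAt ℝ (f p) (w p) =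
      ((trivializationAt V (TangentSpace 𝓘(ℝ, V)) (f p₀))
        (⟨f p, w p⟩ : TangentBundle 𝓘(ℝ, V) V)).2 := by
    rw [Trivialization.continuousLinearMapAt_apply, Trivialization.coe_linearMapAt_of_mem (R := ℝ)]
    simp
  exact h3.symm.trans h4

lemma contMDiffAt_iota {f : P → S2} {u : (p : P) → TangentSpace (𝓡 2) (f p)} {p₀ : P}
    (hu : ContMDiffAt J (𝓡 2).tangent ∞ (fun p => (⟨f p, u p⟩ : TangentBundle (𝓡 2) S2)) p₀) :
    ContMDiffAt J 𝓘(ℝ, E3) ∞ (fun p => iota (f p) (u p)) p₀ := by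
  have h1 : ContMDiff (𝓡 2) 𝓘(ℝ, E3) ∞ (fun y : S2 => (y : E3)) := contMDiff_coe_sphere
  have h2 : ContMDiff (𝓡 2).tangent 𝓘(ℝ, E3).tangent ∞
      (tangentMap (𝓡 2) 𝓘(ℝ, E3) (fun y : S2 => (y : E3))) := h1.contMDiff_tangentMap (by simp)
  exact contMDiffAt_vec ((h2 _).comp p₀ hu)

lemma contMDiffAt_coe {f : P → S2} {p₀ : P} (hf : ContMDiffAt J (𝓡 2) ∞ f p₀) :
    ContMDiffAt J 𝓘(ℝ, E3) ∞ (fun p => (f p : E3)) p₀ :=
  (contMDiff_coe_sphere (m := ∞) (E := E3) (n := 2) (f p₀)).comp p₀ hf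

lemma contMDiffAt_det {a b c : P → E3} {p₀ : P} (ha : ContMDiffAt J 𝓘(ℝ, E3) ∞ a p₀)
    (hb : ContMDiffAt J 𝓘(ℝ, E3) ∞ b p₀) (hc : ContMDiffAt J 𝓘(ℝ, E3) ∞ c p₀) :
    ContMDiffAt J 𝓘(ℝ, ℝ) ∞ (fun p => det3 (a p) (b p) (c p)) p₀ := by
  have h : ContDiff ℝ ∞ (fun q : E3 × E3 × E3 => det3 q.1 q.2.1 q.2.2) := by
    unfold det3
    fun_prop
  exact (h.contMDiff _).comp p₀ (ha.prodMk_space (hb.prodMk_space hc))

lemma contMDiffAt_dot {a b : P → E3} {p₀ : P} (ha : ContMDiffAt J 𝓘(ℝ, E3) ∞ a p₀)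
    (hb : ContMDiffAt J 𝓘(ℝ, E3) ∞ b p₀) :
    ContMDiffAt J 𝓘(ℝ, ℝ) ∞ (fun p => dot3 (a p) (b p)) p₀ := by
  have h : ContDiff ℝ ∞ (fun q : E3 × E3 => dot3 q.1 q.2) := by
    unfold dot3
    fun_prop
  exact (h.contMDiff _).comp p₀ (ha.prodMk_space hb)

end smooth

lemma sm2_sphArea : Sm2 sphArea := by
  intro x₀ u v hu hv
  have h1 := contMDiffAt_iota hu
  have h2 := contMDiffAt_iota hv
  have h3 : ContMDiffAt (𝓡 2) 𝓘(ℝ, E3) ∞ (fun y : S2 => (y : E3)) x₀ :=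
    contMDiffAt_coe contMDiffAt_id
  have h4 := (contMDiffAt_det h3 h1 h2).div_const (4 * Real.pi)
  refine h4.congr_of_eventuallyEq (Filter.Eventually.of_forall fun p => ?_)
  exact sphArea_apply _ _ _

/-- The one-form `k(⟨y, x⟩) det (y, x, dx) / 4π` on the sphere. -/
def gam (k : ℝ → ℝ) (y : E3) (x : S2) : TangentSpace (𝓡 2) x →L[ℝ] ℝ :=
  (k (dot3 y x) / (4 * Real.pi)) • (detB y (x : E3)).comp (iota x)

lemma gam_apply (k : ℝ → ℝ) (y : E3) (x : S2) (u : TangentSpace (𝓡 2) x) :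
    gam k y x u = k (dot3 y x) / (4 * Real.pi) * det3 y x (iota x u) := by
  show (k (dot3 y x) / (4 * Real.pi)) * detB y (x : E3) (iota x u) = _
  rw [detB_apply]

lemma smoothForm_gam {k : ℝ → ℝ} (hk : ContDiff ℝ ∞ k) (y : E3) : SmoothForm (gam k y) := by
  intro V
  have hid : ContMDiffAt (𝓡 2).tangent (𝓡 2).tangent ∞
      (fun v : TangentBundle (𝓡 2) S2 => (⟨v.1, v.2⟩ : TangentBundle (𝓡 2) S2)) V :=
    contMDiffAt_id
  have h1 := contMDiffAt_iota hid
  have h2 : ContMDiffAt (𝓡 2).tangent 𝓘(ℝ, E3) ∞ (fun v : TangentBundle (𝓡 2) S2 => (v.1 : E3)) V :=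
    contMDiffAt_coe (contMDiff_proj (TangentSpace (𝓡 2)) V)
  have h3 : ContMDiffAt (𝓡 2).tangent 𝓘(ℝ, E3) ∞ (fun _ : TangentBundle (𝓡 2) S2 => y) V :=
    contMDiffAt_const
  have h4 := ((hk.contMDiff _).comp V (contMDiffAt_dot h3 h2)).div_const (4 * Real.pi)
  have h5 := h4.mul (contMDiffAt_det h3 h2 h1)
  refine h5.congr_of_eventuallyEq (Filter.Eventually.of_forall fun v => ?_)
  exact gam_apply _ _ _ _

end Pool.Agent.Helper500_SM
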