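import Mathlib
import Pool.Agent.Helper500_SM.CritA
import Pool.Agent.Helper500_SM.Sph

/-! Two-forms on surfaces are closed. -/

open scoped Topology ContDiff Manifold
open Set Metric Bundle

noncomputable section

namespace Pool.Agent.Helper500_SM

open Pool.Agent.Helper186

set_option linter.unusedSectionVars false

lemma two_form_plane (B : E2 →L[ℝ] E2 →L[ℝ] ℝ) (hB : ∀ v w, B v w = - B w v) (v w : E2) :
    B v w = B (EuclideanSpace.single 0 1) (EuclideanSpace.single 1 1) *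
      (v 0 * w 1 - v 1 * w 0) := by
  have e : ∀ v : E2, v = v 0 • EuclideanSpace.single 0 1 + v 1 • EuclideanSpace.single 1 1 := by
    intro v
    ext i
    fin_cases i <;> simp
  have h0 : ∀ v, B v v = 0 := fun v => by have := hB v v; linarith
  have h1 := hB (EuclideanSpace.single 1 1) (EuclideanSpace.single 0 1)
  conv_lhs => rw [e v, e w]
  simp only [map_add, map_smul, add_apply, smul_apply, smul_eq_mul, h0, h1]
  ring

variable {M : Type*} [TopologicalSpace M] [ChartedSpace E2 M] [IsManifold (𝓡 2) ∞ M]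

theorem closedP_surface {σ : (x : M) → TangentSpace (𝓡 2) x →L[ℝ] TangentSpace (𝓡 2) x →L[ℝ] ℝ}
    (hσ : Sm2 σ) (halt : ∀ x v w, σ x v w = - σ x w v) : ClosedP σ := by
  intro P _ _ U S hU hS p hp a b c
  set φ := extChartAt (𝓡 2) (S p) with hφ
  have hφo : IsOpen φ.target := isOpen_extChartAt_target (S p)
  have hφs : ContMDiffOn 𝓘(ℝ, E2) (𝓡 2) ∞ φ.symm φ.target := contMDiffOn_extChartAt_symm (S p)
  set T : P → E2 := fun q => φ (S q) with hT
  obtain ⟨U', hU'o, hpU', hU'⟩ : ∃ U' : Set P, IsOpen U' ∧ p ∈ U' ∧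
      ∀ q ∈ U', q ∈ U ∧ S q ∈ φ.source := by
    have h1 : ∀ᶠ q in 𝓝 p, q ∈ U ∧ S q ∈ φ.source := by
      have h2 : ∀ᶠ q in 𝓝 p, q ∈ U := hU.mem_nhds hp
      have h3 : ∀ᶠ q in 𝓝 p, S q ∈ φ.source :=
        ((hS.contMDiffAt (hU.mem_nhds hp)).continuousAt).preimage_mem_nhds
          (extChartAt_source_mem_nhds (S p))
      exact h2.and h3
    obtain ⟨V, hV, hVo, hpV⟩ := _root_.eventually_nhds_iff.1 h1
    exact ⟨V, hVo, hpV, hV⟩
  have hTs : ∀ q ∈ U', ContDiffAt ℝ ∞ T q := by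
    intro q hq
    rw [← contMDiffAt_iff_contDiffAt]
    have h1 : ContMDiffAt (𝓡 2) 𝓘(ℝ, E2) ∞ φ (S q) :=
      (contMDiffOn_extChartAt (n := ∞) (x := S p)).contMDiffAt
        ((chartAt E2 (S p)).open_source.mem_nhds (by
          have := (hU' q hq).2
          rwa [hφ, extChartAt_source] at this))
    exact h1.comp q (hS.contMDiffAt (hU.mem_nhds (hU' q hq).1))
  have hTt : ∀ q ∈ U', T q ∈ φ.target := fun q hq => φ.map_source (hU' q hq).2
  have htan : ∀ q ∈ U', ∀ d : P, (⟨S q, mfderiv 𝓘(ℝ, P) (𝓡 2) S q d⟩ : TangentBundle (𝓡 2) M) =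
      ⟨φ.symm (T q), mfderiv 𝓘(ℝ, E2) (𝓡 2) φ.symm (T q) (fderiv ℝ T q d)⟩ := by
    intro q hq d
    have h1 : S =ᶠ[𝓝 q] φ.symm ∘ T := by
      filter_upwards [hU'o.mem_nhds hq] with q' hq'
      exact (φ.left_inv (hU' q' hq').2).symm
    have h2 : tangentMap 𝓘(ℝ, P) (𝓡 2) S (⟨q, d⟩ : TangentBundle 𝓘(ℝ, P) P) =
        tangentMap 𝓘(ℝ, P) (𝓡 2) (φ.symm ∘ T) (⟨q, d⟩ : TangentBundle 𝓘(ℝ, P) P) :=
      tangentMap_congr_of_eventuallyEq h1
    have h3 : MDifferentiableAt 𝓘(ℝ, E2) (𝓡 2) φ.symm (T q) :=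
      (hφs.contMDiffAt (hφo.mem_nhds (hTt q hq))).mdifferentiableAt (by simp)
    have h4 : MDifferentiableAt 𝓘(ℝ, P) 𝓘(ℝ, E2) T q :=
      ((hTs q hq).contMDiffAt (n := ∞)).mdifferentiableAt (by simp)
    have h5 := tangentMap_comp_at (⟨q, d⟩ : TangentBundle 𝓘(ℝ, P) P) (by exact h3) h4
    have h6 := h2.trans h5
    refine h6.trans ?_
    simp only [tangentMap, mfderiv_eq_fderiv]
    rfl
  set f : E2 → ℝ := fun y => σ (φ.symm y)
    (mfderiv 𝓘(ℝ, E2) (𝓡 2) φ.symm y (EuclideanSpace.single 0 1 : E2))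
    (mfderiv 𝓘(ℝ, E2) (𝓡 2) φ.symm y (EuclideanSpace.single 1 1 : E2)) with hf
  have hfs : ContDiffAt ℝ ∞ f (T p) := by
    rw [← contMDiffAt_iff_contDiffAt]
    have h1 : ContMDiffAt 𝓘(ℝ, E2) (𝓡 2) ∞ φ.symm (T p) :=
      hφs.contMDiffAt (hφo.mem_nhds (hTt p hpU'))
    exact SmoothBilinAt.comp (g := φ.symm) (f := fun x : M => x)
      contMDiffAt_id (hσ (φ.symm (T p))) h1 _ _ (contMDiffAt_push hφo hφs (hTt p hpU') _)
      (contMDiffAt_push hφo hφs (hTt p hpU') _)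
  have hloc : ∀ b c : P, (fun q => σ (S q) (mfderiv 𝓘(ℝ, P) (𝓡 2) S q b)
      (mfderiv 𝓘(ℝ, P) (𝓡 2) S q c)) =ᶠ[𝓝 p] fun q => f (T q) *
        (fderiv ℝ T q b 0 * fderiv ℝ T q c 1 - fderiv ℝ T q b 1 * fderiv ℝ T q c 0) := by
    intro b c
    filter_upwards [hU'o.mem_nhds hpU'] with q hq
    rw [form_congr2 σ (htan q hq b) (htan q hq c)]
    exact two_form_plane (pullE (F := E2) (G := E2) (σ (φ.symm (T q)))
      (mfderiv 𝓘(ℝ, E2) (𝓡 2) φ.symm (T q))) (fun v w => halt _ _ _) _ _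
  have hT1 : HasFDerivAt T (fderiv ℝ T p) p :=
    ((hTs _ hpU').differentiableAt (by simp)).hasFDerivAt
  have hT2 : ∀ c, ∀ i : Fin 2, HasFDerivAt (fun q => fderiv ℝ T q c i)
      ((EuclideanSpace.proj (𝕜 := ℝ) i).comp ((ContinuousLinearMap.apply ℝ E2 c).comp
        (fderiv ℝ (fderiv ℝ T) p))) p := by
    intro c i
    have h2 : HasFDerivAt (fderiv ℝ T) (fderiv ℝ (fderiv ℝ T) p) p :=
      (((hTs _ hpU').fderiv_right (m := ∞) (by simp)).differentiableAt (by simp)).hasFDerivAt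
    exact (EuclideanSpace.proj (𝕜 := ℝ) i).hasFDerivAt.comp p
      ((ContinuousLinearMap.apply ℝ E2 c).hasFDerivAt.comp p h2)
  have hsymm : ∀ a b, fderiv ℝ (fderiv ℝ T) p a b = fderiv ℝ (fderiv ℝ T) p b a := by
    intro a b
    have := (hTs _ hpU').isSymmSndFDerivAt (by
      simp only [minSmoothness_of_isRCLikeNormedField]; exact ENat.LEInfty.out)
    exact this a b
  have hf1 : HasFDerivAt (fun q => f (T q)) ((fderiv ℝ f (T p)).comp (fderiv ℝ T p)) p :=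
    (hfs.differentiableAt (by simp)).hasFDerivAt.comp p hT1
  have hfd : ∀ w : E2, fderiv ℝ f (T p) w = fderiv ℝ f (T p) (EuclideanSpace.single 0 1) * w 0 +
      fderiv ℝ f (T p) (EuclideanSpace.single 1 1) * w 1 := by
    intro w
    have e : w = w 0 • EuclideanSpace.single 0 1 + w 1 • EuclideanSpace.single 1 1 := by
      ext i
      fin_cases i <;> simp
    conv_lhs => rw [e]
    simp only [map_add, map_smul, smul_eq_mul]
    ring
  have hmain : ∀ a b c : P, fderiv ℝ (fun q => σ (S q) (mfderiv 𝓘(ℝ, P) (𝓡 2) S q b)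
      (mfderiv 𝓘(ℝ, P) (𝓡 2) S q c)) p a =
      f (T p) * (fderiv ℝ (fderiv ℝ T) p a b 0 * fderiv ℝ T p c 1 +
        fderiv ℝ T p b 0 * fderiv ℝ (fderiv ℝ T) p a c 1 -
        fderiv ℝ (fderiv ℝ T) p a b 1 * fderiv ℝ T p c 0 -
        fderiv ℝ T p b 1 * fderiv ℝ (fderiv ℝ T) p a c 0) +
      (fderiv ℝ T p b 0 * fderiv ℝ T p c 1 - fderiv ℝ T p b 1 * fderiv ℝ T p c 0) *
        (fderiv ℝ f (T p) (EuclideanSpace.single 0 1) * fderiv ℝ T p a 0 +
      fderiv ℝ f (T p) (EuclideanSpace.single 1 1) * fderiv ℝ T p a 1) := by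
    intro a b c
    rw [(hloc b c).fderiv_eq]
    have h1 := (hf1.mul (((hT2 b 0).mul (hT2 c 1)).sub ((hT2 b 1).mul (hT2 c 0)))).fderiv
    refine (congrArg (fun L : P →L[ℝ] ℝ => L a) h1).trans ?_
    simp only [add_apply, sub_apply, smul_apply, ContinuousLinearMap.comp_apply, smul_eq_mul,
      ContinuousLinearMap.apply_apply, hfd (fderiv ℝ T p a)]
    have e0 : ∀ (w : E2) (i : Fin 2), (EuclideanSpace.proj (𝕜 := ℝ) i) w = w i := fun _ _ => rfl
    simp only [e0, Pi.mul_apply, Pi.sub_apply]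
    ring
  rw [hmain, hmain, hmain, hsymm b a, hsymm c a, hsymm c b]
  ring

end Pool.Agent.Helper500_SM
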