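import Mathlib
import Pool.Agent.Helper500_SM.Surf

/-! Alternating forms in dimensions two and four. -/

open scoped Topology ContDiff Manifold
open Set Metric Bundle

noncomputable section

namespace Pool.Agent.Helper500_SM

/-- first and second basis vector of the plane -/
def eb (i : Fin 2) : E2 := EuclideanSpace.single i 1

/-- horizontal basis vectors -/
def hE (i : Fin 2) : E2 × E2 := (eb i, 0)

/-- vertical basis vectors -/
def vE (i : Fin 2) : E2 × E2 := (0, eb i)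

lemma eb_span (v : E2) : v = v 0 • eb 0 + v 1 • eb 1 := by
  unfold eb
  ext i
  fin_cases i <;> simp

lemma span4 (u : E2 × E2) : u = u.1 0 • hE 0 + u.1 1 • hE 1 + u.2 0 • vE 0 + u.2 1 • vE 1 := by
  refine Prod.ext ?_ ?_
  · simpa [hE, vE] using eb_span u.1
  · simpa [hE, vE] using eb_span u.2

/-- The Pfaffian. -/
def pf (B : E2 × E2 →L[ℝ] E2 × E2 →L[ℝ] ℝ) : ℝ :=
  B (hE 0) (hE 1) * B (vE 0) (vE 1) - B (hE 0) (vE 0) * B (hE 1) (vE 1) +
    B (hE 0) (vE 1) * B (hE 1) (vE 0)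

lemma self_zero {B : E2 × E2 →L[ℝ] E2 × E2 →L[ℝ] ℝ} (hB : ∀ v w, B v w = - B w v)
    (v : E2 × E2) : B v v = 0 := by have := hB v v; linarith

lemma nondeg_of_pf {B : E2 × E2 →L[ℝ] E2 × E2 →L[ℝ] ℝ} (hB : ∀ v w, B v w = - B w v)
    (hpf : pf B ≠ 0) {u : E2 × E2} (hu : ∀ v, B u v = 0) : u = 0 := by
  have ex : ∀ v, B u v = u.1 0 * B (hE 0) v + u.1 1 * B (hE 1) v + u.2 0 * B (vE 0) v +
      u.2 1 * B (vE 1) v := by
    intro v
    conv_lhs => rw [span4 u]
    simp only [map_add, map_smul, add_apply, smul_apply, smul_eq_mul]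
  have e1 := hu (hE 0)
  have e2 := hu (hE 1)
  have e3 := hu (vE 0)
  have e4 := hu (vE 1)
  rw [ex] at e1 e2 e3 e4
  rw [self_zero hB, hB (hE 1) (hE 0), hB (vE 0) (hE 0), hB (vE 1) (hE 0)] at e1
  rw [self_zero hB, hB (vE 0) (hE 1), hB (vE 1) (hE 1)] at e2
  rw [self_zero hB, hB (vE 1) (vE 0)] at e3
  rw [self_zero hB] at e4
  set A := B (hE 0) (hE 1)
  set D := B (vE 0) (vE 1)
  set p := B (hE 0) (vE 0)
  set q := B (hE 0) (vE 1)
  set r := B (hE 1) (vE 0)
  set s := B (hE 1) (vE 1)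
  have hpf' : A * D - p * s + q * r ≠ 0 := hpf
  have x0 : u.1 0 * (A * D - p * s + q * r) = 0 := by
    linear_combination D * e2 + r * e4 - s * e3
  have x1 : u.1 1 * (A * D - p * s + q * r) = 0 := by
    linear_combination - D * e1 - p * e4 + q * e3
  have y0 : u.2 0 * (A * D - p * s + q * r) = 0 := by
    linear_combination A * e4 + s * e1 - q * e2
  have y1 : u.2 1 * (A * D - p * s + q * r) = 0 := by
    linear_combination - A * e3 + p * e2 - r * e1
  have x0' := (mul_eq_zero.1 x0).resolve_right hpf'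
  have x1' := (mul_eq_zero.1 x1).resolve_right hpf'
  have y0' := (mul_eq_zero.1 y0).resolve_right hpf'
  have y1' := (mul_eq_zero.1 y1).resolve_right hpf'
  rw [span4 u, x0', x1', y0', y1']
  simp

lemma hE_ne : hE 0 ≠ 0 := by
  intro h
  have := congrArg (fun w : E2 × E2 => w.1 0) h
  simp [hE, eb] at this

lemma pf_ne_zero {B : E2 × E2 →L[ℝ] E2 × E2 →L[ℝ] ℝ} (hB : ∀ v w, B v w = - B w v)
    (hnd : ∀ u, (∀ v, B u v = 0) → u = 0) : pf B ≠ 0 := by
  intro hpf
  have ex : ∀ v w, B v w = v.1 0 * (w.1 1 * B (hE 0) (hE 1) + w.2 0 * B (hE 0) (vE 0) +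
      w.2 1 * B (hE 0) (vE 1)) + v.1 1 * (- w.1 0 * B (hE 0) (hE 1) + w.2 0 * B (hE 1) (vE 0) +
      w.2 1 * B (hE 1) (vE 1)) + v.2 0 * (- w.1 0 * B (hE 0) (vE 0) - w.1 1 * B (hE 1) (vE 0) +
      w.2 1 * B (vE 0) (vE 1)) + v.2 1 * (- w.1 0 * B (hE 0) (vE 1) - w.1 1 * B (hE 1) (vE 1) -
      w.2 0 * B (vE 0) (vE 1)) := by
    intro v w
    conv_lhs => rw [span4 v, span4 w]
    simp only [map_add, map_smul, add_apply, smul_apply, smul_eq_mul]
    rw [self_zero hB, self_zero hB, self_zero hB, self_zero hB, hB (hE 1) (hE 0),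
      hB (vE 0) (hE 0), hB (vE 1) (hE 0), hB (vE 0) (hE 1), hB (vE 1) (hE 1), hB (vE 1) (vE 0)]
    ring
  unfold pf at hpf
  set A := B (hE 0) (hE 1)
  set D := B (vE 0) (vE 1)
  set p := B (hE 0) (vE 0)
  set q := B (hE 0) (vE 1)
  set r := B (hE 1) (vE 0)
  set s := B (hE 1) (vE 1)
  have comp : ∀ (a b c d : ℝ), (a • hE 0 + b • hE 1 + c • vE 0 + d • vE 1 : E2 × E2) = 0 →
      a = 0 ∧ b = 0 ∧ c = 0 ∧ d = 0 := by
    intro a b c d h
    have h1 := congrArg (fun w : E2 × E2 => w.1 0) h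
    have h2 := congrArg (fun w : E2 × E2 => w.1 1) h
    have h3 := congrArg (fun w : E2 × E2 => w.2 0) h
    have h4 := congrArg (fun w : E2 × E2 => w.2 1) h
    simp [hE, vE, eb] at h1 h2 h3 h4
    exact ⟨h1, h2, h3, h4⟩
  have cc : ∀ (a b c d : ℝ), let w : E2 × E2 := a • hE 0 + b • hE 1 + c • vE 0 + d • vE 1
      w.1 0 = a ∧ w.1 1 = b ∧ w.2 0 = c ∧ w.2 1 = d := by
    intro a b c d
    simp [hE, vE, eb]
  have n1 : ((0 : ℝ) • hE 0 + D • hE 1 + (-s) • vE 0 + r • vE 1 : E2 × E2) = 0 := by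
    apply hnd
    intro w
    obtain ⟨h1, h2, h3, h4⟩ := cc 0 D (-s) r
    rw [ex, h1, h2, h3, h4]
    linear_combination (-w.1 0) * hpf
  have n2 : ((-D) • hE 0 + (0 : ℝ) • hE 1 + q • vE 0 + (-p) • vE 1 : E2 × E2) = 0 := by
    apply hnd
    intro w
    obtain ⟨h1, h2, h3, h4⟩ := cc (-D) 0 q (-p)
    rw [ex, h1, h2, h3, h4]
    linear_combination (-w.1 1) * hpf
  have n3 : (s • hE 0 + (-q) • hE 1 + (0 : ℝ) • vE 0 + A • vE 1 : E2 × E2) = 0 := by
    apply hnd
    intro w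
    obtain ⟨h1, h2, h3, h4⟩ := cc s (-q) 0 A
    rw [ex, h1, h2, h3, h4]
    linear_combination (-w.2 0) * hpf
  obtain ⟨-, hD, hs, hr⟩ := comp _ _ _ _ n1
  obtain ⟨-, -, hq, hp⟩ := comp _ _ _ _ n2
  obtain ⟨-, -, -, hA⟩ := comp _ _ _ _ n3
  apply hE_ne
  apply hnd
  intro w
  rw [ex]
  have hs' : s = 0 := by linarith
  have hp' : p = 0 := by linarith
  rw [hA, hD, hs', hr, hq, hp']
  ring

/-- the ratio of two alternating forms in the plane -/
def ratio (B τ : E2 →L[ℝ] E2 →L[ℝ] ℝ) : ℝ := B (eb 0) (eb 1) / τ (eb 0) (eb 1)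

lemma two_form_plane' (B : E2 →L[ℝ] E2 →L[ℝ] ℝ) (hB : ∀ v w, B v w = - B w v) (v w : E2) :
    B v w = B (eb 0) (eb 1) * (v 0 * w 1 - v 1 * w 0) := two_form_plane B hB v w

lemma ratio_mul {B τ : E2 →L[ℝ] E2 →L[ℝ] ℝ} (hB : ∀ v w, B v w = - B w v)
    (hτ : ∀ v w, τ v w = - τ w v) (h0 : τ (eb 0) (eb 1) ≠ 0) (v w : E2) :
    B v w = ratio B τ * τ v w := by
  rw [two_form_plane' B hB, two_form_plane' τ hτ v w, ratio]
  field_simp

lemma ratio_eq {B τ : E2 →L[ℝ] E2 →L[ℝ] ℝ} (hB : ∀ v w, B v w = - B w v)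
    (hτ : ∀ v w, τ v w = - τ w v) {v w : E2} (h : τ v w ≠ 0) :
    B v w / τ v w = ratio B τ := by
  have h0 : τ (eb 0) (eb 1) ≠ 0 := by
    intro h1
    apply h
    rw [two_form_plane' τ hτ, h1, zero_mul]
  rw [ratio_mul hB hτ h0 v w]
  field_simp

lemma ne_of_nondeg {τ : E2 →L[ℝ] E2 →L[ℝ] ℝ} (hτ : ∀ v w, τ v w = - τ w v)
    (hnd : ∀ u, (∀ v, τ u v = 0) → u = 0) : τ (eb 0) (eb 1) ≠ 0 := by
  intro h
  have : eb 0 = 0 := by
    apply hnd
    intro v
    rw [two_form_plane' τ hτ, h, zero_mul]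
  have := congrArg (fun w : E2 => w 0) this
  simp [eb] at this

/-- The positivity of the Pfaffian of the linear family. -/
lemma pf_pos {P v h δ K C lam a κ F : ℝ} (hP : 0 < P) (hδ : 0 < δ) (hv : δ ≤ v) (hK : -K ≤ h)
    (hK0 : 0 ≤ K) (hF : 0 ≤ F) (hhF : F ≠ 0 → 0 ≤ h) (hlam : 0 < lam) (hC1 : 2 * K ≤ C * lam)
    (hC2 : 2 * K ≤ C * (δ * lam)) (ha : 0 ≤ a) (hκ : 0 ≤ κ) (haκ : a + κ = 1) (hC0 : 0 ≤ C) :
    0 < a ^ 2 * P + a * κ * (h * (1 + C * a * F) + v * (lam * (1 + C * a))) +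
      κ ^ 2 * (lam * (1 + C * a)) * (1 + C * a * F) := by
  have hv0 : 0 < v := lt_of_lt_of_le hδ hv
  have hCa : 0 ≤ C * a := mul_nonneg hC0 ha
  have hCaF : 0 ≤ C * a * F := mul_nonneg hCa hF
  rcases eq_or_lt_of_le hκ with h0 | h0
  · rw [← h0] at haκ ⊢
    have : a = 1 := by linarith
    rw [this]
    simpa using hP
  · have h3 : 0 < κ ^ 2 * (lam * (1 + C * a)) * (1 + C * a * F) := by positivity
    have h1 : 0 ≤ a ^ 2 * P := by positivity
    by_cases hF0 : F = 0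
    · rw [hF0]
      -- main estimate
      have key : 0 ≤ a * (h + v * (lam * (C * a))) + κ * (lam * (C * a)) := by
        rcases le_or_gt (1 / 2) a with h2 | h2
        · have e1 : K ≤ v * (lam * (C * a)) := by
            have e2 : δ * (lam * (C * a)) ≤ v * (lam * (C * a)) :=
              mul_le_mul_of_nonneg_right hv (by positivity)
            have e3 : 2 * K * a ≤ C * (δ * lam) * a := mul_le_mul_of_nonneg_right hC2 ha
            nlinarith
          have e4 : 0 ≤ h + v * (lam * (C * a)) := by linarith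
          positivity
        · have hκ2 : 1 / 2 ≤ κ := by linarith
          have e1 : 0 ≤ a * (v * (lam * (C * a))) := by positivity
          have e2 : K * a ≤ κ * (lam * (C * a)) := by
            have e3 : 2 * K * a ≤ C * lam * a := mul_le_mul_of_nonneg_right hC1 ha
            have e4 : (C * lam * a) * (1 / 2) ≤ (C * lam * a) * κ :=
              mul_le_mul_of_nonneg_left hκ2 (by positivity)
            nlinarith
          have e5 : -K * a ≤ h * a := mul_le_mul_of_nonneg_right hK ha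
          nlinarith
      have e : a ^ 2 * P + a * κ * (h * (1 + C * a * 0) + v * (lam * (1 + C * a))) +
          κ ^ 2 * (lam * (1 + C * a)) * (1 + C * a * 0) = a ^ 2 * P +
          κ * (a * (h + v * (lam * (C * a))) + κ * (lam * (C * a))) + a * κ * (v * lam) +
          κ ^ 2 * lam := by ring
      rw [e]
      have e6 : 0 ≤ κ * (a * (h + v * (lam * (C * a))) + κ * (lam * (C * a))) :=
        mul_nonneg hκ key
      have e7 : 0 ≤ a * κ * (v * lam) := by positivity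
      have e8 : 0 < κ ^ 2 * lam := by positivity
      linarith
    · have hh := hhF hF0
      have h2 : 0 ≤ a * κ * (h * (1 + C * a * F) + v * (lam * (1 + C * a))) := by positivity
      linarith

end Pool.Agent.Helper500_SM
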