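import Mathlib
import Pool.Agent.Helper500_SM.Sph

/-! The exterior derivative of the rotationally symmetric one-form on the sphere. -/

open scoped Topology ContDiff Manifold
open Set Metric Bundle

noncomputable section

namespace Pool.Agent.Helper500_SM

open Pool.Agent.Helper186

set_option linter.unusedSectionVars false

/-- scalar product as a linear form -/
def dotL (y : E3) : E3 →L[ℝ] ℝ :=
  y 0 • EuclideanSpace.proj (0 : Fin 3) + y 1 • EuclideanSpace.proj (1 : Fin 3) +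
    y 2 • EuclideanSpace.proj (2 : Fin 3)

lemma dotL_apply (y x : E3) : dotL y x = dot3 y x := rfl

lemma dot3_comm (a b : E3) : dot3 a b = dot3 b a := by
  simp only [dot3]; ring

lemma extDer_gam {k : ℝ → ℝ} (hk : ContDiff ℝ ∞ k) {y : E3} (hy : dot3 y y = 1) (x : S2)
    (u v : TangentSpace (𝓡 2) x) :
    extDer (𝓡 2) (gam k y) x u v = (2 * k (dot3 y x) * dot3 y x -
      deriv k (dot3 y x) * (1 - dot3 y x ^ 2)) * sphArea x u v := by
  set ψ := extChartAt (𝓡 2) x with hψ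
  have hψo : IsOpen ψ.target := isOpen_extChartAt_target x
  have hψs : ContMDiffOn 𝓘(ℝ, E2) (𝓡 2) ∞ ψ.symm ψ.target := contMDiffOn_extChartAt_symm x
  have hp : ψ x ∈ ψ.target := mem_extChartAt_target x
  have hsym : ψ.symm (ψ x) = x := ψ.left_inv (mem_extChartAt_source x)
  -- the map to space
  set s : E2 → E3 := fun q => ((ψ.symm q : S2) : E3) with hs
  have hcoe : ContMDiff (𝓡 2) 𝓘(ℝ, E3) ∞ (fun z : S2 => (z : E3)) := contMDiff_coe_sphere
  have hsm : ∀ q ∈ ψ.target, ContDiffAt ℝ ∞ s q := by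
    intro q hq
    rw [← contMDiffAt_iff_contDiffAt]
    exact (hcoe _).comp q (hψs.contMDiffAt (hψo.mem_nhds hq))
  have hds : ∀ q ∈ ψ.target, ∀ c : E2, iota (ψ.symm q) (mfderiv 𝓘(ℝ, E2) (𝓡 2) ψ.symm q c) =
      fderiv ℝ s q c := by
    intro q hq c
    have h1 := mfderiv_comp (I := 𝓘(ℝ, E2)) (I' := 𝓡 2) (I'' := 𝓘(ℝ, E3)) q
      (hcoe.mdifferentiableAt (by simp) (x := ψ.symm q))
      ((hψs.contMDiffAt (hψo.mem_nhds hq)).mdifferentiableAt (by simp))
    rw [mfderiv_eq_fderiv] at h1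
    exact (DFunLike.congr_fun h1 c).symm
  have hG : ∀ c : E2, (fun q => gam k y (ψ.symm q) (mfderiv 𝓘(ℝ, E2) (𝓡 2) ψ.symm q c)) =ᶠ[𝓝 (ψ x)]
      fun q => k (dotL y (s q)) / (4 * Real.pi) * detB y (s q) (fderiv ℝ s q c) := by
    intro c
    filter_upwards [hψo.mem_nhds hp] with q hq
    rw [gam_apply, hds q hq, detB_apply]
    rfl
  have hs1 : HasFDerivAt s (fderiv ℝ s (ψ x)) (ψ x) :=
    ((hsm _ hp).differentiableAt (by simp)).hasFDerivAt
  have hs2 : ∀ c, HasFDerivAt (fun q => fderiv ℝ s q c)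
      ((ContinuousLinearMap.apply ℝ E3 c).comp (fderiv ℝ (fderiv ℝ s) (ψ x))) (ψ x) := by
    intro c
    have h2 : HasFDerivAt (fderiv ℝ s) (fderiv ℝ (fderiv ℝ s) (ψ x)) (ψ x) :=
      (((hsm _ hp).fderiv_right (m := ∞) (by simp)).differentiableAt (by simp)).hasFDerivAt
    exact (ContinuousLinearMap.apply ℝ E3 c).hasFDerivAt.comp (ψ x) h2
  have hsymm : ∀ a b, fderiv ℝ (fderiv ℝ s) (ψ x) a b = fderiv ℝ (fderiv ℝ s) (ψ x) b a := by
    intro a b
    have := (hsm _ hp).isSymmSndFDerivAt (by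
      simp only [minSmoothness_of_isRCLikeNormedField]; exact ENat.LEInfty.out)
    exact this a b
  have hkd : HasDerivAt k (deriv k (dotL y (s (ψ x)))) (dotL y (s (ψ x))) :=
    ((hk.differentiable (by simp)) _).hasDerivAt
  have hk1 : HasFDerivAt (fun q => k (dotL y (s q)) / (4 * Real.pi))
      ((1 / (4 * Real.pi)) • (deriv k (dotL y (s (ψ x))) •
        ((dotL y).comp (fderiv ℝ s (ψ x))))) (ψ x) := by
    have h1 := hkd.comp_hasFDerivAt (ψ x) ((dotL y).hasFDerivAt.comp (ψ x) hs1)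
    have h2 := h1.const_mul (1 / (4 * Real.pi))
    refine h2.congr_of_eventuallyEq (Filter.Eventually.of_forall fun q => ?_)
    simp only [Function.comp]
    ring
  have hd1 : ∀ c, HasFDerivAt (fun q => detB y (s q) (fderiv ℝ s q c)) _ (ψ x) := fun c =>
    ((detB y).hasFDerivAt.comp (ψ x) hs1).clm_apply (hs2 c)
  have hmain : ∀ a c : E2, fderiv ℝ (fun q => gam k y (ψ.symm q)
      (mfderiv 𝓘(ℝ, E2) (𝓡 2) ψ.symm q c)) (ψ x) a =
      k (dot3 y x) / (4 * Real.pi) * (det3 y (fderiv ℝ s (ψ x) a) (fderiv ℝ s (ψ x) c) +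
        det3 y x (fderiv ℝ (fderiv ℝ s) (ψ x) a c)) +
      det3 y x (fderiv ℝ s (ψ x) c) * (1 / (4 * Real.pi) *
        (deriv k (dot3 y x) * dot3 y (fderiv ℝ s (ψ x) a))) := by
    intro a c
    rw [(hG c).fderiv_eq]
    have h1 := (hk1.mul (hd1 c)).fderiv
    refine (congrArg (fun L : E2 →L[ℝ] ℝ => L a) h1).trans ?_
    have hsx : s (ψ x) = (x : E3) := by rw [hs]; simp only [hsym]
    simp only [add_apply, smul_apply, ContinuousLinearMap.comp_apply,
      ContinuousLinearMap.flip_apply, detB_apply, dotL_apply, smul_eq_mul,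
      ContinuousLinearMap.apply_apply, Function.comp, hsx]
    ring
  have h1 := extDer_pullback (smoothForm_gam hk y) hψo hψs hp (u : E2) (v : E2)
  rw [hmain, hmain] at h1
  have hiu : ∀ w : E2, fderiv ℝ s (ψ x) w = iota x w := by
    intro w
    rw [← hds _ hp]
    have e4 : ∀ (x' : S2) (hx' : x' = x) (w' : TangentSpace (𝓡 2) x') (hw : (w' : E2) = w),
        iota x' w' = iota x w := by
      rintro x' rfl w' rfl
      rfl
    exact e4 _ hsym _ (mfderiv_extChartAt_symm_self x w)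
  have hl : extDer (𝓡 2) (gam k y) (ψ.symm (ψ x)) (mfderiv 𝓘(ℝ, E2) (𝓡 2) ψ.symm (ψ x) u)
      (mfderiv 𝓘(ℝ, E2) (𝓡 2) ψ.symm (ψ x) v) = extDer (𝓡 2) (gam k y) x u v := by
    have e4 : ∀ (x' : S2) (hx' : x' = x) (w w' : TangentSpace (𝓡 2) x') (hw : (w : E2) = u)
        (hw' : (w' : E2) = v), extDer (𝓡 2) (gam k y) x' w w' = extDer (𝓡 2) (gam k y) x u v := by
      rintro x' rfl w w' rfl rfl
      rfl
    exact e4 _ hsym _ _ (mfderiv_extChartAt_symm_self (E' := E2) x u)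
      (mfderiv_extChartAt_symm_self (E' := E2) x v)
  rw [← hl, h1, hiu, hiu, hsymm u v, sphArea_apply]
  have hxx := dot_self_of_mem x.2
  have e1 := det_tangent (x := y) hxx (dot_iota x u) (dot_iota x v)
  have e2 := det_tangent2 hxx hy (dot_iota x u) (dot_iota x v)
  have e3 : det3 y (iota x v) (iota x u) = - det3 y (iota x u) (iota x v) := det3_swap _ _ _
  rw [dot3_comm (x : E3) y] at e1 e2
  rw [e3, e1]
  have hpi : (4 * Real.pi) ≠ 0 := by positivity
  field_simp
  linear_combination (deriv k (dot3 y x)) * e2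

end Pool.Agent.Helper500_SM
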