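import Mathlib
import Pool.Agent.Helper500_SM.Gam

/-! The profile functions and spherical caps. -/

open scoped Topology ContDiff Manifold
open Set Metric Bundle

noncomputable section

namespace Pool.Agent.Helper500_SM

/-- the coefficient of the exterior derivative, plus one -/
def Fk (k : ℝ → ℝ) (h : ℝ) : ℝ := 1 + 2 * k h * h - deriv k h * (1 - h ^ 2)

lemma exists_k {ε : ℝ} (hε : 0 < ε) : ∃ k : ℝ → ℝ, ContDiff ℝ ∞ k ∧
    (∀ h, -1 ≤ h → h ≤ 1 → 0 ≤ Fk k h) ∧ (∀ h, h < 1 - 2 * ε → Fk k h = 0) := by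
  set χ : ℝ → ℝ := fun h => Real.smoothTransition ((1 - ε - h) / ε) with hχ
  have hχs : ContDiff ℝ ∞ χ := Real.smoothTransition.contDiff.comp
    ((contDiff_const.sub contDiff_id).div_const ε)
  have hχ0 : ∀ h, 1 - ε ≤ h → χ h = 0 := by
    intro h hh
    apply Real.smoothTransition.zero_of_nonpos
    apply div_nonpos_of_nonpos_of_nonneg (by linarith) hε.le
  have hχ1 : ∀ h, h ≤ 1 - 2 * ε → χ h = 1 := by
    intro h hh
    apply Real.smoothTransition.one_of_one_le
    rw [le_div_iff₀ hε]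
    linarith
  have hχa : Antitone χ := by
    intro a b hab
    apply Real.smoothTransition.monotone
    apply div_le_div_of_nonneg_right _ hε.le
    linarith
  have hχd : ∀ h, deriv χ h ≤ 0 := fun h => hχa.deriv_nonpos
  set k : ℝ → ℝ := fun h => χ h / (1 - h) with hk
  have hk0 : ∀ h, 1 - ε < h → k =ᶠ[𝓝 h] fun _ => 0 := by
    intro h hh
    filter_upwards [lt_mem_nhds hh] with h' hh'
    rw [hk]
    simp only
    rw [hχ0 h' hh'.le, zero_div]
  have hks : ContDiff ℝ ∞ k := by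
    rw [contDiff_iff_contDiffAt]
    intro h
    rcases lt_or_ge h 1 with h1 | h1
    · exact hχs.contDiffAt.div (contDiffAt_const.sub contDiffAt_id) (sub_ne_zero.2 h1.ne')
    · exact contDiffAt_const.congr_of_eventuallyEq (hk0 h (by linarith))
  have hF : ∀ h, h < 1 → Fk k h = 1 - χ h - (1 + h) * deriv χ h := by
    intro h h1
    have e1 : HasDerivAt χ (deriv χ h) h := (hχs.differentiable (by simp) h).hasDerivAt
    have e2 : HasDerivAt (fun h : ℝ => 1 - h) (-1) h := by
      simpa using (hasDerivAt_id h).const_sub 1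
    have hne : (1 - h) ≠ 0 := by linarith
    have e3 := (e1.fun_div e2 hne).deriv
    unfold Fk
    rw [e3]
    simp only [hk]
    field_simp
    ring
  refine ⟨k, hks, fun h h1 h2 => ?_, fun h h1 => ?_⟩
  · rcases lt_or_eq_of_le h2 with h3 | h3
    · rw [hF h h3]
      have e1 : χ h ≤ 1 := Real.smoothTransition.le_one _
      have e2 := hχd h
      have e3 : (1 + h) * deriv χ h ≤ 0 := mul_nonpos_of_nonneg_of_nonpos (by linarith) e2
      linarith
    · have e1 := hk0 h (by linarith)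
      unfold Fk
      rw [e1.deriv_eq, e1.eq_of_nhds]
      simp
  · rw [hF h (by linarith), hχ1 h h1.le]
    have e1 : χ =ᶠ[𝓝 h] fun _ => 1 := by
      filter_upwards [gt_mem_nhds h1] with h' hh'
      exact hχ1 h' hh'.le
    rw [e1.deriv_eq]
    simp

lemma dist_sq_S2 (x y : S2) : dist x y ^ 2 = 2 - 2 * dot3 y x := by
  have h1 : dist x y = ‖(x : E3) - y‖ := by
    rw [Subtype.dist_eq, dist_eq_norm]
  rw [h1, ← real_inner_self_eq_norm_sq, inner_eq_dot]
  have h2 := dot_self_of_mem x.2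
  have h3 := dot_self_of_mem y.2
  simp only [dot3, PiLp.sub_apply] at *
  linear_combination h2 + h3

lemma exists_cap (y : S2) {V : Set S2} (hV : V ∈ 𝓝 y) :
    ∃ ε : ℝ, 0 < ε ∧ ∀ x : S2, 1 - 2 * ε ≤ dot3 y x → x ∈ V := by
  obtain ⟨r, hr, hrV⟩ := Metric.mem_nhds_iff.1 hV
  refine ⟨r ^ 2 / 8, by positivity, fun x hx => hrV ?_⟩
  rw [mem_ball]
  have h1 := dist_sq_S2 x y
  have h2 : dist x y ^ 2 < r ^ 2 := by
    rw [h1]
    nlinarith [sq_pos_of_pos hr]
  exact lt_of_pow_lt_pow_left₀ 2 hr.le h2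

lemma abs_dot_le (y x : S2) : -1 ≤ dot3 y x ∧ dot3 y x ≤ 1 := by
  have h := abs_real_inner_le_norm (y : E3) (x : E3)
  have h1 : ‖(y : E3)‖ = 1 := by simp
  have h2 : ‖(x : E3)‖ = 1 := by simp
  rw [h1, h2, inner_eq_dot, abs_le] at h
  simpa using h

end Pool.Agent.Helper500_SM
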