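import Mathlib
import Pool.Agent.Helper500_SM.Surf
import Pool.Agent.Helper186.DForms

/-! Pull backs of two-forms. -/

open scoped Topology ContDiff Manifold
open Set Metric Bundle

noncomputable section

namespace Pool.Agent.Helper500_SM

open Pool.Agent.Helper186

set_option linter.unusedSectionVars false

universe u

variable {E : Type u} [NormedAddCommGroup E] [NormedSpace ℝ E] [FiniteDimensional ℝ E]
  {H : Type*} [TopologicalSpace H] {I : ModelWithCorners ℝ E H} [I.Boundaryless]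
  {M : Type*} [TopologicalSpace M] [ChartedSpace H M] [IsManifold I ∞ M]
  {F : Type u} [NormedAddCommGroup F] [NormedSpace ℝ F] [FiniteDimensional ℝ F]
  {H' : Type*} [TopologicalSpace H'] {J : ModelWithCorners ℝ F H'} [J.Boundaryless]
  {X : Type*} [TopologicalSpace X] [ChartedSpace H' X] [IsManifold J ∞ X]

variable (I J) in
/-- The pull back of a two-form on `X` by a map `f : M → X`. -/
def pull2 (f : M → X) (β : (x : X) → TangentSpace J x →L[ℝ] TangentSpace J x →L[ℝ] ℝ) (x : M) :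
    TangentSpace I x →L[ℝ] TangentSpace I x →L[ℝ] ℝ :=
  pullE (F := F) (G := E) (β (f x)) (mfderiv I J f x)

lemma pull2_apply (f : M → X) (β : (x : X) → TangentSpace J x →L[ℝ] TangentSpace J x →L[ℝ] ℝ)
    (x : M) (u v : TangentSpace I x) :
    pull2 I J f β x u v = β (f x) (mfderiv I J f x u) (mfderiv I J f x v) := rfl

lemma Sm2.pull2 {f : M → X} (hf : ContMDiff I J ∞ f)
    {β : (x : X) → TangentSpace J x →L[ℝ] TangentSpace J x →L[ℝ] ℝ} (hβ : Sm2 β) :
    Sm2 (pull2 I J f β) := by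
  intro x₀ u v hu hv
  have h1 : ContMDiff I.tangent J.tangent ∞ (tangentMap I J f) := hf.contMDiff_tangentMap (by simp)
  exact SmoothBilinAt.comp (f := fun x : X => x) (g := f) contMDiffAt_id (hβ (f x₀)) (hf x₀) _ _
    ((h1 _).comp x₀ hu) ((h1 _).comp x₀ hv)

lemma ClosedP.pull2 {f : M → X} (hf : ContMDiff I J ∞ f)
    {β : (x : X) → TangentSpace J x →L[ℝ] TangentSpace J x →L[ℝ] ℝ} (hβ : ClosedP β) :
    ClosedP (pull2 I J f β) := by
  intro P _ _ U S hU hS p hp a b c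
  have h := hβ P U (fun q => f (S q)) hU (hf.comp_contMDiffOn hS) p hp a b c
  have e : ∀ q ∈ U, ∀ d : P, mfderiv 𝓘(ℝ, P) J (fun q => f (S q)) q d =
      mfderiv I J f (S q) (mfderiv 𝓘(ℝ, P) I S q d) := by
    intro q hq d
    have h3 := mfderiv_comp (I := 𝓘(ℝ, P)) (I' := I) (I'' := J) q
      (hf.mdifferentiableAt (by simp) (x := S q))
      ((hS.contMDiffAt (hU.mem_nhds hq)).mdifferentiableAt (by simp))
    exact DFunLike.congr_fun h3 d
  have k : ∀ b c : P, (fun q => β (f (S q)) (mfderiv 𝓘(ℝ, P) J (fun q => f (S q)) q b)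
      (mfderiv 𝓘(ℝ, P) J (fun q => f (S q)) q c)) =ᶠ[𝓝 p] fun q =>
      Helper500_SM.pull2 I J f β (S q) (mfderiv 𝓘(ℝ, P) I S q b) (mfderiv 𝓘(ℝ, P) I S q c) := by
    intro b c
    filter_upwards [hU.mem_nhds hp] with q hq
    rw [e q hq b, e q hq c]
    rfl
  rw [(k b c).fderiv_eq, (k c a).fderiv_eq, (k a b).fderiv_eq] at h
  exact h

lemma extDerL_pull {f : M → X} (hf : ContMDiff I J ∞ f)
    {γ : (x : X) → TangentSpace J x →L[ℝ] ℝ} (hγ : SmoothForm γ) (x : M) :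
    extDerL I (pullForm J I f γ) x = pull2 I J f (extDerL J γ) x := by
  refine ContinuousLinearMap.ext fun u => ContinuousLinearMap.ext fun v => ?_
  rw [extDerL_apply, extDer_pull hf hγ, pull2_apply, extDerL_apply]

section add

variable {β β' : (x : M) → TangentSpace I x →L[ℝ] TangentSpace I x →L[ℝ] ℝ}

lemma Sm2.add (h : Sm2 β) (h' : Sm2 β') : Sm2 (fun x => β x + β' x) :=
  fun x₀ => SmoothBilinAt.add (h x₀) (h' x₀)

lemma Sm2.const_smul (h : Sm2 β) (c : ℝ) : Sm2 (fun x => c • β x) :=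
  fun x₀ => SmoothBilinAt.smul contMDiffAt_const (h x₀)

lemma Sm2.push (hβ : Sm2 β) {P : Type*} [NormedAddCommGroup P] [NormedSpace ℝ P] {S : P → M}
    {U : Set P} (hU : IsOpen U) (hS : ContMDiffOn 𝓘(ℝ, P) I ∞ S U) {p : P} (hp : p ∈ U) (b c : P) :
    ContDiffAt ℝ ∞ (fun q => β (S q) (mfderiv 𝓘(ℝ, P) I S q b)
      (mfderiv 𝓘(ℝ, P) I S q c)) p := by
  rw [← contMDiffAt_iff_contDiffAt]
  exact SmoothBilinAt.comp (g := S) (f := fun x : M => x)
    contMDiffAt_id (hβ (S p)) (hS.contMDiffAt (hU.mem_nhds hp)) _ _ (contMDiffAt_push hU hS hp b)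
    (contMDiffAt_push hU hS hp c)

lemma ClosedP.add (h : ClosedP β) (h' : ClosedP β') (hs : Sm2 β) (hs' : Sm2 β') :
    ClosedP (fun x => β x + β' x) := by
  intro P _ _ U S hU hS p hp a b c
  have e1 := h P U S hU hS p hp a b c
  have e2 := h' P U S hU hS p hp a b c
  have d1 : ∀ b c : P, DifferentiableAt ℝ (fun q => β (S q) (mfderiv 𝓘(ℝ, P) I S q b)
      (mfderiv 𝓘(ℝ, P) I S q c)) p := fun b c =>
    (hs.push hU hS hp b c).differentiableAt (by simp)
  have d2 : ∀ b c : P, DifferentiableAt ℝ (fun q => β' (S q) (mfderiv 𝓘(ℝ, P) I S q b)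
      (mfderiv 𝓘(ℝ, P) I S q c)) p := fun b c =>
    (hs'.push hU hS hp b c).differentiableAt (by simp)
  have k : ∀ b c : P, fderiv ℝ (fun q => (β (S q) + β' (S q)) (mfderiv 𝓘(ℝ, P) I S q b)
      (mfderiv 𝓘(ℝ, P) I S q c)) p = fderiv ℝ (fun q => β (S q) (mfderiv 𝓘(ℝ, P) I S q b)
      (mfderiv 𝓘(ℝ, P) I S q c)) p + fderiv ℝ (fun q => β' (S q) (mfderiv 𝓘(ℝ, P) I S q b)
      (mfderiv 𝓘(ℝ, P) I S q c)) p := fun b c =>
    HasFDerivAt.fderiv ((d1 b c).hasFDerivAt.add (d2 b c).hasFDerivAt)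
  rw [k, k, k]
  simp only [add_apply] at e1 e2 ⊢
  linarith

lemma ClosedP.const_smul (h : ClosedP β) (hs : Sm2 β) (t : ℝ) :
    ClosedP (fun x => t • β x) := by
  intro P _ _ U S hU hS p hp a b c
  have e1 := h P U S hU hS p hp a b c
  have d1 : ∀ b c : P, DifferentiableAt ℝ (fun q => β (S q) (mfderiv 𝓘(ℝ, P) I S q b)
      (mfderiv 𝓘(ℝ, P) I S q c)) p := fun b c =>
    (hs.push hU hS hp b c).differentiableAt (by simp)
  have k : ∀ b c : P, fderiv ℝ (fun q => (t • β (S q)) (mfderiv 𝓘(ℝ, P) I S q b)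
      (mfderiv 𝓘(ℝ, P) I S q c)) p = t • fderiv ℝ (fun q => β (S q) (mfderiv 𝓘(ℝ, P) I S q b)
      (mfderiv 𝓘(ℝ, P) I S q c)) p := fun b c =>
    HasFDerivAt.fderiv ((d1 b c).hasFDerivAt.const_mul t)
  rw [k, k, k]
  simp only [smul_apply, smul_eq_mul] at e1 ⊢
  linear_combination t * e1

end add

end Pool.Agent.Helper500_SM
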