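import Mathlib
import Pool.Agent.Helper500_SM.CritA

/-! The soft criterion for symplectic isotopies. -/

open scoped Topology ContDiff Manifold
open Set Metric Bundle

noncomputable section

namespace Pool.Agent.Helper500_SM

open Pool.Agent.Helper186

set_option linter.unusedSectionVars false

universe u

variable {E : Type u} [NormedAddCommGroup E] [NormedSpace ℝ E] [FiniteDimensional ℝ E]
  {H : Type*} [TopologicalSpace H] {I : ModelWithCorners ℝ E H} [I.Boundaryless]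
  {M : Type*} [TopologicalSpace M] [ChartedSpace H M] [IsManifold I ∞ M]

/-- the linear family -/
def WW (om : (x : M) → TangentSpace I x →L[ℝ] TangentSpace I x →L[ℝ] ℝ) (phi : ℝ × M → M)
    (D : ℝ → (x : M) → TangentSpace I x →L[ℝ] TangentSpace I x →L[ℝ] ℝ) (c₁ c₂ : ℝ → ℝ)
    (s r : ℝ) (x : M) : TangentSpace I x →L[ℝ] TangentSpace I x →L[ℝ] ℝ :=
  (1 - c₁ r) • om x + (c₁ r • pullT om phi s x + c₂ r • D s x)

/-- its primitive -/
def AA (om : (x : M) → TangentSpace I x →L[ℝ] TangentSpace I x →L[ℝ] ℝ) (phi : ℝ × M → M)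
    (G : ℝ → (x : M) → TangentSpace I x →L[ℝ] ℝ) (c₁ c₂ : ℝ → ℝ)
    (s r : ℝ) (x : M) : TangentSpace I x →L[ℝ] ℝ :=
  (1 - c₁ r) • (0 : TangentSpace I x →L[ℝ] ℝ) + (c₁ r • contrT om phi s x + c₂ r • G s x)

lemma SmT2.lift3 {W : ℝ → (x : M) → TangentSpace I x →L[ℝ] TangentSpace I x →L[ℝ] ℝ}
    (hW : SmT2 W) {c : ℝ → ℝ} (hc : ContDiff ℝ ∞ c) (p₀ : ℝ × (ℝ × M)) :
    SmoothBilinAt (𝓘(ℝ, ℝ).prod (𝓘(ℝ, ℝ).prod I))
      (fun p : ℝ × (ℝ × M) => p.2.2) (fun p => c p.2.1 • W p.1 p.2.2) p₀ := by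
  refine SmoothBilinAt.smul ?_ ?_
  · exact (hc.contMDiff.comp (contMDiff_fst.comp contMDiff_snd)) p₀
  · exact SmoothBilinAt.comp (f := fun p : ℝ × M => p.2)
      (g := fun p : ℝ × (ℝ × M) => (p.1, p.2.2)) contMDiffAt_snd (hW (p₀.1, p₀.2.2))
      ((contMDiff_fst.prodMk (contMDiff_snd.comp contMDiff_snd)) p₀)

lemma SmT1.lift3 {A : ℝ → (x : M) → TangentSpace I x →L[ℝ] ℝ}
    (hA : SmT1 A) {c : ℝ → ℝ} (hc : ContDiff ℝ ∞ c) (p₀ : ℝ × (ℝ × M)) :
    SmoothLinAt (𝓘(ℝ, ℝ).prod (𝓘(ℝ, ℝ).prod I))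
      (fun p : ℝ × (ℝ × M) => p.2.2) (fun p => c p.2.1 • A p.1 p.2.2) p₀ := by
  refine SmoothLinAt.smul ?_ ?_
  · exact (hc.contMDiff.comp (contMDiff_fst.comp contMDiff_snd)) p₀
  · exact SmoothLinAt.comp (f := fun p : ℝ × M => p.2)
      (g := fun p : ℝ × (ℝ × M) => (p.1, p.2.2)) contMDiffAt_snd (hA (p₀.1, p₀.2.2))
      ((contMDiff_fst.prodMk (contMDiff_snd.comp contMDiff_snd)) p₀)

lemma pull_eq_of_id {om : (x : M) → TangentSpace I x →L[ℝ] TangentSpace I x →L[ℝ] ℝ}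
    {phi : ℝ × M → M} {s : ℝ} (h : ∀ x, phi (s, x) = x) (x : M) : pullT om phi s x = om x := by
  refine ContinuousLinearMap.ext fun u => ContinuousLinearMap.ext fun v => ?_
  rw [pullT_apply]
  exact form_congr2 om (DX_id h x u) (DX_id h x v)

/-- The derivative of a family that is constant in time. -/
lemma dS_zero {phi : ℝ × M → M} {s : ℝ} {x : M}
    (h : ∀ᶠ s' in 𝓝 s, phi (s', x) = phi (s, x)) : dS I phi s x = 0 := by
  have h1 : (fun s' => phi (s', x)) =ᶠ[𝓝 s] fun _ => phi (s, x) := h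
  have h2 : mfderiv 𝓘(ℝ, ℝ) I (fun s' => phi (s', x)) s =
      mfderiv 𝓘(ℝ, ℝ) I (fun _ : ℝ => phi (s, x)) s := h1.mfderiv_eq
  have h3 : mfderiv 𝓘(ℝ, ℝ) I (fun _ : ℝ => phi (s, x)) s = 0 := mfderiv_const
  exact DFunLike.congr_fun (h2.trans h3) (1 : ℝ)

lemma inv_pull {f g : ℝ × M → M} (hf : ContMDiff (𝓘(ℝ, ℝ).prod I) I ∞ f)
    (hg : ContMDiff (𝓘(ℝ, ℝ).prod I) I ∞ g) {s : ℝ} (hfg : ∀ x, f (s, g (s, x)) = x)
    {B B' : (x : M) → TangentSpace I x →L[ℝ] TangentSpace I x →L[ℝ] ℝ}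
    (h : ∀ x u v, B' (f (s, x)) (DX f s x u) (DX f s x v) = B x u v) (x : M)
    (u v : TangentSpace I x) : B (g (s, x)) (DX g s x u) (DX g s x v) = B' x u v := by
  rw [← h]
  have e : ∀ w : TangentSpace I x, (⟨f (s, g (s, x)), DX f s (g (s, x)) (DX g s x w)⟩ :
      TangentBundle I M) = ⟨x, w⟩ := by
    intro w
    have h2 := DX_id (f := fun q : ℝ × M => f (q.1, g q)) (s := s) hfg x w
    rw [← DX_comp hf hg]
    exact h2
  exact form_congr2 B' (e u) (e v)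

lemma comp_pull {f g : ℝ × M → M} (hf : ContMDiff (𝓘(ℝ, ℝ).prod I) I ∞ f)
    (hg : ContMDiff (𝓘(ℝ, ℝ).prod I) I ∞ g) {s : ℝ}
    {B₀ B₁ B₂ : (x : M) → TangentSpace I x →L[ℝ] TangentSpace I x →L[ℝ] ℝ}
    (h₁ : ∀ x u v, B₂ (f (s, x)) (DX f s x u) (DX f s x v) = B₁ x u v)
    (h₂ : ∀ x u v, B₁ (g (s, x)) (DX g s x u) (DX g s x v) = B₀ x u v) (x : M)
    (u v : TangentSpace I x) :
    B₂ (f (s, g (s, x))) (DX (fun q : ℝ × M => f (q.1, g q)) s x u)
      (DX (fun q : ℝ × M => f (q.1, g q)) s x v) = B₀ x u v := by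
  rw [DX_comp hf hg, DX_comp hf hg]
  exact (h₁ _ _ _).trans (h₂ _ _ _)

/-- **The soft criterion.** If a suitable linear family of two-forms is nondegenerate then the
end of the isotopy is symplectically isotopic to the identity. -/
theorem thmA [T2Space M] [CompactSpace M]
    {om : (x : M) → TangentSpace I x →L[ℝ] TangentSpace I x →L[ℝ] ℝ} (hom : Sm2 om)
    (hcl : ClosedP om) (halt : ∀ x v w, om x v w = - om x w v)
    {phi : ℝ × M → M} (hphi : ContMDiff (𝓘(ℝ, ℝ).prod I) I ∞ phi)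
    (h0 : ∀ s ≤ 0, ∀ x, phi (s, x) = x) (h1 : ∀ s, 1 ≤ s → ∀ x, phi (s, x) = phi (1, x))
    (hs : ∀ x, pullT om phi 1 x = om x)
    {D : ℝ → (x : M) → TangentSpace I x →L[ℝ] TangentSpace I x →L[ℝ] ℝ}
    {G : ℝ → (x : M) → TangentSpace I x →L[ℝ] ℝ} (hD : SmT2 D) (hG : SmT1 G) (hC : Cartan D G)
    {γ : (x : M) → TangentSpace I x →L[ℝ] ℝ} (hγ : SmoothForm γ)
    (hD0 : ∀ x, D 0 x = extDerL I γ x) (hD1 : ∀ x, D 1 x = extDerL I γ x)
    (hG0 : ∀ s, s ≤ 0 ∨ 1 ≤ s → ∀ x, G s x = 0)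
    {c₁ c₂ : ℝ → ℝ} (hc₁ : ContDiff ℝ ∞ c₁) (hc₂ : ContDiff ℝ ∞ c₂) (hc₁0 : c₁ 0 = 1)
    (hc₂0 : c₂ 0 = 0) (hc₁1 : ∀ r, 1 ≤ |r| → c₁ r = 0) (hc₂1 : ∀ r, 1 ≤ |r| → c₂ r = 0)
    (hnd : ∀ s r x u, (∀ v, WW om phi D c₁ c₂ s r x u v = 0) → u = 0) :
    ∃ Φ Φ' : ℝ × M → M, ContMDiff (𝓘(ℝ, ℝ).prod I) I ∞ Φ ∧
      ContMDiff (𝓘(ℝ, ℝ).prod I) I ∞ Φ' ∧ (∀ x, Φ (0, x) = x) ∧ (∀ x, Φ (1, x) = phi (1, x)) ∧
      (∀ s x, Φ' (s, Φ (s, x)) = x) ∧ (∀ s x, Φ (s, Φ' (s, x)) = x) ∧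
      (∀ s x u v, om (Φ (s, x)) (DX Φ s x u) (DX Φ s x v) = om x u v) := by
  have hp2 := SmT2.pullT hom hphi
  have hk1 := SmT1.contrT hom hphi
  have hcc := cartan_const hcl halt
  have hCp := cartan_pull hcc hphi
  have hid0 : ∀ x, phi (0, x) = x := h0 0 le_rfl
  have hp0 : ∀ x, pullT om phi 0 x = om x := fun x => pull_eq_of_id hid0 x
  -- the family in time
  have hsub : ContDiff ℝ ∞ (fun r => 1 - c₁ r) := contDiff_const.sub hc₁
  have hWs : ∀ p₀ : ℝ × (ℝ × M), SmoothBilinAt (𝓘(ℝ, ℝ).prod (𝓘(ℝ, ℝ).prod I))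
      (fun p : ℝ × (ℝ × M) => p.2.2) (fun p => WW om phi D c₁ c₂ p.1 p.2.1 p.2.2) p₀ :=
    fun p₀ => SmoothBilinAt.add (hom.const.lift3 hsub p₀)
      (SmoothBilinAt.add (hp2.lift3 hc₁ p₀) (hD.lift3 hc₂ p₀))
  have hAs : ∀ p₀ : ℝ × (ℝ × M), SmoothLinAt (𝓘(ℝ, ℝ).prod (𝓘(ℝ, ℝ).prod I))
      (fun p : ℝ × (ℝ × M) => p.2.2) (fun p => AA om phi G c₁ c₂ p.1 p.2.1 p.2.2) p₀ :=
    fun p₀ => SmoothLinAt.add (SmT1.zero.lift3 hsub p₀)
      (SmoothLinAt.add (hk1.lift3 hc₁ p₀) (hG.lift3 hc₂ p₀))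
  have hCr : ∀ r, Cartan (fun s => WW om phi D c₁ c₂ s r) (fun s => AA om phi G c₁ c₂ s r) := by
    intro r
    exact (hcc.const_smul hom.const SmT1.zero (1 - c₁ r)).add
      ((hCp.const_smul hp2 hk1 (c₁ r)).add (hC.const_smul hD hG (c₂ r))
        (hp2.const_smul _) (hD.const_smul _) (hk1.const_smul _) (hG.const_smul _))
      (hom.const.const_smul _) ((hp2.const_smul _).add (hD.const_smul _))
      (SmT1.zero.const_smul _) ((hk1.const_smul _).add (hG.const_smul _))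
  have hk0 : ∀ s, 1 < |s| → ∀ x, contrT om phi s x = 0 := by
    intro s hs' x
    have hd : dS I phi s x = 0 := by
      apply dS_zero
      rcases lt_abs.1 hs' with h | h
      · filter_upwards [lt_mem_nhds h] with s' hs''
        rw [h1 s' hs''.le, h1 s h.le]
      · filter_upwards [gt_mem_nhds (show s < 0 by linarith)] with s' hs''
        rw [h0 s' hs''.le, h0 s (by linarith)]
    refine ContinuousLinearMap.ext fun v => ?_
    rw [contrT_apply, hd]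
    simp
  obtain ⟨th, be, hth, hbe, hth0, hbt, htb, hY, hpull⟩ := moser_param (T := 1) hWs hAs hCr hnd (by
    intro s r x h
    show (1 - c₁ r) • (0 : TangentSpace I x →L[ℝ] ℝ) +
      (c₁ r • contrT om phi s x + c₂ r • G s x) = 0
    rcases h with h | h
    · rw [hk0 s h, hG0 s (by
        rcases lt_abs.1 h with h | h
        · exact Or.inr h.le
        · exact Or.inl (by linarith))]
      simp
    · rw [hc₁1 r h.le, hc₂1 r h.le]
      simp)
  -- the family in the parameter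
  have hW's : SmT2 (fun r x => om x + c₂ r • extDerL I γ x) := hom.const.add (smT2_extDerL hγ hc₂)
  have hdc₂ : ContDiff ℝ ∞ (deriv c₂) := (contDiff_infty_iff_deriv.1 hc₂).2
  have hA's : SmT1 (fun r x => (0 : TangentSpace I x →L[ℝ] ℝ) + deriv c₂ r • γ x) :=
    SmT1.zero.add (smT1_smul hγ hdc₂)
  have hC' : Cartan (fun r x => om x + c₂ r • extDerL I γ x)
      (fun r x => (0 : TangentSpace I x →L[ℝ] ℝ) + deriv c₂ r • γ x) :=
    hcc.add (cartan_exact hγ hc₂) hom.const (smT2_extDerL hγ hc₂) SmT1.zero (smT1_smul hγ hdc₂)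
  have hW0 : ∀ r x, WW om phi D c₁ c₂ 0 r x = om x + c₂ r • extDerL I γ x := by
    intro r x
    show (1 - c₁ r) • om x + (c₁ r • pullT om phi 0 x + c₂ r • D 0 x) = _
    rw [hp0, hD0]
    module
  have hW1 : ∀ r x, WW om phi D c₁ c₂ 1 r x = om x + c₂ r • extDerL I γ x := by
    intro r x
    show (1 - c₁ r) • om x + (c₁ r • pullT om phi 1 x + c₂ r • D 1 x) = _
    rw [hs, hD1]
    module
  obtain ⟨χ, χ', hχ, hχ', hχ0, hχχ, hχχ', hχp⟩ := moser_single (T := 1) hW's hA's hC' (by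
    intro r x u h
    refine hnd 0 r x u fun v => ?_
    rw [hW0]
    exact h v) (by
    intro r x h
    have h2 : deriv c₂ r = 0 := by
      have h3 : c₂ =ᶠ[𝓝 r] fun _ => 0 := by
        filter_upwards [(continuous_abs.tendsto r).eventually (lt_mem_nhds h)] with r' hr'
        exact hc₂1 r' hr'.le
      rw [h3.deriv_eq]
      simp
    rw [h2]
    simp)
  -- the two families as families over the parameter
  set Th : ℝ × M → M := fun q => th (1, q) with hTh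
  set Be : ℝ × M → M := fun q => be (1, q) with hBe
  have hThs : ContMDiff (𝓘(ℝ, ℝ).prod I) I ∞ Th := hth.comp (contMDiff_const.prodMk contMDiff_id)
  have hBes : ContMDiff (𝓘(ℝ, ℝ).prod I) I ∞ Be := hbe.comp (contMDiff_const.prodMk contMDiff_id)
  have pTh : ∀ (r : ℝ) (x : M) (u v : TangentSpace I x),
      (om (Th (r, x)) + c₂ r • extDerL I γ (Th (r, x))) (DX Th r x u) (DX Th r x v) =
      (om x + c₂ r • extDerL I γ x) u v := by
    intro r x u v
    have := hpull 1 r x u v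
    rw [hW1, hW0] at this
    exact this
  have pBe : ∀ (r : ℝ) (x : M) (u v : TangentSpace I x),
      (om (Be (r, x)) + c₂ r • extDerL I γ (Be (r, x))) (DX Be r x u) (DX Be r x v) =
      (om x + c₂ r • extDerL I γ x) u v := fun r =>
    inv_pull hThs hBes (s := r) (fun x => htb 1 r x)
      (B := fun x => om x + c₂ r • extDerL I γ x) (B' := fun x => om x + c₂ r • extDerL I γ x)
      (pTh r)
  have pχ : ∀ (r : ℝ) (x : M) (u v : TangentSpace I x),
      (om (χ (r, x)) + c₂ r • extDerL I γ (χ (r, x))) (DX χ r x u) (DX χ r x v) = om x u v := by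
    intro r x u v
    have := hχp r x u v
    have h4 : (om x + c₂ 0 • extDerL I γ x) u v = om x u v + c₂ 0 * extDerL I γ x u v := rfl
    rw [this, h4, hc₂0, zero_mul, add_zero]
  have pχ' : ∀ (r : ℝ) (x : M) (u v : TangentSpace I x),
      om (χ' (r, x)) (DX χ' r x u) (DX χ' r x v) = (om x + c₂ r • extDerL I γ x) u v := fun r =>
    inv_pull hχ hχ' (s := r) (fun x => hχχ' r x)
      (B := om) (B' := fun x => om x + c₂ r • extDerL I γ x) (pχ r)
  set F : ℝ × M → M := fun q => Be (q.1, χ q) with hF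
  have hFs : ContMDiff (𝓘(ℝ, ℝ).prod I) I ∞ F := hBes.comp (contMDiff_fst.prodMk hχ)
  have pF : ∀ (r : ℝ) (x : M) (u v : TangentSpace I x),
      (om (F (r, x)) + c₂ r • extDerL I γ (F (r, x))) (DX F r x u) (DX F r x v) = om x u v :=
    fun r => comp_pull hBes hχ (s := r) (B₀ := om) (B₁ := fun x => om x + c₂ r • extDerL I γ x)
      (B₂ := fun x => om x + c₂ r • extDerL I γ x) (pBe r) (pχ r)
  set Φ₀ : ℝ × M → M := fun q => χ' (q.1, F q) with hΦ₀
  have hΦ₀s : ContMDiff (𝓘(ℝ, ℝ).prod I) I ∞ Φ₀ := hχ'.comp (contMDiff_fst.prodMk hFs)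
  have pΦ₀ : ∀ (r : ℝ) (x : M) (u v : TangentSpace I x),
      om (Φ₀ (r, x)) (DX Φ₀ r x u) (DX Φ₀ r x v) = om x u v :=
    fun r => comp_pull hχ' hFs (s := r) (B₀ := om) (B₁ := fun x => om x + c₂ r • extDerL I γ x)
      (B₂ := om) (pχ' r) (pF r)
  have hrev : ContMDiff (𝓘(ℝ, ℝ).prod I) (𝓘(ℝ, ℝ).prod I) ∞ (fun q : ℝ × M => (1 - q.1, q.2)) :=
    ((contDiff_const.sub contDiff_id).contMDiff.comp contMDiff_fst).prodMk contMDiff_snd
  -- the ends
  have hbe0 : ∀ r x, be (0, (r, x)) = x := by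
    intro r x
    have := hbt 0 r x
    rwa [hth0] at this
  have hend1 : ∀ x, Be (1, x) = x := by
    intro x
    have hc : ∀ s, th (s, ((1 : ℝ), x)) = th (0, ((1 : ℝ), x)) := by
      refine const_of_mfderiv_zero (I := I) (c := fun s => th (s, ((1 : ℝ), x))) ?_
      intro s
      obtain ⟨y, hy1, hy2⟩ := hY s 1 x
      have hy0 : y = 0 := by
        apply hnd s 1 _ y
        intro v
        rw [hy2 v]
        show - ((1 - c₁ 1) • (0 : TangentSpace I (th (s, ((1 : ℝ), x))) →L[ℝ] ℝ) +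
          (c₁ 1 • contrT om phi s (th (s, ((1 : ℝ), x))) + c₂ 1 • G s (th (s, ((1 : ℝ), x))))) v = 0
        rw [hc₁1 1 (by simp), hc₂1 1 (by simp)]
        simp
      rw [hy0] at hy1
      exact hy1
    have h2 := hbt 1 1 x
    rw [hc 1, hth0] at h2
    exact h2
  have key : ∀ (s : ℝ) (z : M) (y' : TangentSpace I z),
      (∀ v, WW om phi D c₁ c₂ s 0 z y' v = - AA om phi G c₁ c₂ s 0 z v) →
      dS I phi s z + DX phi s z y' = 0 := by
    intro s z y' hy2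
    have e1 : ∀ u v, WW om phi D c₁ c₂ s 0 z u v =
        om (phi (s, z)) (DX phi s z u) (DX phi s z v) := by
      intro u v
      have h4 : WW om phi D c₁ c₂ s 0 z u v = (1 - c₁ 0) * om z u v +
        (c₁ 0 * om (phi (s, z)) (DX phi s z u) (DX phi s z v) + c₂ 0 * D s z u v) := rfl
      rw [h4, hc₁0, hc₂0]
      ring
    have e2 : ∀ v, AA om phi G c₁ c₂ s 0 z v =
        om (phi (s, z)) (dS I phi s z) (DX phi s z v) := by
      intro v
      have h4 : AA om phi G c₁ c₂ s 0 z v = (1 - c₁ 0) * 0 +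
        (c₁ 0 * om (phi (s, z)) (dS I phi s z) (DX phi s z v) + c₂ 0 * G s z v) := rfl
      rw [h4, hc₁0, hc₂0]
      ring
    have hinj : ∀ u, DX (I := I) phi s z u = 0 → u = 0 := by
      intro u hu
      apply hnd s 0 z u
      intro v
      rw [e1, hu]
      simp
    have hsurj : ∀ w, ∃ u, DX (I := I) phi s z u = w := by
      have h5 : Function.Injective
          (show E →ₗ[ℝ] E from (show E →L[ℝ] E from DX (I := I) phi s z)) := by
        rw [injective_iff_map_eq_zero]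
        exact hinj
      exact (LinearMap.injective_iff_surjective (K := ℝ) (V := E)).1 h5
    obtain ⟨u, hu⟩ := hsurj (dS I phi s z + DX phi s z y')
    have hu0 : u = 0 := by
      apply hnd s 0 z u
      intro v
      rw [e1, hu, map_add, add_apply, ← e1, hy2, e2]
      ring
    rw [← hu, hu0, map_zero]
  have hend0 : ∀ x, Be (0, x) = phi (1, x) := by
    intro x
    have hc : ∀ y s, phi (s, th (s, ((0 : ℝ), y))) = phi (0, th (0, ((0 : ℝ), y))) := by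
      intro y
      refine const_of_mfderiv_zero (I := I) (c := fun s => phi (s, th (s, ((0 : ℝ), y)))) ?_
      intro s
      obtain ⟨y', hy1, hy2⟩ := hY s 0 y
      have hz0 := key s (th (s, ((0 : ℝ), y))) y' hy2
      have h2 : HasMFDerivAt 𝓘(ℝ, ℝ) (𝓘(ℝ, ℝ).prod I) (fun s => (s, th (s, ((0 : ℝ), y)))) s
        ((ContinuousLinearMap.id ℝ ℝ).prod ((1 : ℝ →L[ℝ] ℝ).smulRight y')) :=
        (hasMFDerivAt_id s).prodMk hy1
      have h3 : MDifferentiableAt (𝓘(ℝ, ℝ).prod I) I phi (s, th (s, ((0 : ℝ), y))) :=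
        hphi.mdifferentiableAt (by simp)
      have h4 := HasMFDerivAt.comp s h3.hasMFDerivAt h2
      refine h4.congr_mfderiv ?_
      refine ContinuousLinearMap.ext_ring ?_
      refine (mfderiv_prod_eq_add_apply h3).trans ?_
      have h6 : mfderiv I I (fun z' : M => phi (s, z')) (th (s, ((0 : ℝ), y))) ((1 : ℝ) • y') =
          DX phi s (th (s, ((0 : ℝ), y))) y' :=
        congrArg (DX phi s (th (s, ((0 : ℝ), y)))) (one_smul ℝ y')
      refine (congrArg (fun b : TangentSpace I (phi (s, th (s, ((0 : ℝ), y)))) =>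
        dS I phi s (th (s, ((0 : ℝ), y))) + b) h6).trans ?_
      refine hz0.trans ?_
      exact (smul_zero _).symm
    have h2 := hc (be (1, ((0 : ℝ), x))) 1
    rw [htb, hid0, hth0] at h2
    exact h2.symm
  refine ⟨fun q => Φ₀ (1 - q.1, q.2), fun q => χ' (1 - q.1, Th (1 - q.1, χ (1 - q.1, q.2))),
    hΦ₀s.comp hrev, ?_, ?_, ?_, ?_, ?_, ?_⟩
  · have h2 : ContMDiff (𝓘(ℝ, ℝ).prod I) I ∞ (fun q : ℝ × M => Th (q.1, χ q)) :=
      hThs.comp (contMDiff_fst.prodMk hχ)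
    have h3 : ContMDiff (𝓘(ℝ, ℝ).prod I) I ∞ (fun q : ℝ × M => χ' (q.1, Th (q.1, χ q))) :=
      hχ'.comp (contMDiff_fst.prodMk h2)
    exact h3.comp hrev
  · intro x
    show χ' (1 - 0, Be (1 - 0, χ (1 - 0, x))) = x
    rw [sub_zero, hend1, hχχ]
  · intro x
    show χ' (1 - 1, Be (1 - 1, χ (1 - 1, x))) = phi (1, x)
    rw [sub_self, hχ0, hend0]
    have := hχχ 0 (phi (1, x))
    rwa [hχ0] at this
  · intro s x
    show χ' (1 - s, Th (1 - s, χ (1 - s, χ' (1 - s, Be (1 - s, χ (1 - s, x)))))) = x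
    rw [hχχ']
    show χ' (1 - s, th (1, (1 - s, be (1, (1 - s, χ (1 - s, x)))))) = x
    rw [htb, hχχ]
  · intro s x
    show χ' (1 - s, Be (1 - s, χ (1 - s, χ' (1 - s, Th (1 - s, χ (1 - s, x)))))) = x
    rw [hχχ']
    show χ' (1 - s, be (1, (1 - s, th (1, (1 - s, χ (1 - s, x)))))) = x
    rw [hbt, hχχ]
  · intro s x u v
    exact pΦ₀ (1 - s) x u v

end Pool.Agent.Helper500_SM
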