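import Mathlib
import Pool.Agent.Helper500_SM.Pull2
import Pool.Agent.Helper500_SM.Alg4
import Pool.Agent.Helper500_SM.ThmA

/-! Product forms on the product of a surface with the two-sphere. -/

open scoped Topology ContDiff Manifold
open Set Metric Bundle

noncomputable section

namespace Pool.Agent.Helper500_SM

open Pool.Agent.Helper186

set_option linter.unusedSectionVars false

/-- the model of a product of two surfaces -/
abbrev IM : ModelWithCorners ℝ (E2 × E2) (ModelProd E2 E2) := (𝓡 2).prod (𝓡 2)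

variable {N : Type} [TopologicalSpace N] [ChartedSpace E2 N] [IsManifold (𝓡 2) ∞ N]

/-- The product form `lam * pr₁^* σ + pr₂^* (area form of the sphere)`. -/
def prodForm (σ : (z : N) → TangentSpace (𝓡 2) z →L[ℝ] TangentSpace (𝓡 2) z →L[ℝ] ℝ) (lam : ℝ)
    (p : N × S2) : TangentSpace IM p →L[ℝ] TangentSpace IM p →L[ℝ] ℝ :=
  lam • pull2 IM (𝓡 2) Prod.fst σ p + pull2 IM (𝓡 2) Prod.snd sphArea p

variable {σ : (z : N) → TangentSpace (𝓡 2) z →L[ℝ] TangentSpace (𝓡 2) z →L[ℝ] ℝ} {lam : ℝ}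

lemma pull2_fst_apply (p : N × S2) (u v : TangentSpace IM p) :
    pull2 IM (𝓡 2) Prod.fst σ p u v =
      σ p.1 (show E2 from (show E2 × E2 from u).1) (show E2 from (show E2 × E2 from v).1) := by
  rw [pull2_apply]
  have h : mfderiv IM (𝓡 2) (Prod.fst : N × S2 → N) p = ContinuousLinearMap.fst ℝ E2 E2 :=
    mfderiv_fst
  rw [h]
  rfl

lemma pull2_snd_apply (τ : (x : S2) → TangentSpace (𝓡 2) x →L[ℝ] TangentSpace (𝓡 2) x →L[ℝ] ℝ)
    (p : N × S2) (u v : TangentSpace IM p) :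
    pull2 IM (𝓡 2) Prod.snd τ p u v =
      τ p.2 (show E2 from (show E2 × E2 from u).2) (show E2 from (show E2 × E2 from v).2) := by
  rw [pull2_apply]
  have h : mfderiv IM (𝓡 2) (Prod.snd : N × S2 → S2) p = ContinuousLinearMap.snd ℝ E2 E2 :=
    mfderiv_snd
  rw [h]
  rfl

lemma prodForm_apply (p : N × S2) (u v : TangentSpace IM p) :
    prodForm σ lam p u v =
      lam * σ p.1 (show E2 from (show E2 × E2 from u).1) (show E2 from (show E2 × E2 from v).1) +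
      sphArea p.2 (show E2 from (show E2 × E2 from u).2) (show E2 from (show E2 × E2 from v).2) := by
  have h : prodForm σ lam p u v = lam * pull2 IM (𝓡 2) Prod.fst σ p u v +
    pull2 IM (𝓡 2) Prod.snd sphArea p u v := rfl
  rw [h, pull2_fst_apply, pull2_snd_apply]

lemma sm2_prodForm (hσ : Sm2 σ) : Sm2 (prodForm σ lam) :=
  Sm2.add (Sm2.const_smul (Sm2.pull2 contMDiff_fst hσ) lam) (Sm2.pull2 contMDiff_snd sm2_sphArea)

lemma closedP_prodForm (hσ : Sm2 σ) (halt : ∀ z v w, σ z v w = - σ z w v) :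
    ClosedP (prodForm σ lam) :=
  ClosedP.add (ClosedP.const_smul (ClosedP.pull2 contMDiff_fst (closedP_surface hσ halt))
    (Sm2.pull2 contMDiff_fst hσ) lam)
    (ClosedP.pull2 contMDiff_snd (closedP_surface sm2_sphArea sphArea_alt))
    (Sm2.const_smul (Sm2.pull2 contMDiff_fst hσ) lam) (Sm2.pull2 contMDiff_snd sm2_sphArea)

lemma prodForm_alt (halt : ∀ z v w, σ z v w = - σ z w v) (p : N × S2) (u v : TangentSpace IM p) :
    prodForm σ lam p u v = - prodForm σ lam p v u := by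
  rw [prodForm_apply, prodForm_apply, halt, sphArea_alt]
  ring

/-- restriction to horizontal vectors -/
def resH (B : E2 × E2 →L[ℝ] E2 × E2 →L[ℝ] ℝ) : E2 →L[ℝ] E2 →L[ℝ] ℝ :=
  pullE B (ContinuousLinearMap.inl ℝ E2 E2)

/-- restriction to vertical vectors -/
def resV (B : E2 × E2 →L[ℝ] E2 × E2 →L[ℝ] ℝ) : E2 →L[ℝ] E2 →L[ℝ] ℝ :=
  pullE B (ContinuousLinearMap.inr ℝ E2 E2)

lemma resH_apply (B : E2 × E2 →L[ℝ] E2 × E2 →L[ℝ] ℝ) (u v : E2) :
    resH B u v = B (u, 0) (v, 0) := rfl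

lemma resV_apply (B : E2 × E2 →L[ℝ] E2 × E2 →L[ℝ] ℝ) (u v : E2) :
    resV B u v = B (0, u) (0, v) := rfl

/-- the horizontal ratio -/
def hr (σ : (z : N) → TangentSpace (𝓡 2) z →L[ℝ] TangentSpace (𝓡 2) z →L[ℝ] ℝ)
    (W : ℝ → (p : N × S2) → TangentSpace IM p →L[ℝ] TangentSpace IM p →L[ℝ] ℝ)
    (q : ℝ × (N × S2)) : ℝ := ratio (resH (W q.1 q.2)) (σ q.2.1)

/-- the vertical ratio -/
def vr (W : ℝ → (p : N × S2) → TangentSpace IM p →L[ℝ] TangentSpace IM p →L[ℝ] ℝ)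
    (q : ℝ × (N × S2)) : ℝ := ratio (resV (W q.1 q.2)) (sphArea q.2.2)

/-- a local horizontal section -/
def secH (q₀ : ℝ × (N × S2)) (a : E2) (q : ℝ × (N × S2)) : TangentSpace IM q.2 :=
  ((trivializationAt E2 (TangentSpace (𝓡 2)) q₀.2.1).symmL ℝ q.2.1 a, (0 : E2))

/-- a local vertical section -/
def secV (q₀ : ℝ × (N × S2)) (a : E2) (q : ℝ × (N × S2)) : TangentSpace IM q.2 :=
  ((0 : E2), (trivializationAt E2 (TangentSpace (𝓡 2)) q₀.2.2).symmL ℝ q.2.2 a)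

lemma contMDiffAt_zeroSec {K : Type} [TopologicalSpace K] [ChartedSpace E2 K]
    [IsManifold (𝓡 2) ∞ K] (f : ℝ × (N × S2) → K) (q₀ : ℝ × (N × S2))
    (hf : ContMDiffAt (𝓘(ℝ, ℝ).prod IM) (𝓡 2) ∞ f q₀) :
    ContMDiffAt (𝓘(ℝ, ℝ).prod IM) (𝓡 2).tangent ∞
      (fun q => (⟨f q, (0 : E2)⟩ : TangentBundle (𝓡 2) K)) q₀ := by
  have h : ContMDiff (𝓡 2) (𝓡 2).tangent ∞ (fun x : K => (⟨x, 0⟩ : TangentBundle (𝓡 2) K)) :=
    contMDiff_zeroSection ℝ (TangentSpace (𝓡 2))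
  exact (h _).comp q₀ hf

lemma contMDiffAt_secH (q₀ : ℝ × (N × S2)) (a : E2) :
    ContMDiffAt (𝓘(ℝ, ℝ).prod IM) IM.tangent ∞
      (fun q => (⟨q.2, secH q₀ a q⟩ : TangentBundle IM (N × S2))) q₀ := by
  have h1 : ContMDiffAt (𝓘(ℝ, ℝ).prod IM) (𝓡 2).tangent ∞
      (fun q : ℝ × (N × S2) => (⟨q.2.1,
        (trivializationAt E2 (TangentSpace (𝓡 2)) q₀.2.1).symmL ℝ q.2.1 a⟩ :
        TangentBundle (𝓡 2) N)) q₀ :=
    contMDiffAt_symmL (f := fun q : ℝ × (N × S2) => q.2.1)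
      (contMDiff_fst.comp contMDiff_snd q₀) a
  have h2 := contMDiffAt_zeroSec (fun q : ℝ × (N × S2) => q.2.2) q₀
    (contMDiff_snd.comp contMDiff_snd q₀)
  exact (contMDiff_equivTangentBundleProd_symm (I := 𝓡 2) (M := N) (I' := 𝓡 2)
      (M' := S2) _).comp q₀ (h1.prodMk h2)

lemma contMDiffAt_secV (q₀ : ℝ × (N × S2)) (a : E2) :
    ContMDiffAt (𝓘(ℝ, ℝ).prod IM) IM.tangent ∞
      (fun q => (⟨q.2, secV q₀ a q⟩ : TangentBundle IM (N × S2))) q₀ := by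
  have h1 : ContMDiffAt (𝓘(ℝ, ℝ).prod IM) (𝓡 2).tangent ∞
      (fun q : ℝ × (N × S2) => (⟨q.2.2,
        (trivializationAt E2 (TangentSpace (𝓡 2)) q₀.2.2).symmL ℝ q.2.2 a⟩ :
        TangentBundle (𝓡 2) S2)) q₀ :=
    contMDiffAt_symmL (f := fun q : ℝ × (N × S2) => q.2.2)
      (contMDiff_snd.comp contMDiff_snd q₀) a
  have h2 := contMDiffAt_zeroSec (fun q : ℝ × (N × S2) => q.2.1) q₀
    (contMDiff_fst.comp contMDiff_snd q₀)
  exact (contMDiff_equivTangentBundleProd_symm (I := 𝓡 2) (M := N) (I' := 𝓡 2)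
      (M' := S2) _).comp q₀ (h2.prodMk h1)

lemma symmL_self {K : Type} [TopologicalSpace K] [ChartedSpace E2 K]
    [IsManifold (𝓡 2) ∞ K] (z : K) (a : E2) :
    (trivializationAt E2 (TangentSpace (𝓡 2)) z).symmL ℝ z a = a := by
  have hx : z ∈ (chartAt E2 z).source := mem_chart_source E2 z
  have h3 := TangentBundle.symmL_trivializationAt_eq_core (I := 𝓡 2) hx
  rw [h3]
  exact (tangentBundleCore (𝓡 2) K).coordChange_self _ _ (by simp) a

section cont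

variable {W : ℝ → (p : N × S2) → TangentSpace IM p →L[ℝ] TangentSpace IM p →L[ℝ] ℝ}

/-- continuity of a two-form of a surface on local sections -/
lemma contAt_form {K : Type} [TopologicalSpace K] [ChartedSpace E2 K]
    [IsManifold (𝓡 2) ∞ K] {τ : (z : K) → TangentSpace (𝓡 2) z →L[ℝ] TangentSpace (𝓡 2) z →L[ℝ] ℝ}
    (hτ : Sm2 τ) (f : ℝ × (N × S2) → K) (q₀ : ℝ × (N × S2))
    (hf : ContMDiffAt (𝓘(ℝ, ℝ).prod IM) (𝓡 2) ∞ f q₀) (a b : E2) :
    ContinuousAt (fun q => τ (f q)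
      ((trivializationAt E2 (TangentSpace (𝓡 2)) (f q₀)).symmL ℝ (f q) a)
      ((trivializationAt E2 (TangentSpace (𝓡 2)) (f q₀)).symmL ℝ (f q) b)) q₀ := by
  have h1 := SmoothBilinAt.comp (f := fun x : K => x) (g := f) contMDiffAt_id (hτ (f q₀)) hf
  exact (h1 _ _ (contMDiffAt_symmL hf a) (contMDiffAt_symmL hf b)).continuousAt

lemma continuous_hr (hW : SmT2 W) (hWa : ∀ s p v w, W s p v w = - W s p w v) (hσ : Sm2 σ)
    (hσa : ∀ z v w, σ z v w = - σ z w v) (hσn : ∀ z u, (∀ v, σ z u v = 0) → u = 0) :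
    Continuous (hr σ W) := by
  rw [continuous_iff_continuousAt]
  intro q₀
  have hf : ContMDiffAt (𝓘(ℝ, ℝ).prod IM) (𝓡 2) ∞ (fun q : ℝ × (N × S2) => q.2.1) q₀ :=
    contMDiff_fst.comp contMDiff_snd q₀
  have h1 := contAt_form hσ (fun q : ℝ × (N × S2) => q.2.1) q₀ hf (eb 0) (eb 1)
  have h2 := (hW q₀ _ _ (contMDiffAt_secH q₀ (eb 0)) (contMDiffAt_secH q₀ (eb 1))).continuousAt
  have h0 : σ q₀.2.1 ((trivializationAt E2 (TangentSpace (𝓡 2)) q₀.2.1).symmL ℝ q₀.2.1 (eb 0))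
      ((trivializationAt E2 (TangentSpace (𝓡 2)) q₀.2.1).symmL ℝ q₀.2.1 (eb 1)) ≠ 0 := by
    rw [symmL_self, symmL_self]
    exact ne_of_nondeg (hσa q₀.2.1) (hσn q₀.2.1)
  refine (h2.div h1 h0).congr ?_
  filter_upwards [h1.eventually_ne h0] with q hq
  exact ratio_eq (B := resH (W q.1 q.2)) (τ := σ q.2.1) (fun v w => hWa _ _ _ _)
    (fun v w => hσa _ _ _) hq

lemma continuous_vr (hW : SmT2 W) (hWa : ∀ s p v w, W s p v w = - W s p w v) :
    Continuous (vr W) := by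
  rw [continuous_iff_continuousAt]
  intro q₀
  have hf : ContMDiffAt (𝓘(ℝ, ℝ).prod IM) (𝓡 2) ∞ (fun q : ℝ × (N × S2) => q.2.2) q₀ :=
    contMDiff_snd.comp contMDiff_snd q₀
  have h1 := contAt_form sm2_sphArea (fun q : ℝ × (N × S2) => q.2.2) q₀ hf (eb 0) (eb 1)
  have h2 := (hW q₀ _ _ (contMDiffAt_secV q₀ (eb 0)) (contMDiffAt_secV q₀ (eb 1))).continuousAt
  have h0 : sphArea q₀.2.2
      ((trivializationAt E2 (TangentSpace (𝓡 2)) q₀.2.2).symmL ℝ q₀.2.2 (eb 0))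
      ((trivializationAt E2 (TangentSpace (𝓡 2)) q₀.2.2).symmL ℝ q₀.2.2 (eb 1)) ≠ 0 := by
    rw [symmL_self, symmL_self]
    refine ne_of_nondeg (sphArea_alt q₀.2.2) fun u hu => ?_
    by_contra hne
    obtain ⟨v, hv⟩ := exists_pos q₀.2.2 hne
    exact hv.ne' (hu v)
  refine (h2.div h1 h0).congr ?_
  filter_upwards [h1.eventually_ne h0] with q hq
  exact ratio_eq (B := resV (W q.1 q.2)) (τ := sphArea q.2.2) (fun v w => hWa _ _ _ _)
    (fun v w => sphArea_alt _ _ _) hq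

end cont

end Pool.Agent.Helper500_SM
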