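import Mathlib
import Pool.Agent.Helper500_SM.Prodf

/-! Finite sums of exact forms with time dependent coefficients, partitions of unity. -/

open scoped Topology ContDiff Manifold
open Set Metric Bundle

noncomputable section

namespace Pool.Agent.Helper500_SM

open Pool.Agent.Helper186

set_option linter.unusedSectionVars false

universe u

variable {E : Type u} [NormedAddCommGroup E] [NormedSpace ℝ E] [FiniteDimensional ℝ E]
  {H : Type*} [TopologicalSpace H] {I : ModelWithCorners ℝ E H} [I.Boundaryless]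
  {M : Type*} [TopologicalSpace M] [ChartedSpace H M] [IsManifold I ∞ M]

lemma SmT2.zero : SmT2 (fun (_ : ℝ) (x : M) =>
    (0 : TangentSpace I x →L[ℝ] TangentSpace I x →L[ℝ] ℝ)) :=
  fun _ _ _ _ _ => contMDiffAt_const

lemma Cartan.zero : Cartan (fun (_ : ℝ) (x : M) =>
    (0 : TangentSpace I x →L[ℝ] TangentSpace I x →L[ℝ] ℝ))
    (fun (_ : ℝ) (x : M) => (0 : TangentSpace I x →L[ℝ] ℝ)) := by
  intro U S hU hS p hp a b
  have k : ∀ b c : ℝ × E, KK (fun (_ : ℝ) (x : M) =>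
    (0 : TangentSpace I x →L[ℝ] TangentSpace I x →L[ℝ] ℝ)) S b c = fun _ => 0 := fun _ _ => rfl
  have k' : ∀ b : ℝ × E, LL (fun (_ : ℝ) (x : M) =>
    (0 : TangentSpace I x →L[ℝ] ℝ)) S b = fun _ => 0 := fun _ => rfl
  simp [k, k']

lemma sum_all {ι : Type*} {γ : ι → (x : M) → TangentSpace I x →L[ℝ] ℝ}
    (hγ : ∀ i, SmoothForm (γ i)) {a : ι → ℝ → ℝ} (ha : ∀ i, ContDiff ℝ ∞ (a i)) (t : Finset ι) :
    SmT2 (fun s x => ∑ i ∈ t, a i s • extDerL I (γ i) x) ∧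
    SmT1 (fun s x => ∑ i ∈ t, deriv (a i) s • γ i x) ∧
    Cartan (fun s x => ∑ i ∈ t, a i s • extDerL I (γ i) x)
      (fun s x => ∑ i ∈ t, deriv (a i) s • γ i x) := by
  classical
  induction t using Finset.induction_on with
  | empty =>
    simp only [Finset.sum_empty]
    exact ⟨SmT2.zero, SmT1.zero, Cartan.zero⟩
  | insert i t hi ih =>
    obtain ⟨h1, h2, h3⟩ := ih
    simp only [Finset.sum_insert hi]
    have hd : ContDiff ℝ ∞ (deriv (a i)) := (contDiff_infty_iff_deriv.1 (ha i)).2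
    exact ⟨(smT2_extDerL (hγ i) (ha i)).add h1, (smT1_smul (hγ i) hd).add h2,
      (cartan_exact (hγ i) (ha i)).add h3 (smT2_extDerL (hγ i) (ha i)) h1
        (smT1_smul (hγ i) hd) h2⟩

lemma exists_partition {ι : Type} [Fintype ι] (U : ι → Set ℝ) (hU : ∀ i, IsOpen (U i))
    (hcov : Icc (1 / 3 : ℝ) (2 / 3) ⊆ ⋃ i, U i) (hU01 : ∀ i, U i ⊆ Ioo 0 1) :
    ∃ ρ : ι → ℝ → ℝ, (∀ i, ContDiff ℝ ∞ (ρ i)) ∧ (∀ i s, 0 ≤ ρ i s) ∧
      (∀ s, ∑ i, ρ i s ≤ 1) ∧ (∀ s ∈ Icc (1 / 3 : ℝ) (2 / 3), ∑ i, ρ i s = 1) ∧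
      (∀ i s, ρ i s ≠ 0 → s ∈ U i) ∧
      (∀ i s, s ∉ Ioo (0 : ℝ) 1 → ρ i s = 0 ∧ deriv (ρ i) s = 0) := by
  obtain ⟨f, hf⟩ := SmoothPartitionOfUnity.exists_isSubordinate 𝓘(ℝ, ℝ)
    (isClosed_Icc (a := (1 / 3 : ℝ)) (b := 2 / 3)) U hU hcov
  have hf0 : ∀ i s, s ∉ tsupport (f i) → f i =ᶠ[𝓝 s] fun _ => 0 := by
    intro i s hs
    exact notMem_tsupport_iff_eventuallyEq.1 hs
  refine ⟨fun i => f i, fun i => (f i).contMDiff.contDiff, fun i s => f.nonneg i s,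
    fun s => ?_, fun s hs => ?_, fun i s hs => ?_, fun i s hs => ?_⟩
  · have h := f.sum_le_one s
    rwa [finsum_eq_sum_of_fintype] at h
  · have h := f.sum_eq_one hs
    rwa [finsum_eq_sum_of_fintype] at h
  · exact hf i (subset_tsupport _ hs)
  · have h : s ∉ tsupport (f i) := fun h => hs (hU01 i (hf i h))
    have h1 := hf0 i s h
    refine ⟨h1.eq_of_nhds, ?_⟩
    rw [h1.deriv_eq]
    simp

end Pool.Agent.Helper500_SM
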