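import Mathlib
import Pool.Agent.Helper500_SM.Part
import Pool.Agent.Helper500_SM.Cap

/-! Ingredients of the criterion for products of a surface and the two-sphere. -/

open scoped Topology ContDiff Manifold
open Set Metric Bundle

noncomputable section

namespace Pool.Agent.Helper500_SM

open Pool.Agent.Helper186

set_option linter.unusedSectionVars false

variable {N : Type} [TopologicalSpace N] [ChartedSpace E2 N] [IsManifold (𝓡 2) ∞ N]
  {σ : (z : N) → TangentSpace (𝓡 2) z →L[ℝ] TangentSpace (𝓡 2) z →L[ℝ] ℝ} {lam : ℝ}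

lemma ratio_pos {B τ : E2 →L[ℝ] E2 →L[ℝ] ℝ} (hB : ∀ v w, B v w = - B w v)
    (hτ : ∀ v w, τ v w = - τ w v) (h0 : τ (eb 0) (eb 1) ≠ 0)
    (h : ∀ u v, 0 < τ u v → 0 < B u v) : 0 < ratio B τ := by
  rcases lt_or_gt_of_ne h0 with h1 | h1
  · have h2 : 0 < τ (eb 1) (eb 0) := by rw [hτ]; linarith
    have h3 := h _ _ h2
    rw [hB] at h3
    exact div_pos_of_neg_of_neg (by linarith) h1
  · exact div_pos (h _ _ h1) h1

lemma cont_time {E : Type} [NormedAddCommGroup E] [NormedSpace ℝ E] [FiniteDimensional ℝ E]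
    {H : Type*} [TopologicalSpace H] {I : ModelWithCorners ℝ E H} [I.Boundaryless]
    {M : Type*} [TopologicalSpace M] [ChartedSpace H M] [IsManifold I ∞ M]
    {W : ℝ → (x : M) → TangentSpace I x →L[ℝ] TangentSpace I x →L[ℝ] ℝ} (hW : SmT2 W) (p : M)
    (u v : TangentSpace I p) : Continuous (fun t => W t p u v) := by
  rw [continuous_iff_continuousAt]
  intro t
  have h := SmoothBilinAt.comp (J' := 𝓘(ℝ, ℝ)) (f := fun q : ℝ × M => q.2)
    (g := fun s : ℝ => (s, p)) contMDiffAt_snd (hW (t, p))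
    (contMDiffAt_id.prodMk contMDiffAt_const)
  exact (h (fun _ => u) (fun _ => v) (contMDiffAt_const (c := (⟨p, u⟩ : TangentBundle I M)))
    (contMDiffAt_const (c := (⟨p, v⟩ : TangentBundle I M)))).continuousAt

lemma sph0 (x : S2) : sphArea x (eb 0) (eb 1) ≠ 0 := by
  refine ne_of_nondeg (sphArea_alt x) fun u hu => ?_
  by_contra hne
  obtain ⟨v, hv⟩ := exists_pos x hne
  exact hv.ne' (hu v)

lemma om_h (p : N × S2) (a b : E2) : prodForm σ lam p (a, (0 : E2)) (b, (0 : E2)) =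
    lam * σ p.1 a b := by
  rw [prodForm_apply]
  have h : sphArea p.2 (0 : E2) (0 : E2) = 0 := by
    have := sphArea_alt p.2 (0 : E2) (0 : E2)
    linarith
  show lam * σ p.1 a b + sphArea p.2 (0 : E2) (0 : E2) = _
  rw [h, add_zero]

lemma om_v (hσa : ∀ z v w, σ z v w = - σ z w v) (p : N × S2) (a b : E2) :
    prodForm σ lam p ((0 : E2), a) ((0 : E2), b) = sphArea p.2 a b := by
  rw [prodForm_apply]
  have h : σ p.1 (0 : E2) (0 : E2) = 0 := by
    have := hσa p.1 (0 : E2) (0 : E2)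
    linarith
  show lam * σ p.1 (0 : E2) (0 : E2) + sphArea p.2 a b = _
  rw [h, mul_zero, zero_add]

lemma om_c (p : N × S2) (a b : E2) : prodForm σ lam p (a, (0 : E2)) ((0 : E2), b) = 0 := by
  rw [prodForm_apply]
  have h : σ p.1 a (0 : E2) = 0 := map_zero (σ p.1 a)
  have h2 : sphArea p.2 (0 : E2) b = 0 := by
    rw [sphArea_alt]
    have : sphArea p.2 b (0 : E2) = 0 := map_zero (sphArea p.2 b)
    rw [this, neg_zero]
  show lam * σ p.1 a (0 : E2) + sphArea p.2 (0 : E2) b = _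
  rw [h, h2, mul_zero, zero_add]

lemma pf_om (hσa : ∀ z v w, σ z v w = - σ z w v) (p : N × S2) :
    pf (prodForm σ lam p) = lam * σ p.1 (eb 0) (eb 1) * sphArea p.2 (eb 0) (eb 1) := by
  have h1 : prodForm σ lam p (hE 0) (hE 1) = lam * σ p.1 (eb 0) (eb 1) := om_h p _ _
  have h2 : prodForm σ lam p (vE 0) (vE 1) = sphArea p.2 (eb 0) (eb 1) := om_v hσa p _ _
  have h3 : prodForm σ lam p (hE 0) (vE 0) = 0 := om_c p _ _
  have h4 : prodForm σ lam p (hE 0) (vE 1) = 0 := om_c p _ _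
  have h5 : pf (prodForm σ lam p) = prodForm σ lam p (hE 0) (hE 1) *
    prodForm σ lam p (vE 0) (vE 1) - prodForm σ lam p (hE 0) (vE 0) *
    prodForm σ lam p (hE 1) (vE 1) + prodForm σ lam p (hE 0) (vE 1) *
    prodForm σ lam p (hE 1) (vE 0) := rfl
  rw [h5, h1, h2, h3, h4]
  ring

/-- The exact forms used for the inflation. -/
lemma ext_snd {k : ℝ → ℝ} (hk : ContDiff ℝ ∞ k) (y : S2) (p : N × S2)
    (u v : TangentSpace IM p) :
    extDerL IM (pullForm (𝓡 2) IM (Prod.snd : N × S2 → S2) (gam k y)) p u v =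
      (Fk k (dot3 y p.2) - 1) * sphArea p.2 (show E2 from (show E2 × E2 from u).2)
        (show E2 from (show E2 × E2 from v).2) := by
  rw [extDerL_pull contMDiff_snd (smoothForm_gam hk _), pull2_snd_apply, extDerL_apply,
    extDer_gam hk (dot_self_of_mem y.2)]
  unfold Fk
  ring

lemma vr_pos {W : ℝ → (p : N × S2) → TangentSpace IM p →L[ℝ] TangentSpace IM p →L[ℝ] ℝ}
    (hWa : ∀ s p v w, W s p v w = - W s p w v) {t : ℝ} {p : N × S2}
    (hv : ∀ (u v : E2), 0 < sphArea p.2 u v → 0 < W t p ((0 : E2), u) ((0 : E2), v)) :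
    0 < vr W (t, p) :=
  ratio_pos (B := resV (W t p)) (τ := sphArea p.2) (fun _ _ => hWa t p _ _)
    (sphArea_alt p.2) (sph0 p.2) hv

lemma hr_pos (hσa : ∀ z v w, σ z v w = - σ z w v) (hσn : ∀ z u, (∀ v, σ z u v = 0) → u = 0)
    {W : ℝ → (p : N × S2) → TangentSpace IM p →L[ℝ] TangentSpace IM p →L[ℝ] ℝ}
    (hWa : ∀ s p v w, W s p v w = - W s p w v) {t : ℝ} {p : N × S2}
    (hv : ∀ (u v : E2), 0 < σ p.1 u v → 0 < W t p (u, (0 : E2)) (v, (0 : E2))) :
    0 < hr σ W (t, p) :=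
  ratio_pos (B := resH (W t p)) (τ := σ p.1) (fun _ _ => hWa t p _ _)
    (hσa p.1) (ne_of_nondeg (hσa p.1) (hσn p.1)) hv

lemma hr_om (hσa : ∀ z v w, σ z v w = - σ z w v) (hσn : ∀ z u, (∀ v, σ z u v = 0) → u = 0)
    {W : ℝ → (p : N × S2) → TangentSpace IM p →L[ℝ] TangentSpace IM p →L[ℝ] ℝ}
    {t : ℝ} {p : N × S2} (h : W t p = prodForm σ lam p) : hr σ W (t, p) = lam := by
  have h0 : σ p.1 (eb 0) (eb 1) ≠ 0 := ne_of_nondeg (hσa p.1) (hσn p.1)
  have h2 : hr σ W (t, p) = W t p (hE 0) (hE 1) / σ p.1 (eb 0) (eb 1) := rfl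
  have h3 : prodForm σ lam p (hE 0) (hE 1) = lam * σ p.1 (eb 0) (eb 1) := om_h p _ _
  rw [h2, h, h3]
  field_simp

/-- Positivity of the Pfaffian along a path of nondegenerate forms. -/
lemma pfW_pos (hσa : ∀ z v w, σ z v w = - σ z w v) (hσn : ∀ z u, (∀ v, σ z u v = 0) → u = 0)
    (hlam : 0 < lam)
    {W : ℝ → (p : N × S2) → TangentSpace IM p →L[ℝ] TangentSpace IM p →L[ℝ] ℝ} (hW : SmT2 W)
    (hWa : ∀ s p v w, W s p v w = - W s p w v) {p : N × S2} (h0 : W 0 p = prodForm σ lam p)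
    (hnd : ∀ t ∈ Icc (0 : ℝ) 1, ∀ u, (∀ v, W t p u v = 0) → u = 0) {t : ℝ}
    (ht : t ∈ Icc (0 : ℝ) 1) :
    0 < pf (W t p) / (σ p.1 (eb 0) (eb 1) * sphArea p.2 (eb 0) (eb 1)) := by
  have e1 : σ p.1 (eb 0) (eb 1) ≠ 0 := ne_of_nondeg (hσa p.1) (hσn p.1)
  have e2 := sph0 p.2
  set g : ℝ → ℝ := fun t => pf (W t p) /
      (σ p.1 (eb 0) (eb 1) * sphArea p.2 (eb 0) (eb 1)) with hg
  have hgc : Continuous g := by
    have hc := fun u v => cont_time hW p u v
    have : Continuous (fun t => pf (W t p)) :=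
      (((hc _ _).mul (hc _ _)).sub ((hc _ _).mul (hc _ _))).add ((hc _ _).mul (hc _ _))
    exact this.div_const _
  have hg0 : g 0 = lam := by
    have h2 : g 0 = pf (W 0 p) / (σ p.1 (eb 0) (eb 1) * sphArea p.2 (eb 0) (eb 1)) := rfl
    rw [h2, h0, pf_om hσa]
    field_simp
  have hgne : ∀ s ∈ Icc (0 : ℝ) 1, g s ≠ 0 := by
    intro s hs
    refine div_ne_zero ?_ (mul_ne_zero e1 e2)
    exact pf_ne_zero (B := W s p) (fun v w => hWa s p v w) (fun u hu => hnd s hs u hu)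
  by_contra hneg
  have hneg' : g t ≤ 0 := not_lt.1 hneg
  have hiv := intermediate_value_Icc' ht.1 (hgc.continuousOn (s := Icc 0 t))
  obtain ⟨s, hs, hs0⟩ := hiv (show (0 : ℝ) ∈ Icc (g t) (g 0) from
    ⟨hneg', by rw [hg0]; exact hlam.le⟩)
  exact hgne s ⟨hs.1, hs.2.trans ht.2⟩ hs0

end Pool.Agent.Helper500_SM
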