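import Mathlib
import Pool.Agent.Helper500_SM.CB1

/-! Pointwise nondegeneracy of the linear family, and the local data. -/

open scoped Topology ContDiff Manifold
open Set Metric Bundle

noncomputable section

namespace Pool.Agent.Helper500_SM

open Pool.Agent.Helper186

set_option linter.unusedSectionVars false

/-- Pointwise nondegeneracy. -/
lemma nondeg_pt {om W D B : E2 × E2 →L[ℝ] E2 × E2 →L[ℝ] ℝ} {lam σe se h v F P C a κ δ K : ℝ}
    (hB : ∀ x y, B x y = - B y x) (hσe : σe ≠ 0) (hse : se ≠ 0)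
    (e : ∀ x y, (1 + C * κ * a) * B x y =
          (κ * (1 + C * a)) * om x y + (a * W x y + C * κ * a * D x y))
    (w1 : W (hE 0) (hE 1) = h * σe) (w2 : W (vE 0) (vE 1) = v * se)
    (o1 : om (hE 0) (hE 1) = lam * σe) (o2 : om (vE 0) (vE 1) = se)
    (o3 : ∀ i j, om (hE i) (vE j) = 0)
    (d1 : D (hE 0) (hE 1) = 0) (d2 : D (vE 0) (vE 1) = (F - 1) * se)
    (d3 : ∀ i j, D (hE i) (vE j) = 0) (hPW : P = pf W / (σe * se))
    (hP : 0 < P) (hδ : 0 < δ) (hv : δ ≤ v) (hK : -K ≤ h)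
    (hK0 : 0 ≤ K) (hF : 0 ≤ F) (hhF : F ≠ 0 → 0 ≤ h) (hlam : 0 < lam) (hC1 : 2 * K ≤ C * lam)
    (hC2 : 2 * K ≤ C * (δ * lam)) (ha : 0 ≤ a) (hκ : 0 ≤ κ) (haκ : a + κ = 1) (hC0 : 0 ≤ C)
    {u : E2 × E2} (hu : ∀ y, B u y = 0) : u = 0 := by
  refine nondeg_of_pf hB ?_ hu
  have hpfW : h * σe * (v * se) - W (hE 0) (vE 0) * W (hE 1) (vE 1) +
      W (hE 0) (vE 1) * W (hE 1) (vE 0) = P * (σe * se) := by
    have e3 : pf W = W (hE 0) (hE 1) * W (vE 0) (vE 1) - W (hE 0) (vE 0) * W (hE 1) (vE 1) +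
      W (hE 0) (vE 1) * W (hE 1) (vE 0) := rfl
    rw [w1, w2] at e3
    rw [← e3, hPW]
    field_simp
  have b1 := e (hE 0) (hE 1)
  have b2 := e (vE 0) (vE 1)
  have b3 : ∀ i j, (1 + C * κ * a) * B (hE i) (vE j) = a * W (hE i) (vE j) := by
    intro i j
    rw [e, o3, d3]
    ring
  rw [o1, w1, d1] at b1
  rw [o2, w2, d2] at b2
  have key : (1 + C * κ * a) ^ 2 * pf B = σe * se * (a ^ 2 * P + a * κ *
      (h * (1 + C * a * F) + v * (lam * (1 + C * a))) +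
      κ ^ 2 * (lam * (1 + C * a)) * (1 + C * a * F)) := by
    have e4 : (1 + C * κ * a) ^ 2 * pf B =
      ((1 + C * κ * a) * B (hE 0) (hE 1)) * ((1 + C * κ * a) * B (vE 0) (vE 1)) -
      ((1 + C * κ * a) * B (hE 0) (vE 0)) * ((1 + C * κ * a) * B (hE 1) (vE 1)) +
      ((1 + C * κ * a) * B (hE 0) (vE 1)) * ((1 + C * κ * a) * B (hE 1) (vE 0)) := by
      unfold pf
      ring
    rw [e4, b1, b2, b3, b3, b3, b3]
    linear_combination a ^ 2 * hpfW
  have hpos := pf_pos (P := P) (v := v) (h := h) (δ := δ) (K := K) (C := C) (lam := lam)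
    (a := a) (κ := κ) (F := F) hP hδ hv hK hK0 hF hhF hlam hC1 hC2 ha hκ haκ hC0
  intro hpf0
  rw [hpf0, mul_zero] at key
  have := mul_ne_zero (mul_ne_zero hσe hse) hpos.ne'
  exact this key.symm

variable {N : Type} [TopologicalSpace N] [ChartedSpace E2 N] [IsManifold (𝓡 2) ∞ N]

/-- Local data for the inflation, from positivity on one horizontal surface. -/
lemma local_data [CompactSpace N] {H : ℝ × (N × S2) → ℝ} (hH : Continuous H) {s₀ : ℝ} {y : S2}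
    (hs₀ : s₀ ∈ Ioo (0 : ℝ) 1) (hy : ∀ z, 0 < H (s₀, (z, y))) :
    ∃ (k : ℝ → ℝ) (U : Set ℝ), IsOpen U ∧
      s₀ ∈ U ∧ U ⊆ Ioo 0 1 ∧ ContDiff ℝ ∞ k ∧ (∀ h, -1 ≤ h → h ≤ 1 → 0 ≤ Fk k h) ∧
      (∀ s ∈ U, ∀ (z : N) (x : S2), Fk k (dot3 y x) ≠ 0 → 0 ≤ H (s, (z, x))) := by
  have hcont : Continuous (fun q : (ℝ × S2) × N => H (q.1.1, (q.2, q.1.2))) :=
    hH.comp ((continuous_fst.comp continuous_fst).prodMk
      (continuous_snd.prodMk (continuous_snd.comp continuous_fst)))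
  have hopen : IsOpen {q : (ℝ × S2) × N | 0 < H (q.1.1, (q.2, q.1.2))} :=
    isOpen_lt continuous_const hcont
  obtain ⟨u, v, hu, -, hsu, htv, huv⟩ := generalized_tube_lemma
    (isCompact_singleton (x := (s₀, y))) (isCompact_univ (X := N)) hopen (by
      rintro ⟨q, z⟩ ⟨hq, -⟩
      rw [mem_singleton_iff] at hq
      subst hq
      exact hy z)
  have hu1 : u ∈ 𝓝 (s₀, y) := hu.mem_nhds (hsu rfl)
  rw [nhds_prod_eq, Filter.mem_prod_iff] at hu1
  obtain ⟨t1, ht1, t2, ht2, ht12⟩ := hu1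
  obtain ⟨U₁, hU₁, hU₁o, hsU₁⟩ := _root_.mem_nhds_iff.1 ht1
  obtain ⟨ε, hε, hcap⟩ := exists_cap y ht2
  obtain ⟨k, hk, hkF, hkF0⟩ := exists_k hε
  refine ⟨k, U₁ ∩ Ioo 0 1, hU₁o.inter isOpen_Ioo, ⟨hsU₁, hs₀⟩, inter_subset_right, hk, hkF, ?_⟩
  intro s hs z x hx
  have hxc : 1 - 2 * ε ≤ dot3 y x := by
    by_contra hlt
    exact hx (hkF0 _ (not_le.1 hlt))
  have hmem : ((s, x), z) ∈ u ×ˢ v :=
    ⟨ht12 ⟨hU₁ hs.1, hcap x hxc⟩, htv (mem_univ z)⟩
  exact (huv hmem).le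

/-- The global data for the inflation. -/
theorem global_data [CompactSpace N] {H : ℝ × (N × S2) → ℝ} (hH : Continuous H)
    (hy : ∀ s ∈ Icc (1 / 3 : ℝ) (2 / 3), ∃ y, ∀ z, 0 < H (s, (z, y)))
    (hend : ∀ s ∉ Icc (1 / 3 : ℝ) (2 / 3), ∀ p, 0 ≤ H (s, p)) (y₀ : S2) :
    ∃ (D : ℝ → (p : N × S2) → TangentSpace IM p →L[ℝ] TangentSpace IM p →L[ℝ] ℝ)
      (G : ℝ → (p : N × S2) → TangentSpace IM p →L[ℝ] ℝ)
      (γ : (p : N × S2) → TangentSpace IM p →L[ℝ] ℝ) (Fs : ℝ → S2 → ℝ),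
      SmT2 D ∧ SmT1 G ∧ Cartan D G ∧ SmoothForm γ ∧ (∀ x, D 0 x = extDerL IM γ x) ∧
      (∀ x, D 1 x = extDerL IM γ x) ∧ (∀ s, s ≤ 0 ∨ 1 ≤ s → ∀ x, G s x = 0) ∧
      (∀ s (p : N × S2) (u v : TangentSpace IM p), D s p u v = (Fs s p.2 - 1) *
        sphArea p.2 (show E2 from (show E2 × E2 from u).2)
          (show E2 from (show E2 × E2 from v).2)) ∧
      (∀ s x, 0 ≤ Fs s x) ∧ (∀ s (p : N × S2), Fs s p.2 ≠ 0 → 0 ≤ H (s, p)) := by
  have hloc : ∀ s₀ : Icc (1 / 3 : ℝ) (2 / 3), ∃ (y : S2) (k : ℝ → ℝ) (U : Set ℝ), IsOpen U ∧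
      (s₀ : ℝ) ∈ U ∧ U ⊆ Ioo 0 1 ∧ ContDiff ℝ ∞ k ∧ (∀ h, -1 ≤ h → h ≤ 1 → 0 ≤ Fk k h) ∧
      (∀ s ∈ U, ∀ (z : N) (x : S2), Fk k (dot3 y x) ≠ 0 → 0 ≤ H (s, (z, x))) := by
    intro s₀
    obtain ⟨y, hy⟩ := hy s₀ s₀.2
    have e1 := s₀.2.1
    have e2 := s₀.2.2
    exact ⟨y, local_data hH ⟨by linarith, by linarith⟩ hy⟩
  choose y k U hUo hsU hU01 hks hkF hkh using hloc
  obtain ⟨t, ht⟩ := isCompact_Icc.elim_finite_subcover (s := Icc (1 / 3 : ℝ) (2 / 3)) U hUo (by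
    intro s hs
    exact mem_iUnion.2 ⟨⟨s, hs⟩, hsU ⟨s, hs⟩⟩)
  obtain ⟨ρ, hρs, hρ0, hρ1, hρe, hρU, hρd⟩ := exists_partition (ι := {i // i ∈ t})
    (fun i => U i.1) (fun i => hUo i.1) (by
      intro s hs
      obtain ⟨i, hi⟩ := mem_iUnion.1 (ht hs)
      obtain ⟨hit, hi2⟩ := mem_iUnion.1 hi
      exact mem_iUnion.2 ⟨⟨i, hit⟩, hi2⟩) (fun i => hU01 i.1)
  obtain ⟨k₀, hk₀, hk₀F, -⟩ := exists_k (ε := 1) one_pos
  -- the index type
  let yy : Option {i // i ∈ t} → S2 := fun i => i.elim y₀ (fun i => y i.1)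
  let kk : Option {i // i ∈ t} → ℝ → ℝ := fun i => i.elim k₀ (fun i => k i.1)
  let aa : Option {i // i ∈ t} → ℝ → ℝ :=
    fun i => i.elim (fun s => 1 - ∑ j, ρ j s) (fun i => ρ i)
  have hkks : ∀ i, ContDiff ℝ ∞ (kk i) := by
    rintro (_ | i)
    · exact hk₀
    · exact hks _
  have hkkF : ∀ i h, -1 ≤ h → h ≤ 1 → 0 ≤ Fk (kk i) h := by
    rintro (_ | i)
    · exact hk₀F
    · exact hkF _
  have haas : ∀ i, ContDiff ℝ ∞ (aa i) := by
    rintro (_ | i)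
    · exact contDiff_const.sub (ContDiff.sum fun j _ => hρs j)
    · exact hρs i
  have haa0 : ∀ i s, 0 ≤ aa i s := by
    rintro (_ | i) s
    · have := hρ1 s
      show 0 ≤ 1 - ∑ j, ρ j s
      linarith
    · exact hρ0 i s
  have haa1 : ∀ s, ∑ i, aa i s = 1 := by
    intro s
    rw [Fintype.sum_option]
    show (1 - ∑ j, ρ j s) + ∑ j, ρ j s = 1
    ring
  let γ : Option {i // i ∈ t} → (p : N × S2) → TangentSpace IM p →L[ℝ] ℝ :=
    fun i => pullForm (𝓡 2) IM (Prod.snd : N × S2 → S2) (gam (kk i) (yy i))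
  have hγs : ∀ i, SmoothForm (γ i) := fun i =>
    smoothForm_pull contMDiff_snd (smoothForm_gam (hkks i) _)
  obtain ⟨hD, hG, hC⟩ := sum_all hγs haas Finset.univ
  refine ⟨fun s p => ∑ i, aa i s • extDerL IM (γ i) p, fun s p => ∑ i, deriv (aa i) s • γ i p,
    γ none, fun s x => ∑ i, aa i s * Fk (kk i) (dot3 (yy i) x), hD, hG, hC, hγs none,
    ?_, ?_, ?_, ?_, ?_, ?_⟩
  · intro x
    show ∑ i, aa i 0 • extDerL IM (γ i) x = _
    rw [Fintype.sum_option]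
    have e1 : ∀ i : {i // i ∈ t}, aa (some i) 0 = 0 := fun i => (hρd i 0 (by simp)).1
    have e2 : aa none 0 = 1 := by
      show 1 - ∑ j, ρ j 0 = 1
      rw [Finset.sum_eq_zero fun j _ => (hρd j 0 (by simp)).1, sub_zero]
    have e3 : ∀ i : {i // i ∈ t}, aa (some i) 0 • extDerL IM (γ (some i)) x = 0 := fun i => by
      rw [e1 i]
      exact ContinuousLinearMap.ext fun u => ContinuousLinearMap.ext fun v => zero_mul _
    have e4 : aa none 0 • extDerL IM (γ none) x = extDerL IM (γ none) x := by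
      rw [e2]
      exact ContinuousLinearMap.ext fun u => ContinuousLinearMap.ext fun v => one_mul _
    rw [e4, Finset.sum_eq_zero fun i _ => e3 i]
    exact add_zero _
  · intro x
    show ∑ i, aa i 1 • extDerL IM (γ i) x = _
    rw [Fintype.sum_option]
    have e1 : ∀ i : {i // i ∈ t}, aa (some i) 1 = 0 := fun i => (hρd i 1 (by simp)).1
    have e2 : aa none 1 = 1 := by
      show 1 - ∑ j, ρ j 1 = 1
      rw [Finset.sum_eq_zero fun j _ => (hρd j 1 (by simp)).1, sub_zero]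
    have e3 : ∀ i : {i // i ∈ t}, aa (some i) 1 • extDerL IM (γ (some i)) x = 0 := fun i => by
      rw [e1 i]
      exact ContinuousLinearMap.ext fun u => ContinuousLinearMap.ext fun v => zero_mul _
    have e4 : aa none 1 • extDerL IM (γ none) x = extDerL IM (γ none) x := by
      rw [e2]
      exact ContinuousLinearMap.ext fun u => ContinuousLinearMap.ext fun v => one_mul _
    rw [e4, Finset.sum_eq_zero fun i _ => e3 i]
    exact add_zero _
  · intro s hs x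
    have hs' : s ∉ Ioo (0 : ℝ) 1 := by
      rintro ⟨h2, h3⟩
      rcases hs with h | h
      · linarith
      · linarith
    apply Finset.sum_eq_zero
    intro i _
    have e : deriv (aa i) s = 0 := by
      rcases i with _ | i
      · have h2 : HasDerivAt (fun s => 1 - ∑ j, ρ j s) (0 - ∑ j, deriv (ρ j) s) s := by
          refine (hasDerivAt_const s 1).sub (HasDerivAt.fun_sum fun j _ => ?_)
          exact ((hρs j).differentiable (by simp) s).hasDerivAt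
        have h3 : deriv (fun s => 1 - ∑ j, ρ j s) s = 0 := by
          rw [h2.deriv, Finset.sum_eq_zero fun j _ => (hρd j s hs').2, sub_zero]
        exact h3
      · exact (hρd i s hs').2
    rw [e]
    exact zero_smul ℝ (γ i x)
  · intro s p u v
    have e1 : (∑ i, aa i s • extDerL IM (γ i) p) u v = ∑ i, aa i s * extDerL IM (γ i) p u v := by
      simp only [sum_apply, smul_apply, smul_eq_mul]
    have e2 : ∀ i, aa i s * extDerL IM (γ i) p u v = (aa i s * Fk (kk i) (dot3 (yy i) p.2) -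
        aa i s) * sphArea p.2 (show E2 from (show E2 × E2 from u).2)
          (show E2 from (show E2 × E2 from v).2) := by
      intro i
      have e3 := ext_snd (hkks i) (yy i) p u v
      rw [e3]
      ring
    rw [e1, Finset.sum_congr rfl (fun i _ => e2 i), ← Finset.sum_mul, Finset.sum_sub_distrib, haa1]
  · intro s x
    exact Finset.sum_nonneg fun i _ => mul_nonneg (haa0 i s)
      (hkkF i _ (abs_dot_le _ _).1 (abs_dot_le _ _).2)
  · intro s p hne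
    obtain ⟨i, -, hi⟩ := Finset.exists_ne_zero_of_sum_ne_zero hne
    have hi1 : aa i s ≠ 0 := left_ne_zero_of_mul hi
    have hi2 : Fk (kk i) (dot3 (yy i) p.2) ≠ 0 := right_ne_zero_of_mul hi
    rcases i with _ | i
    · refine hend s ?_ p
      intro hs
      apply hi1
      show 1 - ∑ j, ρ j s = 0
      rw [hρe s hs, sub_self]
    · exact hkh i.1 s (hρU i s hi1) p.1 p.2 hi2

end Pool.Agent.Helper500_SM
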