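import Mathlib
import Pool.Agent.Helper500_SM.CB2

/-! The criterion for products of a surface and the two-sphere. -/

open scoped Topology ContDiff Manifold
open Set Metric Bundle

noncomputable section

namespace Pool.Agent.Helper500_SM

open Pool.Agent.Helper186

set_option linter.unusedSectionVars false

variable {N : Type} [TopologicalSpace N] [ChartedSpace E2 N] [IsManifold (𝓡 2) ∞ N]
  {σ : (z : N) → TangentSpace (𝓡 2) z →L[ℝ] TangentSpace (𝓡 2) z →L[ℝ] ℝ} {lam : ℝ}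

/-- the reparametrisation of time -/
def tau (s : ℝ) : ℝ := Real.smoothTransition (3 * s - 1)

lemma tau_smooth : ContDiff ℝ ∞ tau := Real.smoothTransition.contDiff.comp
    ((contDiff_const.mul contDiff_id).sub contDiff_const)

lemma tau_mem (s : ℝ) : tau s ∈ Icc (0 : ℝ) 1 :=
  ⟨Real.smoothTransition.nonneg _, Real.smoothTransition.le_one _⟩

lemma tau_zero {s : ℝ} (hs : s ≤ 1 / 3) : tau s = 0 :=
  Real.smoothTransition.zero_of_nonpos (by linarith)

lemma tau_one {s : ℝ} (hs : 2 / 3 ≤ s) : tau s = 1 :=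
  Real.smoothTransition.one_of_one_le (by linarith)

/-- the cut off in the second parameter -/
def kap (r : ℝ) : ℝ := Real.smoothTransition (r ^ 2)

lemma kap_smooth : ContDiff ℝ ∞ kap := Real.smoothTransition.contDiff.comp (contDiff_id.pow 2)

lemma kap_nonneg (r : ℝ) : 0 ≤ kap r := Real.smoothTransition.nonneg _

lemma kap_le (r : ℝ) : kap r ≤ 1 := Real.smoothTransition.le_one _

lemma kap_one {r : ℝ} (hr : 1 ≤ |r|) : kap r = 1 := by
  apply Real.smoothTransition.one_of_one_le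
  have : 1 ≤ |r| ^ 2 := one_le_pow₀ hr
  rwa [sq_abs] at this

lemma kap_zero : kap 0 = 0 := Real.smoothTransition.zero_of_nonpos (by norm_num)

/-- the normalising factor -/
def nor (C r : ℝ) : ℝ := 1 + C * kap r * (1 - kap r)

lemma nor_pos {C : ℝ} (hC : 0 ≤ C) (r : ℝ) : 0 < nor C r := by
  have e1 := kap_nonneg r
  have e2 : 0 ≤ 1 - kap r := by linarith [kap_le r]
  unfold nor
  positivity

lemma nor_smooth (C : ℝ) : ContDiff ℝ ∞ (nor C) :=
  contDiff_const.add ((contDiff_const.mul kap_smooth).mul (contDiff_const.sub kap_smooth))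

/-- the coefficients -/
def cc1 (C r : ℝ) : ℝ := (1 - kap r) / nor C r

/-- the coefficients -/
def cc2 (C r : ℝ) : ℝ := C * kap r * (1 - kap r) / nor C r

lemma cc1_smooth {C : ℝ} (hC : 0 ≤ C) : ContDiff ℝ ∞ (cc1 C) :=
  (contDiff_const.sub kap_smooth).div (nor_smooth C) fun r => (nor_pos hC r).ne'

lemma cc2_smooth {C : ℝ} (hC : 0 ≤ C) : ContDiff ℝ ∞ (cc2 C) :=
  ((contDiff_const.mul kap_smooth).mul (contDiff_const.sub kap_smooth)).div (nor_smooth C)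
    fun r => (nor_pos hC r).ne'

/-- evaluation of the normalised linear family -/
lemma WW_eval {om : (p : N × S2) → TangentSpace IM p →L[ℝ] TangentSpace IM p →L[ℝ] ℝ}
    {phi : ℝ × (N × S2) → N × S2}
    {D : ℝ → (p : N × S2) → TangentSpace IM p →L[ℝ] TangentSpace IM p →L[ℝ] ℝ} {C : ℝ}
    (hC : 0 ≤ C) (s r : ℝ) (p : N × S2) (v w : TangentSpace IM p) :
    (1 + C * kap r * (1 - kap r)) * WW om phi D (cc1 C) (cc2 C) s r p v w =
      (kap r * (1 + C * (1 - kap r))) * om p v w + ((1 - kap r) * pullT om phi s p v w +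
        C * kap r * (1 - kap r) * D s p v w) := by
  have e1 : WW om phi D (cc1 C) (cc2 C) s r p v w = (1 - (1 - kap r) / nor C r) * om p v w +
    ((1 - kap r) / nor C r * pullT om phi s p v w +
      C * kap r * (1 - kap r) / nor C r * D s p v w) := rfl
  rw [e1]
  have h := (nor_pos hC r).ne'
  have e2 : 1 + C * kap r * (1 - kap r) = nor C r := rfl
  rw [e2]
  field_simp
  rw [← e2]
  ring

lemma sph_zero_left (x : S2) (b : E2) : sphArea x (0 : E2) b = 0 := by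
  rw [sphArea_alt]
  have : sphArea x b (0 : E2) = 0 := map_zero (sphArea x b)
  rw [this, neg_zero]

lemma pullT_alt {om : (p : N × S2) → TangentSpace IM p →L[ℝ] TangentSpace IM p →L[ℝ] ℝ}
    (homa : ∀ p v w, om p v w = - om p w v) (phi : ℝ × (N × S2) → N × S2) (s : ℝ) (p : N × S2)
    (v w : TangentSpace IM p) : pullT om phi s p v w = - pullT om phi s p w v := by
  rw [pullT_apply, pullT_apply]
  exact homa _ _ _

lemma WW_alt {om : (p : N × S2) → TangentSpace IM p →L[ℝ] TangentSpace IM p →L[ℝ] ℝ}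
    (homa : ∀ p v w, om p v w = - om p w v) (phi : ℝ × (N × S2) → N × S2)
    {D : ℝ → (p : N × S2) → TangentSpace IM p →L[ℝ] TangentSpace IM p →L[ℝ] ℝ}
    (hD : ∀ s p v w, D s p v w = - D s p w v) (c₁ c₂ : ℝ → ℝ) (s r : ℝ) (p : N × S2)
    (v w : TangentSpace IM p) : WW om phi D c₁ c₂ s r p v w = - WW om phi D c₁ c₂ s r p w v := by
  have hw : ∀ v w, WW om phi D c₁ c₂ s r p v w = (1 - c₁ r) * om p v w +
    (c₁ r * pullT om phi s p v w + c₂ r * D s p v w) := fun _ _ => rfl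
  rw [hw, hw, homa p v w, pullT_alt homa phi s p v w, hD s p v w]
  ring

lemma D_alt {D : ℝ → (p : N × S2) → TangentSpace IM p →L[ℝ] TangentSpace IM p →L[ℝ] ℝ}
    {Fs : ℝ → S2 → ℝ}
    (hDe : ∀ s (p : N × S2) (u v : TangentSpace IM p), D s p u v = (Fs s p.2 - 1) *
        sphArea p.2 (show E2 from (show E2 × E2 from u).2)
          (show E2 from (show E2 × E2 from v).2)) (s : ℝ) (p : N × S2)
    (v w : TangentSpace IM p) : D s p v w = - D s p w v := by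
  rw [hDe, hDe, sphArea_alt]
  ring

/-- nondegeneracy of the linear family -/
theorem WW_nondeg (hσa : ∀ z v w, σ z v w = - σ z w v)
    (hσn : ∀ z u, (∀ v, σ z u v = 0) → u = 0) (hlam : 0 < lam)
    {Φ : ℝ × (N × S2) → N × S2}
    {D : ℝ → (p : N × S2) → TangentSpace IM p →L[ℝ] TangentSpace IM p →L[ℝ] ℝ}
    {Fs : ℝ → S2 → ℝ}
    (hDe : ∀ s (p : N × S2) (u v : TangentSpace IM p), D s p u v = (Fs s p.2 - 1) *
        sphArea p.2 (show E2 from (show E2 × E2 from u).2)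
          (show E2 from (show E2 × E2 from v).2)) (hFs0 : ∀ s x, 0 ≤ Fs s x)
    (hFsh : ∀ s (p : N × S2), Fs s p.2 ≠ 0 →
      0 ≤ hr σ (pullT (prodForm σ lam) Φ) (tau s, p))
    {δ K C : ℝ} (hδ : 0 < δ) (hK0 : 0 ≤ K) (hC0 : 0 ≤ C) (hC1 : 2 * K ≤ C * lam)
    (hC2 : 2 * K ≤ C * (δ * lam))
    (hP : ∀ t ∈ Icc (0 : ℝ) 1, ∀ p : N × S2, 0 < pf (pullT (prodForm σ lam) Φ t p) /
      (σ p.1 (eb 0) (eb 1) * sphArea p.2 (eb 0) (eb 1)))
    (hδv : ∀ t ∈ Icc (0 : ℝ) 1, ∀ p : N × S2, δ ≤ vr (pullT (prodForm σ lam) Φ) (t, p))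
    (hKh : ∀ t ∈ Icc (0 : ℝ) 1, ∀ p : N × S2, -K ≤ hr σ (pullT (prodForm σ lam) Φ) (t, p))
    (s r : ℝ) (p : N × S2) (u : TangentSpace IM p)
    (hu : ∀ v, WW (prodForm σ lam) (fun q => Φ (tau q.1, q.2)) D (cc1 C) (cc2 C) s r p u v = 0) :
    u = 0 := by
  have hσe0 : σ p.1 (eb 0) (eb 1) ≠ 0 := ne_of_nondeg (hσa p.1) (hσn p.1)
  have hse0 : sphArea p.2 (eb 0) (eb 1) ≠ 0 := sph0 p.2
  refine nondeg_pt (om := prodForm σ lam p) (W := pullT (prodForm σ lam) Φ (tau s) p)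
    (D := D s p) (B := WW (prodForm σ lam) (fun q => Φ (tau q.1, q.2)) D (cc1 C) (cc2 C) s r p)
    (lam := lam) (σe := σ p.1 (eb 0) (eb 1)) (se := sphArea p.2 (eb 0) (eb 1))
    (h := hr σ (pullT (prodForm σ lam) Φ) (tau s, p)) (v := vr (pullT (prodForm σ lam) Φ) (tau s, p))
    (F := Fs s p.2) (P := pf (pullT (prodForm σ lam) Φ (tau s) p) /
      (σ p.1 (eb 0) (eb 1) * sphArea p.2 (eb 0) (eb 1))) (C := C) (a := 1 - kap r) (κ := kap r)
    (δ := δ) (K := K) ?_ hσe0 hse0 ?_ ?_ ?_ (om_h p _ _) (om_v hσa p _ _) (fun i j => om_c p _ _)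
    ?_ ?_ ?_ rfl (hP _ (tau_mem s) p) hδ (hδv _ (tau_mem s) p) (hKh _ (tau_mem s) p) hK0
    (hFs0 s p.2) (hFsh s p) hlam hC1 hC2 (by linarith [kap_le r]) (kap_nonneg r) (by ring) hC0 hu
  · exact WW_alt (fun p v w => prodForm_alt hσa p v w) _ (D_alt hDe) _ _ s r p
  · intro v w
    exact WW_eval hC0 s r p v w
  · have e2 : hr σ (pullT (prodForm σ lam) Φ) (tau s, p) =
      pullT (prodForm σ lam) Φ (tau s) p (hE 0) (hE 1) / σ p.1 (eb 0) (eb 1) := rfl
    rw [e2]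
    exact (div_mul_cancel₀ _ hσe0).symm
  · have e2 : vr (pullT (prodForm σ lam) Φ) (tau s, p) =
      pullT (prodForm σ lam) Φ (tau s) p (vE 0) (vE 1) / sphArea p.2 (eb 0) (eb 1) := rfl
    rw [e2]
    exact (div_mul_cancel₀ _ hse0).symm
  · have h1 := hDe s p (hE 0) (hE 1)
    refine h1.trans ?_
    have h2 : sphArea p.2 (0 : E2) (0 : E2) = 0 := sph_zero_left _ _
    exact (congrArg (fun t => (Fs s p.2 - 1) * t) h2).trans (mul_zero _)
  · exact hDe s p (vE 0) (vE 1)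
  · intro i j
    have h1 := hDe s p (hE i) (vE j)
    refine h1.trans ?_
    have h2 : sphArea p.2 (0 : E2) (eb j) = 0 := sph_zero_left _ _
    exact (congrArg (fun t => (Fs s p.2 - 1) * t) h2).trans (mul_zero _)

/-- The criterion. -/
theorem critB [T2Space N] [CompactSpace N] (hσ : Sm2 σ) (hσa : ∀ z v w, σ z v w = - σ z w v)
    (hσn : ∀ z u, (∀ v, σ z u v = 0) → u = 0) (hlam : 0 < lam)
    {Φ : ℝ × (N × S2) → N × S2} (hΦ : ContMDiff (𝓘(ℝ, ℝ).prod IM) IM ∞ Φ)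
    (h0 : ∀ x, Φ (0, x) = x)
    (h1 : ∀ x, pullT (prodForm σ lam) Φ 1 x = prodForm σ lam x)
    (hnd : ∀ t ∈ Icc (0 : ℝ) 1, ∀ p u, (∀ v, pullT (prodForm σ lam) Φ t p u v = 0) → u = 0)
    (hv : ∀ t ∈ Icc (0 : ℝ) 1, ∀ (p : N × S2) (u v : E2), 0 < sphArea p.2 u v →
      0 < pullT (prodForm σ lam) Φ t p ((0 : E2), u) ((0 : E2), v))
    (hh : ∀ t ∈ Icc (0 : ℝ) 1, ∃ x : S2, ∀ (z : N) (u v : E2), 0 < σ z u v →
      0 < pullT (prodForm σ lam) Φ t (z, x) (u, (0 : E2)) (v, (0 : E2))) :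
    ∃ Ψ Ψ' : ℝ × (N × S2) → N × S2, ContMDiff (𝓘(ℝ, ℝ).prod IM) IM ∞ Ψ ∧
      ContMDiff (𝓘(ℝ, ℝ).prod IM) IM ∞ Ψ' ∧ (∀ x, Ψ (0, x) = x) ∧ (∀ x, Ψ (1, x) = Φ (1, x)) ∧
      (∀ s x, Ψ' (s, Ψ (s, x)) = x) ∧ (∀ s x, Ψ (s, Ψ' (s, x)) = x) ∧
      (∀ s x u v, prodForm σ lam (Ψ (s, x)) (DX Ψ s x u) (DX Ψ s x v) =
        prodForm σ lam x u v) := by
  have homs : Sm2 (prodForm σ lam) := sm2_prodForm hσ
  have homa : ∀ p v w, prodForm σ lam p v w = - prodForm σ lam p w v :=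
    fun p v w => prodForm_alt hσa p v w
  have hWs : SmT2 (pullT (prodForm σ lam) Φ) := SmT2.pullT homs hΦ
  have hWa := pullT_alt homa Φ
  have ch := continuous_hr hWs hWa hσ hσa hσn
  have cv := continuous_vr hWs hWa
  have hp0 : ∀ p, pullT (prodForm σ lam) Φ 0 p = prodForm σ lam p := fun p => pull_eq_of_id h0 p
  have hvpos : ∀ t ∈ Icc (0 : ℝ) 1, ∀ p, 0 < vr (pullT (prodForm σ lam) Φ) (t, p) :=
    fun t ht p => vr_pos hWa (hv t ht p)
  have hhpos : ∀ t ∈ Icc (0 : ℝ) 1, ∃ x, ∀ z,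
      0 < hr σ (pullT (prodForm σ lam) Φ) (t, (z, x)) := by
    intro t ht
    obtain ⟨x, hx⟩ := hh t ht
    exact ⟨x, fun z => hr_pos hσa hσn hWa (hx z)⟩
  have hP : ∀ t ∈ Icc (0 : ℝ) 1, ∀ p : N × S2, 0 < pf (pullT (prodForm σ lam) Φ t p) /
      (σ p.1 (eb 0) (eb 1) * sphArea p.2 (eb 0) (eb 1)) := fun t ht p =>
    pfW_pos hσa hσn hlam hWs hWa (hp0 p) (fun t ht u hu => hnd t ht p u hu) ht
  -- uniform constants
  have hKc : IsCompact ((Icc (0 : ℝ) 1) ×ˢ (univ : Set (N × S2))) :=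
    isCompact_Icc.prod isCompact_univ
  obtain ⟨δ, hδ, hδv⟩ := hKc.exists_forall_le' cv.continuousOn (a := 0)
    (fun q hq => hvpos q.1 hq.1 q.2)
  obtain ⟨K₀, hK₀⟩ := (hKc.bddBelow_image ch.continuousOn)
  have hKh : ∀ t ∈ Icc (0 : ℝ) 1, ∀ p, -|K₀| ≤ hr σ (pullT (prodForm σ lam) Φ) (t, p) := by
    intro t ht p
    have h2 := hK₀ (mem_image_of_mem _ (show (t, p) ∈ (Icc (0 : ℝ) 1) ×ˢ (univ : Set (N × S2)) from
      ⟨ht, mem_univ _⟩))
    have h3 := neg_abs_le K₀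
    linarith
  -- the data
  have hH : Continuous (fun q : ℝ × (N × S2) =>
      hr σ (pullT (prodForm σ lam) Φ) (tau q.1, q.2)) :=
    ch.comp ((tau_smooth.continuous.comp continuous_fst).prodMk continuous_snd)
  obtain ⟨y₀, -⟩ := hhpos 0 ⟨le_rfl, zero_le_one⟩
  obtain ⟨D, G, γ, Fs, hD, hG, hC, hγ, hD0, hD1, hG0, hDe, hFs0, hFsh⟩ := global_data
    (H := fun q : ℝ × (N × S2) => hr σ (pullT (prodForm σ lam) Φ) (tau q.1, q.2)) hH
    (fun s _ => hhpos (tau s) (tau_mem s)) (by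
      intro s hs p
      have hW : pullT (prodForm σ lam) Φ (tau s) p = prodForm σ lam p := by
        rcases lt_or_ge s (1 / 3) with h | h
        · rw [tau_zero h.le]
          exact hp0 p
        · have : 2 / 3 < s := by
            by_contra h2
            exact hs ⟨h, not_lt.1 h2⟩
          rw [tau_one this.le]
          exact h1 p
      show 0 ≤ hr σ (pullT (prodForm σ lam) Φ) (tau s, p)
      rw [hr_om hσa hσn hW]
      exact hlam.le) y₀
  -- the constant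
  have hKn : 0 ≤ |K₀| := abs_nonneg _
  have hC0 : 0 ≤ 2 * |K₀| / lam + 2 * |K₀| / (δ * lam) := by positivity
  have hC1 : 2 * |K₀| ≤ (2 * |K₀| / lam + 2 * |K₀| / (δ * lam)) * lam := by
    have e : (2 * |K₀| / lam + 2 * |K₀| / (δ * lam)) * lam =
        2 * |K₀| + 2 * |K₀| / (δ * lam) * lam := by
      field_simp
    rw [e]
    have : 0 ≤ 2 * |K₀| / (δ * lam) * lam := by positivity
    linarith
  have hC2 : 2 * |K₀| ≤ (2 * |K₀| / lam + 2 * |K₀| / (δ * lam)) * (δ * lam) := by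
    have e : (2 * |K₀| / lam + 2 * |K₀| / (δ * lam)) * (δ * lam) =
        2 * |K₀| / lam * (δ * lam) + 2 * |K₀| := by
      field_simp
    rw [e]
    have : 0 ≤ 2 * |K₀| / lam * (δ * lam) := by positivity
    linarith
  generalize 2 * |K₀| / lam + 2 * |K₀| / (δ * lam) = C at hC0 hC1 hC2
  have hlast : ∀ x, Φ (1, x) = Φ (tau 1, x) := by
    intro x
    rw [tau_one (by norm_num)]
  have hphis : ContMDiff (𝓘(ℝ, ℝ).prod IM) IM ∞ (fun q : ℝ × (N × S2) => Φ (tau q.1, q.2)) :=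
    hΦ.comp ((tau_smooth.contMDiff.comp contMDiff_fst).prodMk contMDiff_snd)
  obtain ⟨Ψ, Ψ', a1, a2, a3, a4, a5, a6, a7⟩ := thmA (phi := fun q => Φ (tau q.1, q.2))
    (D := D) (G := G) (γ := γ) (c₁ := cc1 C) (c₂ := cc2 C) homs
    (closedP_prodForm hσ hσa) homa hphis
    (fun s hs x => by
      show Φ (tau s, x) = x
      rw [tau_zero (by linarith), h0])
    (fun s hs x => by
      show Φ (tau s, x) = Φ (tau 1, x)
      rw [tau_one (by linarith), tau_one (by norm_num)])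
    (fun x => by
      have e1 : pullT (prodForm σ lam) (fun q => Φ (tau q.1, q.2)) 1 x =
        pullT (prodForm σ lam) Φ (tau 1) x := rfl
      rw [e1, tau_one (by norm_num)]
      exact h1 x)
    hD hG hC hγ hD0 hD1 hG0 (cc1_smooth hC0) (cc2_smooth hC0)
    (by unfold cc1 nor; rw [kap_zero]; norm_num)
    (by unfold cc2; rw [kap_zero]; norm_num)
    (fun r hr => by unfold cc1; rw [kap_one hr]; norm_num)
    (fun r hr => by unfold cc2; rw [kap_one hr]; norm_num)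
    (WW_nondeg hσa hσn hlam hDe hFs0 hFsh hδ hKn hC0 hC1 hC2 hP
      (fun t ht p => hδv (t, p) ⟨ht, mem_univ _⟩) hKh)
  exact ⟨Ψ, Ψ', a1, a2, a3, fun x => (a4 x).trans (hlast x).symm, a5, a6, a7⟩

end Pool.Agent.Helper500_SM
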