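import Mathlib
import Pool.Agent.Helper500_SM.Sph

/-!
# Definitions for the isotopy criterion

Everything here is stated for general manifolds; two-forms are functions that take two tangent
vectors at a point and give a real number.
-/

open scoped Topology ContDiff Manifold
open Set Metric Bundle

noncomputable section

namespace Pool.Agent.Helper500_SM

set_option linter.unusedSectionVars false

section one

variable {E : Type*} [NormedAddCommGroup E] [NormedSpace ℝ E]
  {H : Type*} [TopologicalSpace H] (I : ModelWithCorners ℝ E H)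
  {M : Type*} [TopologicalSpace M] [ChartedSpace H M]

/-- `om` is a smooth two-form: it is smooth on pairs of vector fields. -/
def IsSmoothForm [IsManifold I ∞ M]
    (om : (x : M) → TangentSpace I x → TangentSpace I x → ℝ) : Prop :=
  ∀ (x₀ : M) (X Y : (x : M) → TangentSpace I x),
    ContMDiffAt I I.tangent ∞ (fun x => (⟨x, X x⟩ : TangentBundle I M)) x₀ →
    ContMDiffAt I I.tangent ∞ (fun x => (⟨x, Y x⟩ : TangentBundle I M)) x₀ →
    ContMDiffAt I 𝓘(ℝ, ℝ) ∞ (fun x => om x (X x) (Y x)) x₀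

/-- `om` is an area form (on a surface): a smooth two-form, bilinear, alternating and
nondegenerate at each point. -/
structure IsAreaForm [IsManifold I ∞ M]
    (om : (x : M) → TangentSpace I x → TangentSpace I x → ℝ) : Prop where
  smooth : IsSmoothForm I om
  bilinear : ∀ x, ∃ B : E →L[ℝ] E →L[ℝ] ℝ, ∀ u v, om x u v = B u v
  alternating : ∀ x u, om x u u = 0
  nondegenerate : ∀ x u, (∀ v, om x u v = 0) → u = 0

/-- `f` is a symplectomorphism for the two-form `om`: a smooth diffeomorphism preserving it. -/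
def IsSymp (om : (x : M) → TangentSpace I x → TangentSpace I x → ℝ) (f : M → M) : Prop :=
  (∃ e : M ≃ₘ^∞⟮I, I⟯ M, ∀ x, e x = f x) ∧
    ∀ x u v, om (f x) (mfderiv I I f x u) (mfderiv I I f x v) = om x u v

/-- `Φ`, restricted to times in `[0, 1]`, is a smooth isotopy through diffeomorphisms from the
identity to `f`. -/
def IsIsotopy (Φ : ℝ × M → M) (f : M → M) : Prop :=
  ContMDiff (𝓘(ℝ, ℝ).prod I) I ∞ Φ ∧
    (∀ t ∈ Icc (0 : ℝ) 1, ∃ e : M ≃ₘ^∞⟮I, I⟯ M, ∀ x, e x = Φ (t, x)) ∧
    (∀ x, Φ (0, x) = x) ∧ (∀ x, Φ (1, x) = f x)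

/-- `f` is isotopic to the identity through symplectomorphisms of `om`. -/
def SympIsotopic (om : (x : M) → TangentSpace I x → TangentSpace I x → ℝ) (f : M → M) : Prop :=
  ∃ Φ : ℝ × M → M, IsIsotopy I Φ f ∧ ∀ t ∈ Icc (0 : ℝ) 1, IsSymp I om (fun x => Φ (t, x))

end one

section two

variable {E₁ : Type*} [NormedAddCommGroup E₁] [NormedSpace ℝ E₁]
  {H₁ : Type*} [TopologicalSpace H₁] (I₁ : ModelWithCorners ℝ E₁ H₁)
  {N : Type*} [TopologicalSpace N] [ChartedSpace H₁ N]
  {E₂ : Type*} [NormedAddCommGroup E₂] [NormedSpace ℝ E₂]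
  {H₂ : Type*} [TopologicalSpace H₂] (I₂ : ModelWithCorners ℝ E₂ H₂)
  {S : Type*} [TopologicalSpace S] [ChartedSpace H₂ S]

/-- The product form `lam * pr₁^* σ + pr₂^* τ` on `N × S`. -/
def omega (σ : (z : N) → TangentSpace I₁ z → TangentSpace I₁ z → ℝ)
    (τ : (x : S) → TangentSpace I₂ x → TangentSpace I₂ x → ℝ) (lam : ℝ) (p : N × S)
    (u v : TangentSpace (I₁.prod I₂) p) : ℝ :=
  lam * σ p.1 (mfderiv (I₁.prod I₂) I₁ Prod.fst p u) (mfderiv (I₁.prod I₂) I₁ Prod.fst p v) +
    τ p.2 (mfderiv (I₁.prod I₂) I₂ Prod.snd p u) (mfderiv (I₁.prod I₂) I₂ Prod.snd p v)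

/-- The restriction of `F` to each fibre `{z} × S` pulls `om` back to a form that is positive
where `τ` is. -/
def FibresPositive (τ : (x : S) → TangentSpace I₂ x → TangentSpace I₂ x → ℝ)
    (om : (p : N × S) → TangentSpace (I₁.prod I₂) p → TangentSpace (I₁.prod I₂) p → ℝ)
    (F : N × S → N × S) : Prop :=
  ∀ (z : N) (x : S) (u v : TangentSpace I₂ x), 0 < τ x u v →
    0 < om (F (z, x)) (mfderiv I₂ (I₁.prod I₂) (fun y : S => F (z, y)) x u)
      (mfderiv I₂ (I₁.prod I₂) (fun y : S => F (z, y)) x v)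

/-- The restriction of `F` to `N × {x}` pulls `om` back to a form that is positive where `σ`
is. -/
def SectionPositive (σ : (z : N) → TangentSpace I₁ z → TangentSpace I₁ z → ℝ)
    (om : (p : N × S) → TangentSpace (I₁.prod I₂) p → TangentSpace (I₁.prod I₂) p → ℝ)
    (F : N × S → N × S) (x : S) : Prop :=
  ∀ (z : N) (u v : TangentSpace I₁ z), 0 < σ z u v →
    0 < om (F (z, x)) (mfderiv I₁ (I₁.prod I₂) (fun y : N => F (y, x)) z u)
      (mfderiv I₁ (I₁.prod I₂) (fun y : N => F (y, x)) z v)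

/-- `f` is the end of a smooth isotopy starting at the identity for which, at each time, the
images of all the fibres `{z} × S` and of at least one of the sections `N × {x}` are positive for
the form `om`. -/
def SoftIsotopic (σ : (z : N) → TangentSpace I₁ z → TangentSpace I₁ z → ℝ)
    (τ : (x : S) → TangentSpace I₂ x → TangentSpace I₂ x → ℝ)
    (om : (p : N × S) → TangentSpace (I₁.prod I₂) p → TangentSpace (I₁.prod I₂) p → ℝ)
    (f : N × S → N × S) : Prop :=
  ∃ Φ : ℝ × (N × S) → N × S, IsIsotopy (I₁.prod I₂) Φ f ∧ ∀ t ∈ Icc (0 : ℝ) 1,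
    FibresPositive I₁ I₂ τ om (fun p => Φ (t, p)) ∧
    ∃ x, SectionPositive I₁ I₂ σ om (fun p => Φ (t, p)) x

/-- `f` is a symplectomorphism of `N × S` with the form `omega`. -/
def SympP (σ : (z : N) → TangentSpace I₁ z → TangentSpace I₁ z → ℝ)
    (τ : (x : S) → TangentSpace I₂ x → TangentSpace I₂ x → ℝ) (lam : ℝ)
    (f : N × S → N × S) : Prop :=
  IsSymp (I₁.prod I₂) (omega I₁ I₂ σ τ lam) f

/-- `f` is isotopic to the identity through symplectomorphisms of `N × S` with the form
`omega`. -/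
def SympIsotopicP (σ : (z : N) → TangentSpace I₁ z → TangentSpace I₁ z → ℝ)
    (τ : (x : S) → TangentSpace I₂ x → TangentSpace I₂ x → ℝ) (lam : ℝ)
    (f : N × S → N × S) : Prop :=
  SympIsotopic (I₁.prod I₂) (omega I₁ I₂ σ τ lam) f

/-- `f` is softly isotopic to the identity for the form `omega` on `N × S`. -/
def SoftIsotopicP (σ : (z : N) → TangentSpace I₁ z → TangentSpace I₁ z → ℝ)
    (τ : (x : S) → TangentSpace I₂ x → TangentSpace I₂ x → ℝ) (lam : ℝ)
    (f : N × S → N × S) : Prop :=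
  SoftIsotopic I₁ I₂ σ τ (omega I₁ I₂ σ τ lam) f

/-- The tangent map of a map with values in a vector space `V`, as a vector of `V`. -/
def pushv {V : Type*} [NormedAddCommGroup V] [NormedSpace ℝ V] (g : N → V) (x : N)
    (u : TangentSpace I₁ x) : V :=
  mfderiv I₁ 𝓘(ℝ, V) g x u

end two

/-- The area form of the round unit sphere, divided by `4π`: the determinant of the point and the
images of the two tangent vectors in three-space, over `4π`. -/
def sph (x : S2) (u v : TangentSpace (𝓡 2) x) : ℝ :=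
  det3 x (pushv (𝓡 2) (fun y : S2 => (y : E3)) x u) (pushv (𝓡 2) (fun y : S2 => (y : E3)) x v) /
    (4 * Real.pi)

lemma sphArea_eq_sph (x : S2) (u v : TangentSpace (𝓡 2) x) : sphArea x u v = sph x u v :=
  sphArea_apply x u v

end Pool.Agent.Helper500_SM
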